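import Mathlib

/-!
Ordered Ramsey numbers of the cube (MP_09b4c2): definitions for one level of the window argument.
-/

namespace Pool.Agent.Helper53.OC

open Finset

/-- A one-level system with rows `U`, columns `W`, edges `E`. The numbers `x e, y e` are the shares of the
edge `e` in the loads of its row and its column, `m, n` are the masses of the rows and columns, `θ e` is
the part of the edge that becomes a cross edge, and `q a b e` is the relative density of the quadrant
`(a, b)` of the edge `e` (`true` is the left half). -/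
structure Sys (U W E : Type) [Fintype U] [Fintype W] [Fintype E] [DecidableEq U] [DecidableEq W] where
  s : E → U
  t : E → W
  inj : ∀ e e', s e = s e' → t e = t e' → e = e'
  x : E → ℝ
  y : E → ℝ
  x_pos : ∀ e, 0 < x e
  y_pos : ∀ e, 0 < y e
  x_sum : ∀ u, ∑ e with s e = u, x e ≤ 1
  y_sum : ∀ w, ∑ e with t e = w, y e ≤ 1
  m : U → ℝ
  n : W → ℝ
  m_pos : ∀ u, 0 < m u
  n_pos : ∀ w, 0 < n w
  θ : E → ℝ
  θ_nn : ∀ e, 0 ≤ θ e
  θ_le : ∀ e, θ e ≤ 1 / 2
  θ_row : ∀ e e', θ e ≠ 0 → θ e' ≠ 0 → s e = s e' → e = e'
  θ_col : ∀ e e', θ e ≠ 0 → θ e' ≠ 0 → t e = t e' → e = e'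
  q : Bool → Bool → E → ℝ
  q_pos : ∀ a b e, 0 < q a b e
  q_sum : ∀ e, q true true e + q true false e + q false true e + q false false e = 4

namespace Sys

variable {U W E : Type} [Fintype U] [Fintype W] [Fintype E] [DecidableEq U] [DecidableEq W]
  (S : Sys U W E)

/-- relative density of the row half `a` -/
noncomputable def row (a : Bool) (e : E) : ℝ := (S.q a true e + S.q a false e) / 2

/-- relative density of the column half `b` -/
noncomputable def col (b : Bool) (e : E) : ℝ := (S.q true b e + S.q false b e) / 2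

/-- relative density after zooming the row (`some a`) and the column (`some b`) or not (`none`) -/
noncomputable def fac : Option Bool → Option Bool → E → ℝ
  | none, none, _ => 1
  | some a, none, e => S.row a e
  | none, some b, e => S.col b e
  | some a, some b, e => S.q a b e

/-- new relative load of the row `u` -/
noncomputable def ldR (R : E → ℝ) (u : U) : ℝ := 1 + ∑ e with S.s e = u, S.x e * (R e - 1)

/-- new relative load of the column `w` -/
noncomputable def ldC (T : E → ℝ) (w : W) : ℝ := 1 + ∑ e with S.t e = w, S.y e * (T e - 1)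

end Sys

/-- the price of a zoom -/
noncomputable def pen (l : ℝ) : Option Bool → ℝ
  | none => 1
  | some _ => 1 + l

namespace Sys

variable {U W E : Type} [Fintype U] [Fintype W] [Fintype E] [DecidableEq U] [DecidableEq W]
  (S : Sys U W E)

/-- criticality: no zoom with any certificate lowers the potential -/
def Crit (p : ℕ) (l : ℝ) : Prop :=
  ∀ (σ : U → Option Bool) (τ : W → Option Bool) (R T : E → ℝ), (∀ e, 0 < R e) → (∀ e, 0 < T e) →
    (∀ e, S.fac (σ (S.s e)) (τ (S.t e)) e ≤ R e * T e) →
    ∑ u, S.m u + ∑ w, S.n w ≤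
      ∑ u, S.m u * (S.ldR R u * pen l (σ u)) ^ p + ∑ w, S.n w * (S.ldC T w * pen l (τ w)) ^ p

/-- exchange of rows and columns -/
def swap : Sys W U E where
  s := S.t
  t := S.s
  inj := fun e e' h h' => S.inj e e' h' h
  x := S.y
  y := S.x
  x_pos := S.y_pos
  y_pos := S.x_pos
  x_sum := S.y_sum
  y_sum := S.x_sum
  m := S.n
  n := S.m
  m_pos := S.n_pos
  n_pos := S.m_pos
  θ := S.θ
  θ_nn := S.θ_nn
  θ_le := S.θ_le
  θ_row := S.θ_col
  θ_col := S.θ_row
  q := fun a b => S.q b a
  q_pos := fun a b => S.q_pos b a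
  q_sum := fun e => by linarith [S.q_sum e]

theorem swap_row (a : Bool) (e : E) : S.swap.row a e = S.col a e := rfl

theorem swap_col (a : Bool) (e : E) : S.swap.col a e = S.row a e := rfl

theorem swap_fac (a b : Option Bool) (e : E) : S.swap.fac a b e = S.fac b a e := by
  cases a <;> cases b <;> rfl

theorem crit_swap {p : ℕ} {l : ℝ} (h : S.Crit p l) : S.swap.Crit p l := by
  intro σ τ R T hR hT hRT
  have := h τ σ T R hT hR (fun e => by
    have h1 := hRT e
    rw [swap_fac] at h1
    rw [mul_comm]
    exact h1)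
  rw [add_comm (∑ u, S.swap.m u), add_comm (∑ u, S.swap.m u * _)]
  exact this

theorem row_pos (a : Bool) (e : E) : 0 < S.row a e := by
  unfold row
  have := S.q_pos a true e
  have := S.q_pos a false e
  linarith

theorem col_pos (b : Bool) (e : E) : 0 < S.col b e := S.swap.row_pos b e

theorem row_add (a : Bool) (e : E) : S.row a e + S.row (!a) e = 2 := by
  have := S.q_sum e
  cases a <;> simp only [row, Bool.not_true, Bool.not_false] <;> linarith

theorem col_add (b : Bool) (e : E) : S.col b e + S.col (!b) e = 2 := S.swap.row_add b e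

theorem row_lt_two (a : Bool) (e : E) : S.row a e < 2 := by
  have h1 := S.row_add a e
  have h2 := S.row_pos (!a) e
  linarith

theorem col_lt_two (b : Bool) (e : E) : S.col b e < 2 := S.swap.row_lt_two b e

/-- the two quadrants of a column half -/
theorem q_add_col (a b : Bool) (e : E) : S.q a b e + S.q (!a) b e = 2 * S.col b e := by
  cases a <;> simp only [col, Bool.not_true, Bool.not_false] <;> ring

theorem q_add_row (a b : Bool) (e : E) : S.q a b e + S.q a (!b) e = 2 * S.row a e :=
  S.swap.q_add_col b a e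

theorem fac_pos (a b : Option Bool) (e : E) : 0 < S.fac a b e := by
  cases a with
  | none => cases b with
    | none => exact one_pos
    | some b => exact S.col_pos b e
  | some a => cases b with
    | none => exact S.row_pos a e
    | some b => exact S.q_pos a b e

theorem ldR_eq (R : E → ℝ) (u : U) :
    S.ldR R u = (1 - ∑ e with S.s e = u, S.x e) + ∑ e with S.s e = u, S.x e * R e := by
  unfold ldR
  have : ∑ e with S.s e = u, S.x e * (R e - 1) =
      ∑ e with S.s e = u, S.x e * R e - ∑ e with S.s e = u, S.x e := by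
    rw [← sum_sub_distrib]
    exact sum_congr rfl fun e _ => by ring
  rw [this]
  ring

theorem ldR_nonneg (R : E → ℝ) (hR : ∀ e, 0 < R e) (u : U) : 0 ≤ S.ldR R u := by
  rw [ldR_eq]
  have h1 := S.x_sum u
  have h2 : 0 ≤ ∑ e with S.s e = u, S.x e * R e :=
    sum_nonneg fun e _ => (mul_pos (S.x_pos e) (hR e)).le
  linarith

theorem ldC_nonneg (T : E → ℝ) (hT : ∀ e, 0 < T e) (w : W) : 0 ≤ S.ldC T w :=
  S.swap.ldR_nonneg T hT w

/-- relative density of the row half `b` inside the column half `b` -/
noncomputable def cc (b : Bool) (e : E) : ℝ := S.q b b e / S.col b e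

theorem cc_pos (b : Bool) (e : E) : 0 < S.cc b e := div_pos (S.q_pos b b e) (S.col_pos b e)

theorem col_mul_cc (b : Bool) (e : E) : S.col b e * S.cc b e = S.q b b e := by
  unfold cc
  rw [mul_div_cancel₀ _ (S.col_pos b e).ne']

theorem q_not (b : Bool) (e : E) : S.q (!b) b e = S.col b e * (2 - S.cc b e) := by
  have h1 := S.q_add_col b b e
  rw [mul_sub, col_mul_cc]
  linarith

theorem cc_lt_two (b : Bool) (e : E) : S.cc b e < 2 := by
  have h1 := S.q_pos (!b) b e
  rw [q_not] at h1
  have h2 := (pos_iff_pos_of_mul_pos h1).1 (S.col_pos b e)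
  linarith

open Classical in
/-- the maximal transfer -/
noncomputable def cap (b : Bool) (e : E) : ℝ :=
  if S.row b e < S.cc b e ∧ 1 / 40 ≤ S.row b e then
    S.col b e * (S.cc b e - S.row b e) / S.row b e else 0

theorem cap_nonneg (b : Bool) (e : E) : 0 ≤ S.cap b e := by
  unfold cap
  split_ifs with h1
  · have := S.col_pos b e
    have := S.row_pos b e
    have : 0 < S.cc b e - S.row b e := by linarith [h1.1]
    positivity
  · exact le_rfl

/-- relief of the row by the transfer `χ` -/
noncomputable def rel (b : Bool) (χ : E → ℝ) (e : E) : ℝ :=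
  S.cc b e * χ e / (S.col b e + χ e)

/-- remaining cost of a row -/
noncomputable def kR (b : Bool) (χ : E → ℝ) (u : U) : ℝ :=
  ∑ e with S.s e = u, (1 - S.θ e) * S.x e * (S.cc b e - S.row b e) -
    ∑ e with S.s e = u, (1 - S.θ e) * S.x e * S.rel b χ e

/-- cost transferred to a column -/
noncomputable def kC (χ : E → ℝ) (w : W) : ℝ :=
  ∑ e with S.t e = w, (1 - S.θ e) * S.y e * χ e

/-- the columns zoomed by the competitor -/
def zc (b : Bool) (p : ℕ) (χ : E → ℝ) (k : ℝ) (w : W) : Prop :=
  k ≤ S.kC χ w ∨ ∃ e, S.t e = w ∧ k ≤ S.kR b χ (S.s e) ∧ S.row b e < 1 / 40 ∧ 1 < p * S.y e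

/-- exceptional edges -/
def exc (b : Bool) (e : E) : Prop :=
  S.θ e ≠ 0 ∧ S.q b b e < S.row b e * S.col b e ∧ S.y e < S.x e

open Classical in
/-- row certificate of the competitor -/
noncomputable def cR (b : Bool) (p : ℕ) (χ : E → ℝ) (k : ℝ) (e : E) : ℝ :=
  if k ≤ S.kR b χ (S.s e) then
    if S.zc b p χ k (S.t e) then
      if k ≤ S.kC χ (S.t e) ∧ 0 < S.cap b e then 2 - S.cc b e + S.rel b χ e / 4
      else if S.exc b e then S.row (!b) e else 2 - S.cc b e
    else S.row (!b) e
  else 1

open Classical in
/-- column certificate of the competitor -/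
noncomputable def cT (b : Bool) (p : ℕ) (χ : E → ℝ) (k : ℝ) (e : E) : ℝ :=
  if S.zc b p χ k (S.t e) then
    if k ≤ S.kR b χ (S.s e) then
      if k ≤ S.kC χ (S.t e) ∧ 0 < S.cap b e then
        S.col b e * (2 - S.cc b e) / (2 - S.cc b e + S.rel b χ e / 4)
      else if S.exc b e then S.col b e + (S.row b e * S.col b e - S.q b b e) / S.row (!b) e
      else S.col b e
    else S.col b e
  else 1

end Sys

end Pool.Agent.Helper53.OC
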