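import Mathlib
import Pool.Agent.Helper53.OC.Defs
import Pool.Agent.Helper96.OR.Defs

/-!
Ordered Ramsey numbers of the cube (MP_09b4c2): states of the window argument.
-/

namespace Pool.Agent.Helper53.OC

open Finset
open Pool.Agent.Helper96.OR (Idx adj rank)

/-- equal or adjacent binary words -/
def isE (k : ℕ) (u w : Idx 2 k) : Prop := u = w ∨ adj (fun a b : Fin 2 => a ≠ b) k u w

/-- the edges of the pattern -/
def Ed (k : ℕ) : Type := {e : Idx 2 k × Idx 2 k // isE k e.1 e.2}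

noncomputable instance instFintypeEd (k : ℕ) : Fintype (Ed k) := by
  classical
  exact Subtype.fintype _

noncomputable instance instDecEqEd (k : ℕ) : DecidableEq (Ed k) := Classical.decEq _

/-- the diagonal edge -/
def dg {k : ℕ} (u : Idx 2 k) : Ed k := ⟨(u, u), Or.inl rfl⟩

/-- the edge of level `k` below an edge of level `k + 1` -/
def down {k : ℕ} (e : Ed (k + 1)) : Ed k :=
  ⟨(e.1.1.1, e.1.2.1), by
    rcases e.2 with h | h | h
    · exact Or.inl (congrArg Prod.fst h)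
    · exact Or.inl h.1
    · exact Or.inr h.1⟩

/-- the edge of level `k + 1` over an edge with equal last letters -/
def lift {k : ℕ} (i : Fin 2) (e : Ed k) : Ed (k + 1) :=
  ⟨((e.1.1, i), (e.1.2, i)), by
    rcases e.2 with h | h
    · exact Or.inl (by rw [h])
    · exact Or.inr (Or.inr ⟨h, rfl⟩)⟩

/-- the cross edge from `(u, i)` to `(u, j)` -/
def crs {k : ℕ} (u : Idx 2 k) (i j : Fin 2) (h : i ≠ j) : Ed (k + 1) :=
  ⟨((u, i), (u, j)), Or.inr (Or.inl ⟨rfl, h⟩)⟩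

/-- last letter as a side: `0` is left -/
def bit (i : Fin 2) : Bool := decide (i = 0)

/-- bilinear form of a matrix -/
noncomputable def dn {N : ℕ} (f : Fin N → Fin N → ℝ) (P Q : Fin N → ℝ) : ℝ :=
  ∑ x, ∑ y, P x * Q y * f x y

/-- left half of a probability vector -/
noncomputable def halfL {N : ℕ} (P : Fin N → ℝ) (x : Fin N) : ℝ :=
  2 * (min (∑ y with y ≤ x, P y) (1 / 2) - min (∑ y with y < x, P y) (1 / 2))

/-- left (`true`) or right (`false`) half of a probability vector -/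
noncomputable def half {N : ℕ} (b : Bool) (P : Fin N → ℝ) (x : Fin N) : ℝ :=
  if b then halfL P x else 2 * P x - halfL P x

/-- the facts on halves -/
def HalfFacts (N : ℕ) : Prop := ∀ P : Fin N → ℝ, (∀ x, 0 ≤ P x) → ∑ x, P x = 1 →
    (∀ b x, 0 ≤ half b P x) ∧ (∀ b, ∑ x, half b P x = 1) ∧ (∀ b x, half b P x ≤ 2 * P x) ∧
    (∀ x, half true P x + half false P x = 2 * P x) ∧
    (∀ x x', x' < x → half true P x * half false P x' = 0)

/-- a state: windows, numbers of halvings and certificates -/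
structure St (N k : ℕ) where
  P : Idx 2 k → Fin N → ℝ
  Q : Idx 2 k → Fin N → ℝ
  β : Idx 2 k → ℕ
  γ : Idx 2 k → ℕ
  r : Ed k → ℝ
  s : Ed k → ℝ

/-- weights of the edges -/
noncomputable def mu (n k : ℕ) (e : Ed k) : ℝ :=
  if e.1.1 = e.1.2 then 11 + 10 * ((n : ℝ) - k) else 1

/-- part of the edge used by the cross edges -/
noncomputable def th (n k : ℕ) (e : Ed k) : ℝ :=
  if e.1.1 = e.1.2 then 10 / (11 + 10 * ((n : ℝ) - k)) else 0

/-- load of a row -/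
noncomputable def St.X {N k : ℕ} (S : St N k) (φ : ℝ) (n : ℕ) (u : Idx 2 k) : ℝ :=
  φ + ∑ e : Ed k with e.1.1 = u, mu n k e * S.r e

/-- load of a column -/
noncomputable def St.Y {N k : ℕ} (S : St N k) (φ : ℝ) (n : ℕ) (w : Idx 2 k) : ℝ :=
  φ + ∑ e : Ed k with e.1.2 = w, mu n k e * S.s e

/-- a valid state -/
structure Valid {N k : ℕ} (f : Fin N → Fin N → ℝ) (S : St N k) : Prop where
  P_nn : ∀ u x, 0 ≤ S.P u x
  Q_nn : ∀ w y, 0 ≤ S.Q w y
  P_sum : ∀ u, ∑ x, S.P u x = 1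
  Q_sum : ∀ w, ∑ y, S.Q w y = 1
  P_ord : ∀ u u' x x', rank k u < rank k u' → x' < x → S.P u x * S.P u' x' = 0
  Q_ord : ∀ w w' y y', rank k w < rank k w' → y' < y → S.Q w y * S.Q w' y' = 0
  P_cap : ∀ u x, S.P u x * N ≤ 2 ^ S.β u
  Q_cap : ∀ w y, S.Q w y * N ≤ 2 ^ S.γ w
  r_nn : ∀ e, 0 ≤ S.r e
  s_nn : ∀ e, 0 ≤ S.s e
  cert : ∀ e : Ed k, dn f (S.P e.1.1) (S.Q e.1.2) ≤ S.r e * S.s e

/-- the potential -/
noncomputable def St.pot {N k : ℕ} (S : St N k) (φ : ℝ) (n p : ℕ) : ℝ :=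
  ∑ u, (S.X φ n u * (1 + 1 / (1000 * p)) ^ S.β u) ^ p +
    ∑ w, (S.Y φ n w * (1 + 1 / (1000 * p)) ^ S.γ w) ^ p

/-- the one-level system of a state -/
structure IsSys {N k : ℕ} (f : Fin N → Fin N → ℝ) (φ : ℝ) (n p : ℕ) (S : St N k)
    (Z : Sys (Idx 2 k) (Idx 2 k) (Ed k)) : Prop where
  hs : ∀ e, Z.s e = e.1.1
  ht : ∀ e, Z.t e = e.1.2
  hx : ∀ e, Z.x e = mu n k e * S.r e / S.X φ n e.1.1
  hy : ∀ e, Z.y e = mu n k e * S.s e / S.Y φ n e.1.2
  hm : ∀ u, Z.m u = (S.X φ n u * (1 + 1 / (1000 * p)) ^ S.β u) ^ p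
  hn : ∀ w, Z.n w = (S.Y φ n w * (1 + 1 / (1000 * p)) ^ S.γ w) ^ p
  hθ : ∀ e, Z.θ e = th n k e
  hq : ∀ a b e, Z.q a b e =
    dn f (half a (S.P e.1.1)) (half b (S.Q e.1.2)) / dn f (S.P e.1.1) (S.Q e.1.2)

/-- the next state -/
noncomputable def St.next {N k : ℕ} (S : St N k) (φ : ℝ) (n p : ℕ)
    (Z : Sys (Idx 2 k) (Idx 2 k) (Ed k)) (R T : Bool → Ed k → ℝ) : St N (k + 1) where
  P := fun u => half (bit u.2) (S.P u.1)
  Q := fun w => half (bit w.2) (S.Q w.1)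
  β := fun u => S.β u.1 + 1
  γ := fun w => S.γ w.1 + 1
  r := fun e => if e.1.1.2 = e.1.2.2 then S.r (down e) * R (bit e.1.1.2) (down e)
    else 10 * S.r (down e) * Z.row (bit e.1.1.2) (down e) + S.X φ n e.1.1.1 / p
  s := fun e => if e.1.1.2 = e.1.2.2 then S.s (down e) * T (bit e.1.2.2) (down e)
    else 10 * S.s (down e) * Z.col (bit e.1.2.2) (down e) + S.Y φ n e.1.2.1 / p

/-- the conclusion of the one-level lemma -/
def SplitOK {U W E : Type} [Fintype U] [Fintype W] [Fintype E] [DecidableEq U] [DecidableEq W]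
    (Z : Sys U W E) (p : ℕ) (R T : Bool → E → ℝ) : Prop :=
  (∀ b e, 0 < R b e) ∧ (∀ b e, 0 < T b e) ∧ (∀ b e, Z.q b b e ≤ R b e * T b e) ∧
  (∀ b u, ∑ e with Z.s e = u, Z.x e * ((1 - Z.θ e) * R b e + Z.θ e * Z.row b e - 1) ≤ 2001 / p) ∧
  (∀ b w, ∑ e with Z.t e = w, Z.y e * ((1 - Z.θ e) * T b e + Z.θ e * Z.col b e - 1) ≤ 2001 / p) ∧
  ∀ b e, 0 < Z.θ e → Z.q b (!b) e ≤ 100 * (Z.row b e + 1 / (p * (Z.θ e * Z.x e))) *
      (Z.col (!b) e + 1 / (p * (Z.θ e * Z.y e)))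

end Pool.Agent.Helper53.OC
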