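import Mathlib
import Pool.Agent.Helper53.OC.DefsB
import Pool.Agent.Helper96.OR.Final

/-!
Module B9b of the ordered cube bound (MP_09b4c2): from the pattern theorem to the copy of the cube.
-/

namespace Pool.Agent.Helper53.OC

open Finset
open Pool.Agent.Helper96.OR (Idx adj rank)

/-- adjacency is monotone in the letter relation -/
theorem b9b_adj_mono {q : ℕ} (h h' : Fin q → Fin q → Prop) (hh : ∀ y y', h y y' → h' y y')
    (k : ℕ) (u v : Idx q k) (huv : adj h k u v) : adj h' k u v := by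
  induction k with
  | zero => exact huv
  | succ k ih =>
    rcases huv with ⟨h1, h2⟩ | ⟨h1, h2⟩
    · exact Or.inl ⟨h1, hh _ _ h2⟩
    · exact Or.inr ⟨ih _ _ h1, h2⟩

theorem main_param (C K n M x0 y0 d : ℕ) (hK : 0 < K)
    (hD : ∀ N : ℕ, 2 ^ (C * n) ≤ N → ∀ b : ℕ → ℕ → ℝ, (∀ x y, b x y = 0 ∨ b x y = 1) →
      ∀ B C' : Finset ℕ, B.card = N → C'.card = N →
      Pool.Agent.Helper96.OR.dens b B C' * (K * (n : ℝ) ^ 2) ≤ 1 →
      ∃ r c : Idx 2 n → ℕ, (∀ u, r u ∈ B) ∧ (∀ w, c w ∈ C') ∧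
      (∀ u u', rank n u < rank n u' → r u < r u') ∧
      (∀ w w', rank n w < rank n w' → c w < c w') ∧
      ∀ u w, (u = w ∨ adj (fun a b : Fin 2 => a ≠ b) n u w) → b (r u) (c w) = 0)
    (hn : 1 ≤ n) (hd : d ≤ n + 1) (hM : M = 2 ^ (C * n)) (hx0 : x0 = (n + 2) * M)
    (hy0 : y0 = (K * n ^ 2) ^ (n + 1) * M) :
    ∃ σ : Fin (2 ^ d) ≃ (Fin d → Bool), ∀ N : ℕ, 2 ^ n * (x0 + y0) ≤ N →
      ∀ f : Fin N → Fin N → Bool, ∃ g : Fin (2 ^ d) → Fin N, StrictMono g ∧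
        ∃ b : Bool, ∀ i j : Fin (2 ^ d), i < j → hammingDist (σ i) (σ j) = 1 →
          f (g i) (g j) = b := by
  classical
  obtain ⟨h, φ, hh, hi, hl, hφ, hφ2⟩ : ∃ (h : Fin 2 → Fin 2 → Prop)
      (φ : (Fin d → Bool) → Bool × Idx 2 n),
      (∀ y y', h y y' → h y' y) ∧ (∀ y, ¬ h y y) ∧ (∀ y, {y' | h y y'}.ncard ≤ 1) ∧
      Function.Injective φ ∧
      ∀ x x', hammingDist x x' = 1 → (φ x).1 ≠ (φ x').1 ∧
        ((φ x).2 = (φ x').2 ∨ adj h n (φ x).2 (φ x').2) :=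
    Pool.Agent.Helper96.OR.cube_code 1 n d (by omega)
  obtain ⟨σ, hσ⟩ := Pool.Agent.Helper96.OR.copy_of_pattern 2 n d h φ hφ hφ2
  refine ⟨σ, ?_⟩
  intro N hN f
  have hrl : ∀ v : Idx 2 n, rank n v < 2 ^ n := Pool.Agent.Helper96.OR.rank_lt 2 n
  have hM0 : 0 < M := by rw [hM]; positivity
  have hG0 : 0 < K * n ^ 2 := by positivity
  have hx0' : 0 < x0 := by rw [hx0]; positivity
  have hy0' : 0 < y0 := by rw [hy0]; positivity
  obtain ⟨m, hm⟩ : ∃ m, m = 2 ^ n * x0 := ⟨_, rfl⟩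
  have hmN : m + 2 ^ n * y0 ≤ N := by rw [hm, ← mul_add]; exact hN
  let b : ℕ → ℕ → ℝ := fun r c => if ∃ (hr : r < N) (hc : c < N), f ⟨r, hr⟩ ⟨c, hc⟩ = true
    then 1 else 0
  have hb : ∀ r c, b r c = 0 ∨ b r c = 1 := fun r c => by
    simp only [b]
    split_ifs
    · exact Or.inr rfl
    · exact Or.inl rfl
  have hb1 : ∀ r c, b r c = 1 → ∀ (hr : r < N) (hc : c < N), f ⟨r, hr⟩ ⟨c, hc⟩ = true := by
    intro r c h1 hr hc
    by_contra h2
    have : b r c = 0 := if_neg fun ⟨_, _, h3⟩ => h2 h3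
    rw [this] at h1
    exact zero_ne_one h1
  have hb0 : ∀ r c, b r c = 0 → ∀ (hr : r < N) (hc : c < N), f ⟨r, hr⟩ ⟨c, hc⟩ = false := by
    intro r c h1 hr hc
    by_contra h2
    rw [Bool.not_eq_false] at h2
    have : b r c = 1 := if_pos ⟨hr, hc, h2⟩
    rw [this] at h1
    exact one_ne_zero h1
  have hbn : ∀ r c, 0 ≤ b r c := fun r c => by
    rcases hb r c with h | h <;> rw [h]
    exact zero_le_one
  let X : Idx 2 n → Finset ℕ := fun v => Ico (rank n v * x0) ((rank n v + 1) * x0)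
  let Y : Idx 2 n → Finset ℕ := fun v => Ico (m + rank n v * y0) (m + (rank n v + 1) * y0)
  have hX : ∀ v, (X v).card = x0 := fun v => by
    simp only [X]
    rw [Nat.card_Ico, add_mul, one_mul]
    omega
  have hY : ∀ v, (Y v).card = y0 := fun v => by
    simp only [Y]
    rw [Nat.card_Ico, add_mul, one_mul]
    omega
  have hXm : ∀ v, ∀ x ∈ X v, x < m := by
    intro v x hx
    have h1 := (mem_Ico.1 hx).2
    have h2 : (rank n v + 1) * x0 ≤ 2 ^ n * x0 := Nat.mul_le_mul_right _ (hrl v)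
    omega
  have hYm : ∀ v, ∀ x ∈ Y v, m ≤ x := by
    intro v x hx
    have h1 := (mem_Ico.1 hx).1
    omega
  have hYN : ∀ v, ∀ x ∈ Y v, x < N := by
    intro v x hx
    have h1 := (mem_Ico.1 hx).2
    have h2 : (rank n v + 1) * y0 ≤ 2 ^ n * y0 := Nat.mul_le_mul_right _ (hrl v)
    omega
  have hdeg : ∀ v, {w | v = w ∨ adj h n v w}.ncard ≤ n + 1 := by
    intro v
    have h1 : {w | v = w ∨ adj h n v w} ⊆ insert v {w | adj h n v w} := by
      rintro w (h2 | h2)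
      · exact Or.inl h2.symm
      · exact Or.inr h2
    have h2 := Pool.Agent.Helper96.OR.adj_deg h 1 hl n v
    have h3 := (Set.ncard_le_ncard h1 (Set.toFinite _)).trans (Set.ncard_insert_le _ _)
    omega
  have hdeg' : ∀ w, {v | v = w ∨ adj h n v w}.ncard ≤ n + 1 := by
    intro w
    refine le_trans (Set.ncard_le_ncard ?_ (Set.toFinite _)) (hdeg w)
    rintro v (h2 | h2)
    · exact Or.inl h2.symm
    · exact Or.inr (Pool.Agent.Helper96.OR.adj_symm h hh n v w h2)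
  have hne : ∀ v w : Idx 2 n, adj h n v w → adj (fun a b : Fin 2 => a ≠ b) n v w :=
    b9b_adj_mono h _ (fun y y' hy => by
      rintro rfl
      exact hi y hy) n
  obtain ⟨G, hG⟩ : ∃ G : ℕ, G = K * n ^ 2 := ⟨_, rfl⟩
  rw [← hG] at hG0 hy0
  have hGr : (0 : ℝ) < G := by exact_mod_cast hG0
  have hGc : (G : ℝ) = K * (n : ℝ) ^ 2 := by rw [hG]; push_cast; ring
  have hδ0 : (0 : ℝ) < 1 / (G : ℝ) := by positivity
  have hδ1 : (1 : ℝ) / (G : ℝ) ≤ 1 := by
    rw [div_le_one hGr]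
    exact_mod_cast hG0
  rcases Pool.Agent.Helper96.OR.grr (fun v w => v = w ∨ adj h n v w) (n + 1) hdeg hdeg' b hb X Y
    x0 y0 hX hY hx0' hy0' (1 / (G : ℝ)) hδ0 hδ1 with
    ⟨r, c, hr, hc, hrc⟩ | ⟨v0, w0, B, hB, C', hC, hxB, hyC, hB0, hC0, hdn⟩
  · have hXo : ∀ v v', rank n v < rank n v' → ∀ x ∈ X v, ∀ x' ∈ X v', x < x' := by
      intro v v' hv x hx x' hx'
      have h1 := (mem_Ico.1 hx).2
      have h2 := (mem_Ico.1 hx').1
      have h3 : (rank n v + 1) * x0 ≤ rank n v' * x0 := Nat.mul_le_mul_right _ hv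
      omega
    have hYo : ∀ v v', rank n v < rank n v' → ∀ x ∈ Y v, ∀ x' ∈ Y v', x < x' := by
      intro v v' hv x hx x' hx'
      have h1 := (mem_Ico.1 hx).2
      have h2 := (mem_Ico.1 hx').1
      have h3 : (rank n v + 1) * y0 ≤ rank n v' * y0 := Nat.mul_le_mul_right _ hv
      omega
    obtain ⟨g, hg, hg2⟩ := hσ N m f true r c (fun v => hXm v _ (hr v)) (fun v => hYm v _ (hc v))
      (fun v => hYN v _ (hc v)) (fun v v' hv => hXo v v' hv _ (hr v) _ (hr v'))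
      (fun v v' hv => hYo v v' hv _ (hc v) _ (hc v'))
      (fun v w hvw hr' hc' => hb1 _ _ (hrc v w hvw) hr' hc')
    exact ⟨g, hg, true, hg2⟩
  · have h1 : M ≤ B.card := by
      have h2 : x0 ≤ (n + 2) * B.card := by
        have h3 : (x0 : ℝ) ≤ ((n + 2) * B.card : ℕ) := by
          refine hxB.trans (le_of_eq ?_)
          push_cast
          ring
        exact_mod_cast h3
      rw [hx0] at h2
      exact Nat.le_of_mul_le_mul_left h2 (by omega)
    have h2 : M ≤ C'.card := by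
      have h3 : (1 / (G : ℝ)) ^ (n + 1) * y0 = (M : ℝ) := by
        rw [hy0]
        push_cast
        rw [div_pow, one_pow]
        have : (0 : ℝ) < (G : ℝ) ^ (n + 1) := by positivity
        field_simp
      rw [h3] at hyC
      exact_mod_cast hyC
    obtain ⟨B', hB', C'', hC', hBc, hCc, hle⟩ := Pool.Agent.Helper96.OR.exact_size b hbn B C' M M
      hM0 hM0 h1 h2
    obtain ⟨r, c, hr, hc, hro, hco, hrc⟩ := hD M hM.ge b hb B' C'' hBc hCc (by
      have h3 : Pool.Agent.Helper96.OR.dens b B' C'' ≤ 1 / (G : ℝ) := hle.trans hdn.le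
      rw [← hGc]
      calc Pool.Agent.Helper96.OR.dens b B' C'' * (G : ℝ) ≤ 1 / (G : ℝ) * G := by gcongr
        _ = 1 := by field_simp)
    have hrX : ∀ v, r v ∈ X v0 := fun v => hB (hB' (hr v))
    have hcY : ∀ v, c v ∈ Y w0 := fun v => hC (hC' (hc v))
    obtain ⟨g, hg, hg2⟩ := hσ N m f false r c (fun v => hXm v0 _ (hrX v))
      (fun v => hYm w0 _ (hcY v)) (fun v => hYN w0 _ (hcY v)) hro hco
      (fun v w hvw hr' hc' => hb0 _ _ (hrc v w (hvw.imp id (hne v w))) hr' hc')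
    exact ⟨g, hg, false, hg2⟩

end Pool.Agent.Helper53.OC
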