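import Mathlib
import Pool.Agent.Helper53.OC.DefsB

/-!
Ordered Ramsey numbers of the cube (MP_09b4c2): module B1 (halves of probability vectors).
-/

namespace Pool.Agent.Helper53.OC

open Finset
open Pool.Agent.Helper96.OR (Idx adj rank)

/-- sum over the first `m` indices -/
noncomputable def B1_G {N : ℕ} (P : Fin N → ℝ) (m : ℕ) : ℝ := ∑ y with y.val < m, P y

theorem B1_lt {N : ℕ} (P : Fin N → ℝ) (x : Fin N) : ∑ y with y < x, P y = B1_G P x.val := rfl

theorem B1_le {N : ℕ} (P : Fin N → ℝ) (x : Fin N) : ∑ y with y ≤ x, P y = B1_G P (x.val + 1) := by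
  unfold B1_G
  refine Finset.sum_congr ?_ fun _ _ => rfl
  ext y
  simp only [Finset.mem_filter, Finset.mem_univ, true_and]
  rw [Fin.le_def, Nat.lt_succ_iff]

theorem B1_succ {N : ℕ} (P : Fin N → ℝ) (x : Fin N) :
    B1_G P (x.val + 1) = B1_G P x.val + P x := by
  unfold B1_G
  have : (univ.filter fun y : Fin N => y.val < x.val + 1) =
      insert x (univ.filter fun y : Fin N => y.val < x.val) := by
    ext y
    simp only [Finset.mem_filter, Finset.mem_univ, true_and, Finset.mem_insert]
    rw [Nat.lt_succ_iff, Nat.le_iff_lt_or_eq, or_comm, Fin.ext_iff]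
  rw [this, Finset.sum_insert (by simp), add_comm]

theorem B1_mono {N : ℕ} (P : Fin N → ℝ) (hP : ∀ x, 0 ≤ P x) {m m' : ℕ} (h : m ≤ m') :
    B1_G P m ≤ B1_G P m' := by
  unfold B1_G
  refine Finset.sum_le_sum_of_subset_of_nonneg ?_ fun y _ _ => hP y
  intro y hy
  simp only [Finset.mem_filter, Finset.mem_univ, true_and] at hy ⊢
  omega

theorem B1_halfL {N : ℕ} (P : Fin N → ℝ) (x : Fin N) :
    halfL P x = 2 * (min (B1_G P (x.val + 1)) (1 / 2) - min (B1_G P x.val) (1 / 2)) := by
  unfold halfL
  rw [B1_lt, B1_le]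

theorem B1_bounds {N : ℕ} (P : Fin N → ℝ) (hP : ∀ x, 0 ≤ P x) (x : Fin N) :
    0 ≤ halfL P x ∧ halfL P x ≤ 2 * P x := by
  rw [B1_halfL, B1_succ]
  have h := hP x
  constructor
  · have : min (B1_G P x.val) (1 / 2) ≤ min (B1_G P x.val + P x) (1 / 2) :=
      min_le_min (by linarith) le_rfl
    linarith
  · have : min (B1_G P x.val + P x) (1 / 2) ≤ min (B1_G P x.val) (1 / 2) + P x := by
      rcases min_choice (B1_G P x.val) (1 / 2) with h1 | h1
      · rw [h1]; exact min_le_left _ _
      · rw [h1]
        have := min_le_right (B1_G P x.val + P x) (1 / 2)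
        linarith
    linarith

theorem half_facts (N : ℕ) : HalfFacts N := by
  intro P hP hsum
  have hb := B1_bounds P hP
  have hadd : ∀ x, half true P x + half false P x = 2 * P x := by
    intro x
    simp only [half, if_true, Bool.false_eq_true, if_false]
    ring
  have hnn : ∀ b x, 0 ≤ half b P x := by
    intro b x
    obtain ⟨h1, h2⟩ := hb x
    cases b
    · simp only [half, Bool.false_eq_true, if_false]; linarith
    · simp only [half, if_true]; exact h1
  have hle : ∀ b x, half b P x ≤ 2 * P x := by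
    intro b x
    obtain ⟨h1, h2⟩ := hb x
    cases b
    · simp only [half, Bool.false_eq_true, if_false]; linarith
    · simp only [half, if_true]; exact h2
  have hN : B1_G P N = 1 := by
    rw [← hsum]
    unfold B1_G
    refine Finset.sum_congr ?_ fun _ _ => rfl
    ext y
    simp
  have h0 : B1_G P 0 = 0 := by
    unfold B1_G
    simp
  have hL : ∑ x, halfL P x = 1 := by
    simp_rw [B1_halfL]
    rw [← Finset.mul_sum, Fin.sum_univ_eq_sum_range
      (fun i => min (B1_G P (i + 1)) (1 / 2) - min (B1_G P i) (1 / 2)) N,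
      Finset.sum_range_sub (fun i => min (B1_G P i) (1 / 2)), hN, h0]
    norm_num
  have hs : ∀ b, ∑ x, half b P x = 1 := by
    intro b
    cases b
    · simp only [half, Bool.false_eq_true, if_false]
      rw [Finset.sum_sub_distrib, hL, ← Finset.mul_sum, hsum]
      norm_num
    · simp only [half, if_true]
      exact hL
  refine ⟨hnn, hs, hle, hadd, ?_⟩
  intro x x' hx
  by_cases h : 1 / 2 ≤ B1_G P x.val
  · have h1 : half true P x = 0 := by
      simp only [half, if_true]
      rw [B1_halfL, min_eq_right h, min_eq_right (h.trans (B1_mono P hP (Nat.le_succ _)))]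
      ring
    rw [h1, zero_mul]
  · push Not at h
    have h2 : B1_G P (x'.val + 1) < 1 / 2 := by
      refine lt_of_le_of_lt (B1_mono P hP ?_) h
      exact hx
    have h3 : B1_G P x'.val < 1 / 2 := lt_of_le_of_lt (B1_mono P hP (Nat.le_succ _)) h2
    have h4 : half false P x' = 0 := by
      simp only [half, Bool.false_eq_true, if_false]
      rw [B1_halfL, min_eq_left h2.le, min_eq_left h3.le, B1_succ]
      ring
    rw [h4, mul_zero]

end Pool.Agent.Helper53.OC
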