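import Mathlib
import Pool.Agent.Helper53.OC.DefsB

/-!
Ordered Ramsey numbers of the cube (MP_09b4c2): module B2 (existence of a minimiser).
-/

namespace Pool.Agent.Helper53.OC

open Finset
open Pool.Agent.Helper96.OR (Idx adj rank)

/-- the space of states -/
abbrev B2_Z (N k : ℕ) : Type :=
  (Idx 2 k → Fin N → ℝ) × (Idx 2 k → Fin N → ℝ) × (Idx 2 k → ℕ) × (Idx 2 k → ℕ) ×
    (Ed k → ℝ) × (Ed k → ℝ)

/-- the state of a point -/
def B2_st {N k : ℕ} (z : B2_Z N k) : St N k := ⟨z.1, z.2.1, z.2.2.1, z.2.2.2.1, z.2.2.2.2.1, z.2.2.2.2.2⟩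

/-- the point of a state -/
def B2_pt {N k : ℕ} (S : St N k) : B2_Z N k := (S.P, S.Q, S.β, S.γ, S.r, S.s)

theorem B2_st_pt {N k : ℕ} (S : St N k) : B2_st (B2_pt S) = S := rfl

theorem B2_pow_cont {N k : ℕ} (c : ℝ) (g : B2_Z N k → ℕ) (hg : Continuous g) :
    Continuous fun z => c ^ g z :=
  (continuous_of_discreteTopology (f := fun b : ℕ => c ^ b)).comp hg

theorem B2_X_cont {N k : ℕ} (φ : ℝ) (n : ℕ) (u : Idx 2 k) :
    Continuous fun z : B2_Z N k => (B2_st z).X φ n u := by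
  unfold St.X B2_st
  dsimp only
  refine continuous_const.add (continuous_finsetSum _ fun e _ => continuous_const.mul ?_)
  exact (continuous_apply e).comp (by fun_prop)

theorem B2_Y_cont {N k : ℕ} (φ : ℝ) (n : ℕ) (w : Idx 2 k) :
    Continuous fun z : B2_Z N k => (B2_st z).Y φ n w := by
  unfold St.Y B2_st
  dsimp only
  refine continuous_const.add (continuous_finsetSum _ fun e _ => continuous_const.mul ?_)
  exact (continuous_apply e).comp (by fun_prop)

theorem B2_pot_cont {N k : ℕ} (φ : ℝ) (n p : ℕ) :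
    Continuous fun z : B2_Z N k => (B2_st z).pot φ n p := by
  unfold St.pot
  refine (continuous_finsetSum _ fun u _ => ?_).add (continuous_finsetSum _ fun w _ => ?_)
  · refine ((B2_X_cont φ n u).mul (B2_pow_cont _ _ ?_)).pow p
    exact (continuous_apply u).comp (by fun_prop)
  · refine ((B2_Y_cont φ n w).mul (B2_pow_cont _ _ ?_)).pow p
    exact (continuous_apply w).comp (by fun_prop)

theorem B2_P_cont {N k : ℕ} (u : Idx 2 k) (x : Fin N) :
    Continuous fun z : B2_Z N k => (B2_st z).P u x :=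
  (continuous_apply x).comp ((continuous_apply u).comp (by fun_prop))

theorem B2_Q_cont {N k : ℕ} (u : Idx 2 k) (x : Fin N) :
    Continuous fun z : B2_Z N k => (B2_st z).Q u x :=
  (continuous_apply x).comp ((continuous_apply u).comp (by fun_prop))

theorem B2_r_cont {N k : ℕ} (e : Ed k) :
    Continuous fun z : B2_Z N k => (B2_st z).r e :=
  (continuous_apply e).comp (by fun_prop)

theorem B2_s_cont {N k : ℕ} (e : Ed k) :
    Continuous fun z : B2_Z N k => (B2_st z).s e :=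
  (continuous_apply e).comp (by fun_prop)

theorem B2_closed {N k : ℕ} (f : Fin N → Fin N → ℝ) :
    IsClosed {z : B2_Z N k | Valid f (B2_st z)} := by
  have e : {z : B2_Z N k | Valid f (B2_st z)} =
      {z | ∀ u x, 0 ≤ (B2_st z).P u x} ∩ {z | ∀ w y, 0 ≤ (B2_st z).Q w y} ∩
      {z | ∀ u, ∑ x, (B2_st z).P u x = 1} ∩ {z | ∀ w, ∑ y, (B2_st z).Q w y = 1} ∩
      {z | ∀ u u' x x', rank k u < rank k u' → x' < x → (B2_st z).P u x * (B2_st z).P u' x' = 0} ∩
      {z | ∀ w w' y y', rank k w < rank k w' → y' < y → (B2_st z).Q w y * (B2_st z).Q w' y' = 0} ∩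
      {z | ∀ u x, (B2_st z).P u x * N ≤ 2 ^ (B2_st z).β u} ∩
      {z | ∀ w y, (B2_st z).Q w y * N ≤ 2 ^ (B2_st z).γ w} ∩
      {z | ∀ e, 0 ≤ (B2_st z).r e} ∩ {z | ∀ e, 0 ≤ (B2_st z).s e} ∩
      {z | ∀ e : Ed k, dn f ((B2_st z).P e.1.1) ((B2_st z).Q e.1.2) ≤
        (B2_st z).r e * (B2_st z).s e} := by
    ext z
    constructor
    · intro h
      exact ⟨⟨⟨⟨⟨⟨⟨⟨⟨⟨h.P_nn, h.Q_nn⟩, h.P_sum⟩, h.Q_sum⟩, h.P_ord⟩, h.Q_ord⟩, h.P_cap⟩, h.Q_cap⟩,
        h.r_nn⟩, h.s_nn⟩, h.cert⟩
    · rintro ⟨⟨⟨⟨⟨⟨⟨⟨⟨⟨h1, h2⟩, h3⟩, h4⟩, h5⟩, h6⟩, h7⟩, h8⟩, h9⟩, h10⟩, h11⟩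
      exact ⟨h1, h2, h3, h4, h5, h6, h7, h8, h9, h10, h11⟩
  rw [e]
  refine IsClosed.inter (IsClosed.inter (IsClosed.inter (IsClosed.inter (IsClosed.inter
    (IsClosed.inter (IsClosed.inter (IsClosed.inter (IsClosed.inter (IsClosed.inter
    ?_ ?_) ?_) ?_) ?_) ?_) ?_) ?_) ?_) ?_) ?_
  · simp only [Set.ofPred_forall]
    exact isClosed_iInter fun u => isClosed_iInter fun x =>
      isClosed_le continuous_const (B2_P_cont u x)
  · simp only [Set.ofPred_forall]
    exact isClosed_iInter fun u => isClosed_iInter fun x =>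
      isClosed_le continuous_const (B2_Q_cont u x)
  · simp only [Set.ofPred_forall]
    exact isClosed_iInter fun u => isClosed_eq
      (continuous_finsetSum _ fun x _ => B2_P_cont u x) continuous_const
  · simp only [Set.ofPred_forall]
    exact isClosed_iInter fun u => isClosed_eq
      (continuous_finsetSum _ fun x _ => B2_Q_cont u x) continuous_const
  · simp only [Set.ofPred_forall]
    exact isClosed_iInter fun u => isClosed_iInter fun u' => isClosed_iInter fun x =>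
      isClosed_iInter fun x' => isClosed_iInter fun _ => isClosed_iInter fun _ =>
      isClosed_eq ((B2_P_cont u x).mul (B2_P_cont u' x')) continuous_const
  · simp only [Set.ofPred_forall]
    exact isClosed_iInter fun u => isClosed_iInter fun u' => isClosed_iInter fun x =>
      isClosed_iInter fun x' => isClosed_iInter fun _ => isClosed_iInter fun _ =>
      isClosed_eq ((B2_Q_cont u x).mul (B2_Q_cont u' x')) continuous_const
  · simp only [Set.ofPred_forall]
    exact isClosed_iInter fun u => isClosed_iInter fun x =>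
      isClosed_le ((B2_P_cont u x).mul continuous_const)
        (B2_pow_cont _ _ ((continuous_apply u).comp (by fun_prop)))
  · simp only [Set.ofPred_forall]
    exact isClosed_iInter fun u => isClosed_iInter fun x =>
      isClosed_le ((B2_Q_cont u x).mul continuous_const)
        (B2_pow_cont _ _ ((continuous_apply u).comp (by fun_prop)))
  · simp only [Set.ofPred_forall]
    exact isClosed_iInter fun e => isClosed_le continuous_const (B2_r_cont e)
  · simp only [Set.ofPred_forall]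
    exact isClosed_iInter fun e => isClosed_le continuous_const (B2_s_cont e)
  · simp only [Set.ofPred_forall]
    refine isClosed_iInter fun e => isClosed_le ?_ ((B2_r_cont e).mul (B2_s_cont e))
    unfold dn
    exact continuous_finsetSum _ fun x _ => continuous_finsetSum _ fun y _ =>
      ((B2_P_cont e.1.1 x).mul (B2_Q_cont e.1.2 y)).mul continuous_const

theorem B2_mu {k n : ℕ} (hk : k ≤ n) (e : Ed k) : 1 ≤ mu n k e := by
  unfold mu
  have : (k : ℝ) ≤ n := by exact_mod_cast hk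
  split_ifs
  · linarith
  · exact le_rfl

/-- bounds from a bound on one summand of the potential -/
theorem B2_bound {φ M X l : ℝ} {b p : ℕ} (hφ : 0 < φ) (hM : 0 ≤ M) (hl : 0 < l) (hp : 1 ≤ p)
    (hX : φ ≤ X) (h : (X * (1 + l) ^ b) ^ p ≤ M) :
    X ≤ M + 1 ∧ (b : ℝ) ≤ (M + 1) / (φ * l) := by
  have hX0 : 0 < X := lt_of_lt_of_le hφ hX
  have h1 : 1 ≤ (1 + l) ^ b := one_le_pow₀ (by linarith)
  have h2 : X * (1 + l) ^ b ≤ M + 1 := by
    by_cases h3 : X * (1 + l) ^ b ≤ 1
    · linarith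
    · push Not at h3
      have h4 : X * (1 + l) ^ b ≤ (X * (1 + l) ^ b) ^ p := le_self_pow₀ h3.le (by omega)
      linarith
  have h3 : 1 + (b : ℝ) * l ≤ (1 + l) ^ b := one_add_mul_le_pow (by linarith) b
  constructor
  · exact (le_mul_of_one_le_right hX0.le h1).trans h2
  · rw [le_div_iff₀ (by positivity)]
    have h4 : φ * (1 + (b : ℝ) * l) ≤ X * (1 + l) ^ b := by
      have : 0 ≤ 1 + (b : ℝ) * l := by positivity
      exact mul_le_mul hX h3 this hX0.le
    nlinarith

theorem B2_le_sum {ι : Type} (s : Finset ι) (g : ι → ℝ) (hg : ∀ i ∈ s, 0 ≤ g i) {i : ι}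
    (hi : i ∈ s) : g i ≤ ∑ j ∈ s, g j := Finset.single_le_sum hg hi

theorem min_exists {N k : ℕ} (hN : 0 < N) (f : Fin N → Fin N → ℝ) (hf : ∀ x y, 0 < f x y)
    (φ : ℝ) (hφ : 0 < φ) (n p : ℕ) (hp : 1 ≤ p) (hk : k ≤ n) (S0 : St N k) (hV : Valid f S0) :
    ∃ S : St N k, Valid f S ∧ ∀ S' : St N k, Valid f S' → S.pot φ n p ≤ S'.pot φ n p := by
  have hp' : (0 : ℝ) < p := by exact_mod_cast hp
  set l : ℝ := 1 / (1000 * p) with hl
  have hl0 : 0 < l := by positivity
  -- general facts on valid states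
  have hX : ∀ S : St N k, Valid f S → ∀ u, φ ≤ S.X φ n u := by
    intro S hS u
    unfold St.X
    have : 0 ≤ ∑ e : Ed k with e.1.1 = u, mu n k e * S.r e := Finset.sum_nonneg fun e _ =>
      mul_nonneg (zero_le_one.trans (B2_mu hk e)) (hS.r_nn e)
    linarith
  have hY : ∀ S : St N k, Valid f S → ∀ u, φ ≤ S.Y φ n u := by
    intro S hS u
    unfold St.Y
    have : 0 ≤ ∑ e : Ed k with e.1.2 = u, mu n k e * S.s e := Finset.sum_nonneg fun e _ =>
      mul_nonneg (zero_le_one.trans (B2_mu hk e)) (hS.s_nn e)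
    linarith
  have hXs : ∀ S : St N k, Valid f S → ∀ u, 0 ≤ (S.X φ n u * (1 + l) ^ S.β u) ^ p := by
    intro S hS u
    have := hX S hS u
    have : 0 < S.X φ n u := by linarith
    positivity
  have hYs : ∀ S : St N k, Valid f S → ∀ u, 0 ≤ (S.Y φ n u * (1 + l) ^ S.γ u) ^ p := by
    intro S hS u
    have := hY S hS u
    have : 0 < S.Y φ n u := by linarith
    positivity
  have hpot : ∀ S : St N k, S.pot φ n p = ∑ u, (S.X φ n u * (1 + l) ^ S.β u) ^ p +
    ∑ w, (S.Y φ n w * (1 + l) ^ S.γ w) ^ p := fun _ => rfl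
  have hXle : ∀ S : St N k, Valid f S → ∀ u, (S.X φ n u * (1 + l) ^ S.β u) ^ p ≤ S.pot φ n p := by
    intro S hS u
    rw [hpot]
    have h1 := B2_le_sum univ (fun u => (S.X φ n u * (1 + l) ^ S.β u) ^ p)
      (fun u _ => hXs S hS u) (mem_univ u)
    have h2 : 0 ≤ ∑ w, (S.Y φ n w * (1 + l) ^ S.γ w) ^ p :=
      Finset.sum_nonneg fun w _ => hYs S hS w
    linarith
  have hYle : ∀ S : St N k, Valid f S → ∀ u, (S.Y φ n u * (1 + l) ^ S.γ u) ^ p ≤ S.pot φ n p := by
    intro S hS u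
    rw [hpot]
    have h1 := B2_le_sum univ (fun u => (S.Y φ n u * (1 + l) ^ S.γ u) ^ p)
      (fun u _ => hYs S hS u) (mem_univ u)
    have h2 : 0 ≤ ∑ w, (S.X φ n w * (1 + l) ^ S.β w) ^ p :=
      Finset.sum_nonneg fun w _ => hXs S hS w
    linarith
  set M : ℝ := S0.pot φ n p with hMd
  have hM : 0 ≤ M := by
    rw [hMd, hpot]
    exact add_nonneg (Finset.sum_nonneg fun u _ => hXs S0 hV u)
      (Finset.sum_nonneg fun u _ => hYs S0 hV u)
  set B : ℕ := ⌈(M + 1) / (φ * l)⌉₊ with hB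
  set K : Set (B2_Z N k) := {z | Valid f (B2_st z)} ∩ {z | (B2_st z).pot φ n p ≤ M} with hK
  have hKc : IsClosed K := (B2_closed f).inter (isClosed_le (B2_pot_cont φ n p) continuous_const)
  set C : Set (B2_Z N k) :=
    (Set.pi Set.univ fun _ => Set.pi Set.univ fun _ => Set.Icc (0 : ℝ) 1) ×ˢ
    (Set.pi Set.univ fun _ => Set.pi Set.univ fun _ => Set.Icc (0 : ℝ) 1) ×ˢ
    (Set.pi Set.univ fun _ => Set.Icc (0 : ℕ) B) ×ˢ (Set.pi Set.univ fun _ => Set.Icc (0 : ℕ) B) ×ˢ
    (Set.pi Set.univ fun _ => Set.Icc (0 : ℝ) (M + 1)) ×ˢ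
    (Set.pi Set.univ fun _ => Set.Icc (0 : ℝ) (M + 1)) with hC
  have hCc : IsCompact C := by
    refine (isCompact_univ_pi fun _ => isCompact_univ_pi fun _ => isCompact_Icc).prod
      ((isCompact_univ_pi fun _ => isCompact_univ_pi fun _ => isCompact_Icc).prod
      ((isCompact_univ_pi fun _ => (Set.finite_Icc _ _).isCompact).prod
      ((isCompact_univ_pi fun _ => (Set.finite_Icc _ _).isCompact).prod
      ((isCompact_univ_pi fun _ => isCompact_Icc).prod
      (isCompact_univ_pi fun _ => isCompact_Icc)))))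
  have hKC : K ⊆ C := by
    rintro z ⟨hz1, hz2⟩
    have hz1' : Valid f (B2_st z) := hz1
    have hz2' : (B2_st z).pot φ n p ≤ M := hz2
    have bX := fun u => B2_bound hφ hM hl0 hp (hX _ hz1' u) ((hXle _ hz1' u).trans hz2')
    have bY := fun u => B2_bound hφ hM hl0 hp (hY _ hz1' u) ((hYle _ hz1' u).trans hz2')
    refine ⟨?_, ?_, ?_, ?_, ?_, ?_⟩
    · intro u _ x _
      refine ⟨hz1'.P_nn u x, ?_⟩
      rw [← hz1'.P_sum u]
      exact B2_le_sum univ (fun x => (B2_st z).P u x) (fun x _ => hz1'.P_nn u x) (mem_univ x)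
    · intro u _ x _
      refine ⟨hz1'.Q_nn u x, ?_⟩
      rw [← hz1'.Q_sum u]
      exact B2_le_sum univ (fun x => (B2_st z).Q u x) (fun x _ => hz1'.Q_nn u x) (mem_univ x)
    · intro u _
      refine ⟨Nat.zero_le _, ?_⟩
      have h1 := (bX u).2.trans (Nat.le_ceil _)
      exact_mod_cast h1
    · intro u _
      refine ⟨Nat.zero_le _, ?_⟩
      have h1 := (bY u).2.trans (Nat.le_ceil _)
      exact_mod_cast h1
    · intro e _
      refine ⟨hz1'.r_nn e, ?_⟩
      refine le_trans ?_ (bX e.1.1).1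
      have h1 : mu n k e * (B2_st z).r e ≤ ∑ e' : Ed k with e'.1.1 = e.1.1,
          mu n k e' * (B2_st z).r e' := by
        refine B2_le_sum _ (fun e' => mu n k e' * (B2_st z).r e') (fun e' _ =>
          mul_nonneg (zero_le_one.trans (B2_mu hk e')) (hz1'.r_nn e')) ?_
        exact Finset.mem_filter.2 ⟨mem_univ e, rfl⟩
      have h2 : (B2_st z).r e ≤ mu n k e * (B2_st z).r e :=
        le_mul_of_one_le_left (hz1'.r_nn e) (B2_mu hk e)
      unfold St.X
      have h3 : z.2.2.2.2.1 e = (B2_st z).r e := rfl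
      rw [h3]
      linarith
    · intro e _
      refine ⟨hz1'.s_nn e, ?_⟩
      refine le_trans ?_ (bY e.1.2).1
      have h1 : mu n k e * (B2_st z).s e ≤ ∑ e' : Ed k with e'.1.2 = e.1.2,
          mu n k e' * (B2_st z).s e' := by
        refine B2_le_sum _ (fun e' => mu n k e' * (B2_st z).s e') (fun e' _ =>
          mul_nonneg (zero_le_one.trans (B2_mu hk e')) (hz1'.s_nn e')) ?_
        exact Finset.mem_filter.2 ⟨mem_univ e, rfl⟩
      have h2 : (B2_st z).s e ≤ mu n k e * (B2_st z).s e :=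
        le_mul_of_one_le_left (hz1'.s_nn e) (B2_mu hk e)
      unfold St.Y
      have h3 : z.2.2.2.2.2 e = (B2_st z).s e := rfl
      rw [h3]
      linarith
  have hKcomp : IsCompact K := hCc.of_isClosed_subset hKc hKC
  have hmemK : ∀ S : St N k, Valid f S → S.pot φ n p ≤ M → B2_pt S ∈ K := by
    intro S h1 h2
    rw [← B2_st_pt S] at h1 h2
    exact ⟨h1, h2⟩
  have hne : K.Nonempty := ⟨B2_pt S0, hmemK S0 hV le_rfl⟩
  obtain ⟨z, hzK, hmin⟩ := hKcomp.exists_isMinOn hne (B2_pot_cont φ n p).continuousOn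
  refine ⟨B2_st z, hzK.1, fun S' hS' => ?_⟩
  by_cases h : S'.pot φ n p ≤ M
  · have h1 := isMinOn_iff.1 hmin _ (hmemK S' hS' h)
    rw [B2_st_pt] at h1
    exact h1
  · push Not at h
    exact le_trans hzK.2 h.le

end Pool.Agent.Helper53.OC
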