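import Mathlib
import Pool.Agent.Helper53.OC.DefsB

/-!
Ordered Ramsey numbers of the cube (MP_09b4c2): module B3a (the one-level system of a state).
-/

namespace Pool.Agent.Helper53.OC

open Finset
open Pool.Agent.Helper96.OR (Idx adj rank)

theorem B3a_dn_pos {N : ℕ} (f : Fin N → Fin N → ℝ) (hf : ∀ x y, 0 < f x y) (P Q : Fin N → ℝ)
    (hP : ∀ x, 0 ≤ P x) (hQ : ∀ x, 0 ≤ Q x) (hP1 : ∑ x, P x = 1) (hQ1 : ∑ x, Q x = 1) :
    0 < dn f P Q := by
  obtain ⟨x, hx⟩ : ∃ x, 0 < P x := by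
    by_contra h
    push Not at h
    have : ∑ x, P x ≤ 0 := Finset.sum_nonpos fun x _ => h x
    linarith
  obtain ⟨y, hy⟩ : ∃ y, 0 < Q y := by
    by_contra h
    push Not at h
    have : ∑ y, Q y ≤ 0 := Finset.sum_nonpos fun y _ => h y
    linarith
  unfold dn
  have hnn : ∀ x y, 0 ≤ P x * Q y * f x y := fun x y =>
    mul_nonneg (mul_nonneg (hP x) (hQ y)) (hf x y).le
  refine Finset.sum_pos' (fun x _ => Finset.sum_nonneg fun y _ => hnn x y) ⟨x, mem_univ x, ?_⟩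
  refine Finset.sum_pos' (fun y _ => hnn x y) ⟨y, mem_univ y, ?_⟩
  have := hf x y
  positivity

theorem B3a_mu_pos {k n : ℕ} (hk : k < n) (e : Ed k) : 0 < mu n k e := by
  unfold mu
  have : (k : ℝ) + 1 ≤ n := by exact_mod_cast hk
  split_ifs
  · linarith
  · exact one_pos

theorem B3a_th {k n : ℕ} (hk : k < n) (e : Ed k) : 0 ≤ th n k e ∧ th n k e ≤ 1 / 2 := by
  unfold th
  have h1 : (k : ℝ) + 1 ≤ n := by exact_mod_cast hk
  have h2 : (0 : ℝ) < 11 + 10 * ((n : ℝ) - k) := by linarith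
  split_ifs
  · refine ⟨by positivity, ?_⟩
    rw [div_le_div_iff₀ h2 (by norm_num)]
    linarith
  · norm_num

theorem B3a_diag {k n : ℕ} (e : Ed k) (h : th n k e ≠ 0) : e.1.1 = e.1.2 := by
  by_contra hne
  apply h
  unfold th
  rw [if_neg hne]

theorem B3a_ext {k : ℕ} (e e' : Ed k) (h1 : e.1.1 = e'.1.1) (h2 : e.1.2 = e'.1.2) : e = e' :=
  Subtype.ext (Prod.ext h1 h2)

theorem B3a_rs {N k : ℕ} (f : Fin N → Fin N → ℝ) (hf : ∀ x y, 0 < f x y) (S : St N k)
    (hV : Valid f S) (e : Ed k) : 0 < S.r e ∧ 0 < S.s e := by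
  have h1 := B3a_dn_pos f hf (S.P e.1.1) (S.Q e.1.2) (hV.P_nn _) (hV.Q_nn _) (hV.P_sum _)
    (hV.Q_sum _)
  have h2 := lt_of_lt_of_le h1 (hV.cert e)
  have h3 := hV.r_nn e
  have h4 := hV.s_nn e
  constructor
  · rcases h3.lt_or_eq with h | h
    · exact h
    · rw [← h, zero_mul] at h2; exact absurd h2 (lt_irrefl _)
  · rcases h4.lt_or_eq with h | h
    · exact h
    · rw [← h, mul_zero] at h2; exact absurd h2 (lt_irrefl _)

theorem B3a_X {N k : ℕ} (φ : ℝ) {n : ℕ} (hk : k < n) (S : St N k)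
    (hr : ∀ e, 0 ≤ S.r e) (u : Idx 2 k) : φ ≤ S.X φ n u := by
  unfold St.X
  have : 0 ≤ ∑ e : Ed k with e.1.1 = u, mu n k e * S.r e :=
    Finset.sum_nonneg fun e _ => mul_nonneg (B3a_mu_pos hk e).le (hr e)
  linarith

theorem B3a_Y {N k : ℕ} (φ : ℝ) {n : ℕ} (hk : k < n) (S : St N k)
    (hs : ∀ e, 0 ≤ S.s e) (w : Idx 2 k) : φ ≤ S.Y φ n w := by
  unfold St.Y
  have : 0 ≤ ∑ e : Ed k with e.1.2 = w, mu n k e * S.s e :=
    Finset.sum_nonneg fun e _ => mul_nonneg (B3a_mu_pos hk e).le (hs e)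
  linarith

theorem B3a_qsum {N : ℕ} (hH : HalfFacts N) (f : Fin N → Fin N → ℝ) (P Q : Fin N → ℝ)
    (hP : ∀ x, 0 ≤ P x) (hQ : ∀ x, 0 ≤ Q x) (hP1 : ∑ x, P x = 1) (hQ1 : ∑ x, Q x = 1) :
    dn f (half true P) (half true Q) + dn f (half true P) (half false Q) +
      dn f (half false P) (half true Q) + dn f (half false P) (half false Q) = 4 * dn f P Q := by
  obtain ⟨-, -, -, h1, -⟩ := hH P hP hP1
  obtain ⟨-, -, -, h2, -⟩ := hH Q hQ hQ1
  unfold dn
  rw [← Finset.sum_add_distrib, ← Finset.sum_add_distrib, ← Finset.sum_add_distrib,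
    Finset.mul_sum]
  refine Finset.sum_congr rfl fun x _ => ?_
  rw [← Finset.sum_add_distrib, ← Finset.sum_add_distrib, ← Finset.sum_add_distrib,
    Finset.mul_sum]
  refine Finset.sum_congr rfl fun y _ => ?_
  have e1 : half true P x = 2 * P x - half false P x := by linarith [h1 x]
  have e2 : half true Q y = 2 * Q y - half false Q y := by linarith [h2 y]
  rw [e1, e2]
  ring

theorem mk_sys {N k : ℕ} (hH : HalfFacts N) (f : Fin N → Fin N → ℝ) (hf : ∀ x y, 0 < f x y)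
    (φ : ℝ) (hφ : 0 < φ) (n p : ℕ) (hk : k < n) (S : St N k) (hV : Valid f S) :
    ∃ Z : Sys (Idx 2 k) (Idx 2 k) (Ed k), IsSys f φ n p S Z := by
  have hr := fun e => (B3a_rs f hf S hV e).1
  have hs := fun e => (B3a_rs f hf S hV e).2
  have hX : ∀ u, 0 < S.X φ n u := fun u =>
    lt_of_lt_of_le hφ (B3a_X φ hk S (fun e => (hr e).le) u)
  have hY : ∀ w, 0 < S.Y φ n w := fun w =>
    lt_of_lt_of_le hφ (B3a_Y φ hk S (fun e => (hs e).le) w)
  have hdn : ∀ e : Ed k, 0 < dn f (S.P e.1.1) (S.Q e.1.2) := fun e =>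
    B3a_dn_pos f hf _ _ (hV.P_nn _) (hV.Q_nn _) (hV.P_sum _) (hV.Q_sum _)
  have hl : (0 : ℝ) < 1 + 1 / (1000 * p) := by positivity
  refine ⟨{
    s := fun e => e.1.1
    t := fun e => e.1.2
    inj := fun e e' h1 h2 => B3a_ext e e' h1 h2
    x := fun e => mu n k e * S.r e / S.X φ n e.1.1
    y := fun e => mu n k e * S.s e / S.Y φ n e.1.2
    x_pos := fun e => div_pos (mul_pos (B3a_mu_pos hk e) (hr e)) (hX _)
    y_pos := fun e => div_pos (mul_pos (B3a_mu_pos hk e) (hs e)) (hY _)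
    x_sum := ?_
    y_sum := ?_
    m := fun u => (S.X φ n u * (1 + 1 / (1000 * p)) ^ S.β u) ^ p
    n := fun w => (S.Y φ n w * (1 + 1 / (1000 * p)) ^ S.γ w) ^ p
    m_pos := fun u => pow_pos (mul_pos (hX u) (pow_pos hl _)) _
    n_pos := fun w => pow_pos (mul_pos (hY w) (pow_pos hl _)) _
    θ := th n k
    θ_nn := fun e => (B3a_th hk e).1
    θ_le := fun e => (B3a_th hk e).2
    θ_row := fun e e' h h' hee => B3a_ext e e' hee (by
      rw [← B3a_diag e h, ← B3a_diag e' h']; exact hee)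
    θ_col := fun e e' h h' hee => B3a_ext e e' (by
      rw [B3a_diag e h, B3a_diag e' h']; exact hee) hee
    q := fun a b e => dn f (half a (S.P e.1.1)) (half b (S.Q e.1.2)) / dn f (S.P e.1.1) (S.Q e.1.2)
    q_pos := ?_
    q_sum := ?_ }, ⟨fun _ => rfl, fun _ => rfl, fun _ => rfl, fun _ => rfl, fun _ => rfl,
      fun _ => rfl, fun _ => rfl, fun _ _ _ => rfl⟩⟩
  · intro u
    have h1 : ∑ e : Ed k with e.1.1 = u, mu n k e * S.r e / S.X φ n e.1.1 =
        (∑ e : Ed k with e.1.1 = u, mu n k e * S.r e) / S.X φ n u := by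
      rw [Finset.sum_div]
      refine Finset.sum_congr rfl fun e he => ?_
      rw [(Finset.mem_filter.1 he).2]
    rw [h1, div_le_one (hX u)]
    unfold St.X
    linarith
  · intro w
    have h1 : ∑ e : Ed k with e.1.2 = w, mu n k e * S.s e / S.Y φ n e.1.2 =
        (∑ e : Ed k with e.1.2 = w, mu n k e * S.s e) / S.Y φ n w := by
      rw [Finset.sum_div]
      refine Finset.sum_congr rfl fun e he => ?_
      rw [(Finset.mem_filter.1 he).2]
    rw [h1, div_le_one (hY w)]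
    unfold St.Y
    linarith
  · intro a b e
    obtain ⟨h1, h2, -⟩ := hH (S.P e.1.1) (hV.P_nn _) (hV.P_sum _)
    obtain ⟨h3, h4, -⟩ := hH (S.Q e.1.2) (hV.Q_nn _) (hV.Q_sum _)
    exact div_pos (B3a_dn_pos f hf _ _ (h1 a) (h3 b) (h2 a) (h4 b)) (hdn e)
  · intro e
    have h := B3a_qsum hH f (S.P e.1.1) (S.Q e.1.2) (hV.P_nn _) (hV.Q_nn _) (hV.P_sum _)
      (hV.Q_sum _)
    have hd := hdn e
    change dn f (half true (S.P e.1.1)) (half true (S.Q e.1.2)) / dn f (S.P e.1.1) (S.Q e.1.2) +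
      dn f (half true (S.P e.1.1)) (half false (S.Q e.1.2)) / dn f (S.P e.1.1) (S.Q e.1.2) +
      dn f (half false (S.P e.1.1)) (half true (S.Q e.1.2)) / dn f (S.P e.1.1) (S.Q e.1.2) +
      dn f (half false (S.P e.1.1)) (half false (S.Q e.1.2)) / dn f (S.P e.1.1) (S.Q e.1.2) = 4
    rw [← add_div, ← add_div, ← add_div, h, mul_div_assoc, div_self hd.ne', mul_one]

end Pool.Agent.Helper53.OC
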