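import Mathlib
import Pool.Agent.Helper53.OC.DefsB

/-!
Ordered Ramsey numbers of the cube (MP_09b4c2): a state of minimal potential is critical.
-/

namespace Pool.Agent.Helper53.OC

open Finset
open Pool.Agent.Helper96.OR (Idx adj rank)

/-- the zoomed vector -/
noncomputable def B3b_zm {N : ℕ} (o : Option Bool) (P : Fin N → ℝ) : Fin N → ℝ :=
  match o with
  | none => P
  | some a => half a P

/-- number of halvings of a zoom -/
def B3b_ct (o : Option Bool) : ℕ :=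
  match o with
  | none => 0
  | some _ => 1

theorem B3b_zm_nn {N : ℕ} (hH : HalfFacts N) (o : Option Bool) (P : Fin N → ℝ)
    (h0 : ∀ x, 0 ≤ P x) (h1 : ∑ x, P x = 1) (x : Fin N) : 0 ≤ B3b_zm o P x := by
  cases o with
  | none => exact h0 x
  | some a => exact (hH P h0 h1).1 a x

theorem B3b_zm_sum {N : ℕ} (hH : HalfFacts N) (o : Option Bool) (P : Fin N → ℝ)
    (h0 : ∀ x, 0 ≤ P x) (h1 : ∑ x, P x = 1) : ∑ x, B3b_zm o P x = 1 := by
  cases o with
  | none => exact h1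
  | some a => exact (hH P h0 h1).2.1 a

theorem B3b_zm_le {N : ℕ} (hH : HalfFacts N) (o : Option Bool) (P : Fin N → ℝ)
    (h0 : ∀ x, 0 ≤ P x) (h1 : ∑ x, P x = 1) (x : Fin N) :
    B3b_zm o P x ≤ 2 ^ B3b_ct o * P x := by
  cases o with
  | none =>
    change P x ≤ 2 ^ 0 * P x
    rw [pow_zero, one_mul]
  | some a =>
    change half a P x ≤ 2 ^ 1 * P x
    rw [pow_one]
    exact (hH P h0 h1).2.2.1 a x

theorem B3b_zm_zero {N : ℕ} (hH : HalfFacts N) (o : Option Bool) (P : Fin N → ℝ)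
    (h0 : ∀ x, 0 ≤ P x) (h1 : ∑ x, P x = 1) (x : Fin N) (h : P x = 0) : B3b_zm o P x = 0 := by
  have h2 := B3b_zm_le hH o P h0 h1 x
  rw [h, mul_zero] at h2
  exact le_antisymm h2 (B3b_zm_nn hH o P h0 h1 x)

theorem B3b_zm_ord {N : ℕ} (hH : HalfFacts N) (o o' : Option Bool) (P P' : Fin N → ℝ)
    (h0 : ∀ x, 0 ≤ P x) (h1 : ∑ x, P x = 1) (h0' : ∀ x, 0 ≤ P' x) (h1' : ∑ x, P' x = 1)
    (x x' : Fin N) (h : P x * P' x' = 0) : B3b_zm o P x * B3b_zm o' P' x' = 0 := by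
  rcases mul_eq_zero.1 h with h2 | h2
  · rw [B3b_zm_zero hH o P h0 h1 x h2, zero_mul]
  · rw [B3b_zm_zero hH o' P' h0' h1' x' h2, mul_zero]

theorem B3b_zm_cap {N : ℕ} (hH : HalfFacts N) (o : Option Bool) (P : Fin N → ℝ)
    (h0 : ∀ x, 0 ≤ P x) (h1 : ∑ x, P x = 1) (x : Fin N) (b : ℕ) (h : P x * N ≤ 2 ^ b) :
    B3b_zm o P x * N ≤ 2 ^ (b + B3b_ct o) := by
  calc B3b_zm o P x * N ≤ (2 ^ B3b_ct o * P x) * N :=
        mul_le_mul_of_nonneg_right (B3b_zm_le hH o P h0 h1 x) (Nat.cast_nonneg _)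
    _ = 2 ^ B3b_ct o * (P x * N) := by ring
    _ ≤ 2 ^ B3b_ct o * 2 ^ b := mul_le_mul_of_nonneg_left h (by positivity)
    _ = 2 ^ (b + B3b_ct o) := by rw [pow_add]; ring

theorem B3b_dn_pos {N : ℕ} (f : Fin N → Fin N → ℝ) (hf : ∀ x y, 0 < f x y) (P Q : Fin N → ℝ)
    (h0 : ∀ x, 0 ≤ P x) (h1 : ∑ x, P x = 1) (h2 : ∀ x, 0 ≤ Q x) (h3 : ∑ x, Q x = 1) :
    0 < dn f P Q := by
  have hx : ∃ x, 0 < P x := by
    by_contra h
    push Not at h
    have : ∑ x, P x ≤ 0 := sum_nonpos fun x _ => h x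
    linarith
  have hy : ∃ y, 0 < Q y := by
    by_contra h
    push Not at h
    have : ∑ x, Q x ≤ 0 := sum_nonpos fun x _ => h x
    linarith
  obtain ⟨x, hx⟩ := hx
  obtain ⟨y, hy⟩ := hy
  unfold dn
  have hn : ∀ x y, 0 ≤ P x * Q y * f x y := fun x y =>
    mul_nonneg (mul_nonneg (h0 x) (h2 y)) (hf x y).le
  refine sum_pos' (fun x _ => sum_nonneg fun y _ => hn x y) ⟨x, mem_univ _, ?_⟩
  exact sum_pos' (fun y _ => hn x y) ⟨y, mem_univ _, mul_pos (mul_pos hx hy) (hf x y)⟩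

theorem B3b_dn_right {N : ℕ} (f : Fin N → Fin N → ℝ) (P Q Q1 Q2 : Fin N → ℝ)
    (h : ∀ y, Q1 y + Q2 y = 2 * Q y) : dn f P Q1 + dn f P Q2 = 2 * dn f P Q := by
  unfold dn
  rw [← sum_add_distrib, mul_sum]
  refine sum_congr rfl fun x _ => ?_
  rw [← sum_add_distrib, mul_sum]
  refine sum_congr rfl fun y _ => ?_
  have := h y
  calc P x * Q1 y * f x y + P x * Q2 y * f x y = P x * (Q1 y + Q2 y) * f x y := by ring
    _ = 2 * (P x * Q y * f x y) := by rw [this]; ring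

theorem B3b_dn_left {N : ℕ} (f : Fin N → Fin N → ℝ) (P P1 P2 Q : Fin N → ℝ)
    (h : ∀ y, P1 y + P2 y = 2 * P y) : dn f P1 Q + dn f P2 Q = 2 * dn f P Q := by
  unfold dn
  rw [← sum_add_distrib, mul_sum]
  refine sum_congr rfl fun x _ => ?_
  rw [← sum_add_distrib, mul_sum]
  refine sum_congr rfl fun y _ => ?_
  have := h x
  calc P1 x * Q y * f x y + P2 x * Q y * f x y = (P1 x + P2 x) * Q y * f x y := by ring
    _ = 2 * (P x * Q y * f x y) := by rw [this]; ring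

theorem B3b_pen (l : ℝ) (o : Option Bool) : pen l o = (1 + l) ^ B3b_ct o := by
  cases o with
  | none => exact (pow_zero _).symm
  | some a => exact (pow_one _).symm

theorem B3b_dn_zm {N k : ℕ} (hH : HalfFacts N) (f : Fin N → Fin N → ℝ)
    (hf : ∀ x y, 0 < f x y) (φ : ℝ) (n p : ℕ) (S : St N k)
    (hV : Valid f S) (Z : Sys (Idx 2 k) (Idx 2 k) (Ed k)) (hZ : IsSys f φ n p S Z)
    (o o' : Option Bool) (e : Ed k) :
    dn f (B3b_zm o (S.P e.1.1)) (B3b_zm o' (S.Q e.1.2)) =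
      Z.fac o o' e * dn f (S.P e.1.1) (S.Q e.1.2) := by
  have hd := B3b_dn_pos f hf (S.P e.1.1) (S.Q e.1.2) (hV.P_nn _) (hV.P_sum _) (hV.Q_nn _)
    (hV.Q_sum _)
  have hP := (hH (S.P e.1.1) (hV.P_nn _) (hV.P_sum _)).2.2.2.1
  have hQ := (hH (S.Q e.1.2) (hV.Q_nn _) (hV.Q_sum _)).2.2.2.1
  cases o with
  | none =>
    cases o' with
    | none => exact (one_mul _).symm
    | some b =>
      change dn f (S.P e.1.1) (half b (S.Q e.1.2)) =
        ((Z.q true b e + Z.q false b e) / 2) * dn f (S.P e.1.1) (S.Q e.1.2)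
      have h := B3b_dn_left f (S.P e.1.1) (half true (S.P e.1.1)) (half false (S.P e.1.1))
        (half b (S.Q e.1.2)) hP
      rw [hZ.hq, hZ.hq]
      field_simp
      linarith
  | some a =>
    cases o' with
    | none =>
      change dn f (half a (S.P e.1.1)) (S.Q e.1.2) =
        ((Z.q a true e + Z.q a false e) / 2) * dn f (S.P e.1.1) (S.Q e.1.2)
      have h := B3b_dn_right f (half a (S.P e.1.1)) (S.Q e.1.2) (half true (S.Q e.1.2))
        (half false (S.Q e.1.2)) hQ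
      rw [hZ.hq, hZ.hq]
      field_simp
      linarith
    | some b =>
      change dn f (half a (S.P e.1.1)) (half b (S.Q e.1.2)) =
        Z.q a b e * dn f (S.P e.1.1) (S.Q e.1.2)
      rw [hZ.hq]
      field_simp

theorem B3b_load {ι : Type} (s : Finset ι) (φ : ℝ) (c r R x : ι → ℝ) (X : ℝ)
    (hX : X = φ + ∑ e ∈ s, c e * r e) (hX0 : X ≠ 0) (hx : ∀ e ∈ s, x e = c e * r e / X) :
    φ + ∑ e ∈ s, c e * (r e * R e) = X * (1 + ∑ e ∈ s, x e * (R e - 1)) := by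
  have h1 : ∑ e ∈ s, x e * (R e - 1) = (∑ e ∈ s, (c e * (r e * R e) - c e * r e)) / X := by
    rw [sum_div]
    refine sum_congr rfl fun e he => ?_
    rw [hx e he]
    field_simp
  rw [h1, sum_sub_distrib]
  have h2 : X * (1 + (∑ e ∈ s, c e * (r e * R e) - ∑ e ∈ s, c e * r e) / X) =
      X + (∑ e ∈ s, c e * (r e * R e) - ∑ e ∈ s, c e * r e) := by
    field_simp
  rw [h2]
  linarith

theorem B3b_mu_pos {n k : ℕ} (hk : k < n) (e : Ed k) : 0 < mu n k e := by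
  have hk' : (k : ℝ) < n := Nat.cast_lt.2 hk
  unfold mu
  split_ifs
  · linarith
  · exact one_pos

theorem B3b_X_pos {N k : ℕ} (f : Fin N → Fin N → ℝ) (φ : ℝ) (hφ : 0 < φ) (n : ℕ) (hk : k < n)
    (S : St N k) (hV : Valid f S) (u : Idx 2 k) : 0 < S.X φ n u := by
  unfold St.X
  have : 0 ≤ ∑ e : Ed k with e.1.1 = u, mu n k e * S.r e :=
    sum_nonneg fun e _ => mul_nonneg (B3b_mu_pos hk e).le (hV.r_nn e)
  linarith

theorem B3b_Y_pos {N k : ℕ} (f : Fin N → Fin N → ℝ) (φ : ℝ) (hφ : 0 < φ) (n : ℕ) (hk : k < n)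
    (S : St N k) (hV : Valid f S) (u : Idx 2 k) : 0 < S.Y φ n u := by
  unfold St.Y
  have : 0 ≤ ∑ e : Ed k with e.1.2 = u, mu n k e * S.s e :=
    sum_nonneg fun e _ => mul_nonneg (B3b_mu_pos hk e).le (hV.s_nn e)
  linarith

/-- the state after a zoom -/
noncomputable def B3b_st {N k : ℕ} (S : St N k) (σ τ : Idx 2 k → Option Bool) (R T : Ed k → ℝ) :
    St N k where
  P := fun u => B3b_zm (σ u) (S.P u)
  Q := fun w => B3b_zm (τ w) (S.Q w)
  β := fun u => S.β u + B3b_ct (σ u)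
  γ := fun w => S.γ w + B3b_ct (τ w)
  r := fun e => S.r e * R e
  s := fun e => S.s e * T e

theorem crit_of_min {N k : ℕ} (hH : HalfFacts N) (f : Fin N → Fin N → ℝ)
    (hf : ∀ x y, 0 < f x y) (φ : ℝ) (hφ : 0 < φ) (n p : ℕ) (hp : 1 ≤ p) (hk : k < n) (S : St N k)
    (hV : Valid f S) (hmin : ∀ S' : St N k, Valid f S' → S.pot φ n p ≤ S'.pot φ n p)
    (Z : Sys (Idx 2 k) (Idx 2 k) (Ed k)) (hZ : IsSys f φ n p S Z) :
    Z.Crit p (1 / (1000 * p)) := by
  intro σ τ R T hR hT hRT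
  have hV' : Valid f (B3b_st S σ τ R T) := by
    refine ⟨?_, ?_, ?_, ?_, ?_, ?_, ?_, ?_, ?_, ?_, ?_⟩
    · exact fun u x => B3b_zm_nn hH _ _ (hV.P_nn u) (hV.P_sum u) x
    · exact fun u x => B3b_zm_nn hH _ _ (hV.Q_nn u) (hV.Q_sum u) x
    · exact fun u => B3b_zm_sum hH _ _ (hV.P_nn u) (hV.P_sum u)
    · exact fun u => B3b_zm_sum hH _ _ (hV.Q_nn u) (hV.Q_sum u)
    · exact fun u u' x x' h1 h2 => B3b_zm_ord hH _ _ _ _ (hV.P_nn u) (hV.P_sum u) (hV.P_nn u')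
        (hV.P_sum u') x x' (hV.P_ord u u' x x' h1 h2)
    · exact fun u u' x x' h1 h2 => B3b_zm_ord hH _ _ _ _ (hV.Q_nn u) (hV.Q_sum u) (hV.Q_nn u')
        (hV.Q_sum u') x x' (hV.Q_ord u u' x x' h1 h2)
    · exact fun u x => B3b_zm_cap hH _ _ (hV.P_nn u) (hV.P_sum u) x _ (hV.P_cap u x)
    · exact fun u x => B3b_zm_cap hH _ _ (hV.Q_nn u) (hV.Q_sum u) x _ (hV.Q_cap u x)
    · exact fun e => mul_nonneg (hV.r_nn e) (hR e).le
    · exact fun e => mul_nonneg (hV.s_nn e) (hT e).le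
    · intro e
      change dn f (B3b_zm (σ e.1.1) (S.P e.1.1)) (B3b_zm (τ e.1.2) (S.Q e.1.2)) ≤
        (S.r e * R e) * (S.s e * T e)
      rw [B3b_dn_zm hH f hf φ n p S hV Z hZ]
      have h1 := hRT e
      rw [hZ.hs, hZ.ht] at h1
      have hd := B3b_dn_pos f hf (S.P e.1.1) (S.Q e.1.2) (hV.P_nn _) (hV.P_sum _) (hV.Q_nn _)
        (hV.Q_sum _)
      calc Z.fac (σ e.1.1) (τ e.1.2) e * dn f (S.P e.1.1) (S.Q e.1.2)
          ≤ (R e * T e) * dn f (S.P e.1.1) (S.Q e.1.2) := mul_le_mul_of_nonneg_right h1 hd.le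
        _ ≤ (R e * T e) * (S.r e * S.s e) :=
            mul_le_mul_of_nonneg_left (hV.cert e) (mul_pos (hR e) (hT e)).le
        _ = _ := by ring
  have h := hmin _ hV'
  have e1 : S.pot φ n p = ∑ u, Z.m u + ∑ w, Z.n w := by
    unfold St.pot
    congr 1
    · exact sum_congr rfl fun u _ => (hZ.hm u).symm
    · exact sum_congr rfl fun u _ => (hZ.hn u).symm
  have e2 : (B3b_st S σ τ R T).pot φ n p =
      ∑ u, Z.m u * (Z.ldR R u * pen (1 / (1000 * p)) (σ u)) ^ p +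
        ∑ w, Z.n w * (Z.ldC T w * pen (1 / (1000 * p)) (τ w)) ^ p := by
    unfold St.pot
    congr 1
    · refine sum_congr rfl fun u _ => ?_
      have h1 : (B3b_st S σ τ R T).X φ n u = S.X φ n u * Z.ldR R u := by
        unfold Sys.ldR
        have e3 : (univ.filter fun e => Z.s e = u) = univ.filter fun e : Ed k => e.1.1 = u :=
          filter_congr fun e _ => by rw [hZ.hs]
        rw [e3]
        refine B3b_load _ φ (mu n k) S.r R Z.x (S.X φ n u) rfl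
          (B3b_X_pos f φ hφ n hk S hV u).ne' fun e he => ?_
        rw [hZ.hx, (mem_filter.1 he).2]
      rw [h1, B3b_pen, hZ.hm, ← mul_pow]
      congr 1
      change S.X φ n u * Z.ldR R u * (1 + 1 / (1000 * (p : ℝ))) ^ (S.β u + B3b_ct (σ u)) = _
      rw [pow_add]
      ring
    · refine sum_congr rfl fun u _ => ?_
      have h1 : (B3b_st S σ τ R T).Y φ n u = S.Y φ n u * Z.ldC T u := by
        unfold Sys.ldC
        have e3 : (univ.filter fun e => Z.t e = u) = univ.filter fun e : Ed k => e.1.2 = u :=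
          filter_congr fun e _ => by rw [hZ.ht]
        rw [e3]
        refine B3b_load _ φ (mu n k) S.s T Z.y (S.Y φ n u) rfl
          (B3b_Y_pos f φ hφ n hk S hV u).ne' fun e he => ?_
        rw [hZ.hy, (mem_filter.1 he).2]
      rw [h1, B3b_pen, hZ.hn, ← mul_pow]
      congr 1
      change S.Y φ n u * Z.ldC T u * (1 + 1 / (1000 * (p : ℝ))) ^ (S.γ u + B3b_ct (τ u)) = _
      rw [pow_add]
      ring
  rw [e1, e2] at h
  exact h

end Pool.Agent.Helper53.OC
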