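import Mathlib
import Pool.Agent.Helper53.OC.DefsB

/-! Row sums at level k + 1. -/

namespace Pool.Agent.Helper53.OC

open Finset
open Pool.Agent.Helper96.OR (Idx adj rank)

theorem B4a_lift_inj (k : ℕ) (i : Fin 2) : Function.Injective (lift (k := k) i) := by
  intro a b hab
  have h1 := congrArg Subtype.val hab
  obtain ⟨⟨a1, a2⟩, ha⟩ := a
  obtain ⟨⟨b1, b2⟩, hb⟩ := b
  have h2 : ((a1, i), (a2, i)) = ((b1, i), (b2, i)) := h1
  have h3 : a1 = b1 := congrArg (fun t => t.1.1) h2
  have h4 : a2 = b2 := congrArg (fun t => t.2.1) h2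
  subst h3
  subst h4
  rfl

theorem B4a_mem (k : ℕ) (u : Idx 2 k) (i j : Fin 2) (h : i ≠ j) (e : Ed (k + 1)) :
    e.1.1 = (u, i) ↔ (e = crs u i j h ∨ ∃ a : Ed k, a.1.1 = u ∧ lift i a = e) := by
  constructor
  · intro he
    obtain ⟨⟨e1, ⟨w, l⟩⟩, he'⟩ := e
    have h1 : e1 = (u, i) := he
    subst h1
    rcases he' with h2 | h2 | h2
    · right
      refine ⟨dg u, rfl, ?_⟩
      have h3 : ((u, i) : Idx 2 k × Fin 2) = (w, l) := h2
      have h4 : u = w := congrArg Prod.fst h3
      have h5 : i = l := congrArg Prod.snd h3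
      subst h4
      subst h5
      rfl
    · left
      have h3 : u = w := h2.1
      have h4 : i ≠ l := h2.2
      have h5 : l = j := by omega
      subst h3
      subst h5
      rfl
    · right
      have h3 : adj (fun a b : Fin 2 => a ≠ b) k u w := h2.1
      have h4 : i = l := h2.2
      subst h4
      exact ⟨⟨(u, w), Or.inr h3⟩, rfl, rfl⟩
  · rintro (h1 | ⟨a, ha, h1⟩)
    · rw [h1]
      rfl
    · rw [← h1, ← ha]
      rfl

theorem B4a_ne (k : ℕ) (u : Idx 2 k) (i j : Fin 2) (h : i ≠ j) (a : Ed k) :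
    lift i a ≠ crs u i j h := by
  intro ha
  have h1 := congrArg Subtype.val ha
  have h2 : i = j := congrArg (fun t : (Idx 2 k × Fin 2) × (Idx 2 k × Fin 2) => t.2.2) h1
  exact h h2

theorem sum_row (k : ℕ) (F : Ed (k + 1) → ℝ) (u : Idx 2 k) (i j : Fin 2) (h : i ≠ j) :
    ∑ e : Ed (k + 1) with e.1.1 = (u, i), F e =
      ∑ e : Ed k with e.1.1 = u, F (lift i e) + F (crs u i j h) := by
  classical
  have h2 : crs u i j h ∉ ((univ.filter fun e : Ed k => e.1.1 = u).image (lift i)) := by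
    intro hm
    obtain ⟨a, _, ha⟩ := mem_image.mp hm
    exact B4a_ne k u i j h a ha
  have h3 : ∀ e : Ed (k + 1), e.1.1 = (u, i) ↔
      e ∈ insert (crs u i j h) ((univ.filter fun e : Ed k => e.1.1 = u).image (lift i)) := by
    intro e
    rw [mem_insert, mem_image]
    have h4 := B4a_mem k u i j h e
    constructor
    · intro h5
      rcases h4.mp h5 with h6 | ⟨a, ha, h6⟩
      · exact Or.inl h6
      · exact Or.inr ⟨a, mem_filter.mpr ⟨mem_univ _, ha⟩, h6⟩
    · rintro (h5 | ⟨a, ha, h5⟩)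
      · exact h4.mpr (Or.inl h5)
      · exact h4.mpr (Or.inr ⟨a, (mem_filter.mp ha).2, h5⟩)
  have h5 : ∑ e ∈ insert (crs u i j h) ((univ.filter fun e : Ed k => e.1.1 = u).image (lift i)), F e =
      ∑ e : Ed k with e.1.1 = u, F (lift i e) + F (crs u i j h) := by
    rw [sum_insert h2, sum_image (fun a _ b _ hab => B4a_lift_inj k i hab), add_comm]
  rw [← h5]
  refine Finset.sum_congr ?_ fun _ _ => rfl
  ext e
  simp only [mem_filter, mem_univ, true_and]
  exact h3 e

end Pool.Agent.Helper53.OC
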