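import Mathlib
import Pool.Agent.Helper53.OC.DefsB

/-!
Module B4b: sums over the edges of level `k + 1` with a given second vertex.
-/

set_option autoImplicit false

namespace Pool.Agent.Helper53.OC

open Finset
open Pool.Agent.Helper96.OR (Idx adj rank)

theorem B4b_set (k : ℕ) (w : Idx 2 k) (i j : Fin 2) (h : i ≠ j) (e : Ed (k + 1)) :
    e.1.2 = (w, j) ↔ (∃ e' : Ed k, e'.1.2 = w ∧ lift j e' = e) ∨ e = crs w i j h := by
  constructor
  · intro he
    obtain ⟨⟨⟨a, l⟩, b, l'⟩, hE⟩ := e
    change (b, l') = (w, j) at he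
    obtain ⟨rfl, rfl⟩ := Prod.mk.inj he
    rcases hE with hE | hE | hE
    · obtain ⟨rfl, rfl⟩ := Prod.mk.inj hE
      exact Or.inl ⟨dg _, rfl, rfl⟩
    · obtain ⟨h1, h2⟩ := hE
      have h1' : a = b := h1
      have h2' : l ≠ l' := h2
      subst h1'
      have h3 : l = i := by omega
      subst h3
      exact Or.inr rfl
    · obtain ⟨h1, h2⟩ := hE
      have h2' : l = l' := h2
      subst h2'
      exact Or.inl ⟨⟨(a, b), Or.inr h1⟩, rfl, rfl⟩
  · rintro (⟨e', rfl, rfl⟩ | rfl)
    · rfl
    · rfl

theorem sum_col (k : ℕ) (F : Ed (k + 1) → ℝ) (w : Idx 2 k) (i j : Fin 2) (h : i ≠ j) :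
    ∑ e : Ed (k + 1) with e.1.2 = (w, j), F e =
      ∑ e : Ed k with e.1.2 = w, F (lift j e) + F (crs w i j h) := by
  classical
  have hinj : Function.Injective (lift j : Ed k → Ed (k + 1)) := by
    intro e e' hee
    apply Subtype.ext
    have h1 := congrArg (fun z : Ed (k + 1) => z.1.1.1) hee
    have h2 := congrArg (fun z : Ed (k + 1) => z.1.2.1) hee
    exact Prod.ext h1 h2
  have hset : (univ.filter fun e : Ed (k + 1) => e.1.2 = (w, j)) =
      insert (crs w i j h) ((univ.filter fun e : Ed k => e.1.2 = w).image (lift j)) := by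
    ext e
    rw [mem_filter, mem_insert, mem_image, B4b_set k w i j h e]
    simp only [mem_univ, true_and, mem_filter]
    exact or_comm
  have hnot : crs w i j h ∉ (univ.filter fun e : Ed k => e.1.2 = w).image (lift j) := by
    rw [mem_image]
    rintro ⟨e', -, he⟩
    have h1 := congrArg (fun z : Ed (k + 1) => z.1.1.2) he
    exact h h1.symm
  refine (Finset.sum_congr (s₂ := insert (crs w i j h)
    ((univ.filter fun e : Ed k => e.1.2 = w).image (lift j))) (g := F) ?_ fun _ _ => rfl).trans ?_
  · ext e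
    rw [← hset, mem_filter, mem_filter]
    exact Iff.rfl
  · rw [sum_insert hnot, sum_image (fun a _ b _ hab => hinj hab), add_comm]

end Pool.Agent.Helper53.OC
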