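import Mathlib
import Pool.Agent.Helper53.OC.DefsB

/-!
Ordered Ramsey numbers of the cube (MP_09b4c2): module B4p, the row loads of the next state.
-/

namespace Pool.Agent.Helper53.OC

open Finset
open Pool.Agent.Helper96.OR (Idx adj rank)

theorem B4p_down_lift {k : ℕ} (i : Fin 2) (e : Ed k) : down (lift i e) = e := Subtype.ext rfl

theorem B4p_down_crs {k : ℕ} (u : Idx 2 k) (i j : Fin 2) (h : i ≠ j) :
    down (crs u i j h) = dg u := Subtype.ext rfl

theorem B4p_mu_pos {n k : ℕ} (hk : k < n) (e : Ed k) : 0 < mu n k e := by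
  have h1 : (k : ℝ) < n := by exact_mod_cast hk
  unfold mu
  split_ifs
  · linarith
  · norm_num

theorem B4p_mu_lift {n k : ℕ} (hk : k < n) (i : Fin 2) (e : Ed k) :
    mu n (k + 1) (lift i e) = mu n k e * (1 - th n k e) := by
  have h1 : (k : ℝ) < n := by exact_mod_cast hk
  have h2 : (11 : ℝ) + 10 * ((n : ℝ) - k) ≠ 0 := by
    intro h
    linarith
  unfold mu th
  by_cases h : e.1.1 = e.1.2
  · have h3 : (lift i e).1.1 = (lift i e).1.2 := by
      show (e.1.1, i) = (e.1.2, i)
      rw [h]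
    rw [if_pos h, if_pos h, if_pos h3]
    push_cast
    field_simp
    ring
  · have h3 : ¬ (lift i e).1.1 = (lift i e).1.2 := by
      intro h4
      exact h (congrArg Prod.fst h4)
    rw [if_neg h, if_neg h, if_neg h3]
    norm_num

theorem B4p_mu_crs {n k : ℕ} (u : Idx 2 k) (i j : Fin 2) (h : i ≠ j) :
    mu n (k + 1) (crs u i j h) = 1 := by
  unfold mu
  rw [if_neg]
  intro h4
  exact h (congrArg Prod.snd h4)

theorem next_row {N k : ℕ} (hsum : ∀ (F : Ed (k + 1) → ℝ) (u : Idx 2 k) (i j : Fin 2) (h : i ≠ j),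
      ∑ e : Ed (k + 1) with e.1.1 = (u, i), F e =
        ∑ e : Ed k with e.1.1 = u, F (lift i e) + F (crs u i j h)) (f : Fin N → Fin N → ℝ) (φ : ℝ) (hφ : 0 < φ) (n p : ℕ) (hp : 1 ≤ p)
    (hk : k < n) (S : St N k) (hV : Valid f S) (Z : Sys (Idx 2 k) (Idx 2 k) (Ed k))
    (hZ : IsSys f φ n p S Z) (R T : Bool → Ed k → ℝ) (hRT : SplitOK Z p R T) (u : Idx 2 k)
    (i : Fin 2) : (S.next φ n p Z R T).X φ n (u, i) ≤ S.X φ n u * (1 + 2002 / p) := by
  obtain ⟨j, hij⟩ : ∃ j : Fin 2, i ≠ j := by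
    refine ⟨if i = 0 then 1 else 0, ?_⟩
    fin_cases i <;> simp
  have hp0 : (0 : ℝ) < p := by exact_mod_cast hp
  set b := bit i with hb
  have hX0 : 0 < S.X φ n u := by
    unfold St.X
    have : 0 ≤ ∑ e : Ed k with e.1.1 = u, mu n k e * S.r e :=
      Finset.sum_nonneg fun e _ => mul_nonneg (B4p_mu_pos hk e).le (hV.r_nn e)
    linarith
  have h1 : (S.next φ n p Z R T).X φ n (u, i) =
      φ + (∑ e : Ed k with e.1.1 = u, mu n k e * (1 - Z.θ e) * (S.r e * R b e) +
        (10 * S.r (dg u) * Z.row b (dg u) + S.X φ n u / p)) := by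
    have hs := hsum (fun e => mu n (k + 1) e * (S.next φ n p Z R T).r e) u i j hij
    have h0 : (S.next φ n p Z R T).X φ n (u, i) = φ + ∑ e : Ed (k + 1) with e.1.1 = (u, i),
        mu n (k + 1) e * (S.next φ n p Z R T).r e := by
      refine congrArg (φ + ·) (Finset.sum_congr ?_ fun _ _ => rfl)
      ext e
      rw [Finset.mem_filter, Finset.mem_filter]
      exact Iff.rfl
    rw [h0, hs]
    congr 2
    · refine Finset.sum_congr rfl fun e _ => ?_
      have h2 : (S.next φ n p Z R T).r (lift i e) = S.r e * R b e := by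
        show (if i = i then S.r (down (lift i e)) * R (bit i) (down (lift i e)) else _) = _
        rw [if_pos rfl, B4p_down_lift]
      rw [h2, B4p_mu_lift hk, hZ.hθ]
    · rw [B4p_mu_crs, one_mul]
      show (if i = j then _ else 10 * S.r (down (crs u i j hij)) * Z.row (bit i) (down (crs u i j hij)) +
        S.X φ n u / p) = _
      rw [if_neg hij, B4p_down_crs]
  have h2 : 10 * S.r (dg u) * Z.row b (dg u) =
      ∑ e : Ed k with e.1.1 = u, mu n k e * Z.θ e * (S.r e * Z.row b e) := by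
    rw [Finset.sum_eq_single (dg u)]
    · rw [hZ.hθ]
      have h3 : mu n k (dg u) * th n k (dg u) = 10 := by
        have h4 := (B4p_mu_pos hk (dg u)).ne'
        unfold mu at h4 ⊢
        unfold th
        have h5 : (dg u).1.1 = (dg u).1.2 := rfl
        rw [if_pos h5] at h4 ⊢
        rw [if_pos h5]
        field_simp
      rw [h3]
      ring
    · intro e he hne
      rw [hZ.hθ, th, if_neg, mul_zero, zero_mul]
      intro h3
      apply hne
      have h4 := (Finset.mem_filter.1 he).2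
      apply Subtype.ext
      apply Prod.ext
      · exact h4
      · exact h3.symm.trans h4
    · intro h
      exact absurd (Finset.mem_filter.2 ⟨Finset.mem_univ (dg u), (rfl : (dg u).1.1 = u)⟩) h
  have h3 : ∀ e ∈ (Finset.univ : Finset (Ed k)).filter (fun e => e.1.1 = u),
      mu n k e * S.r e = S.X φ n u * Z.x e := by
    intro e he
    have h4 := (Finset.mem_filter.1 he).2
    rw [hZ.hx, h4]
    field_simp
  have h4 := hRT.2.2.2.1 b u
  have h5 : ∑ e with Z.s e = u, Z.x e * ((1 - Z.θ e) * R b e + Z.θ e * Z.row b e - 1) =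
      ∑ e : Ed k with e.1.1 = u, Z.x e * ((1 - Z.θ e) * R b e + Z.θ e * Z.row b e - 1) := by
    refine Finset.sum_congr ?_ fun _ _ => rfl
    ext e
    simp only [Finset.mem_filter, hZ.hs]
  rw [h5] at h4
  have h6 : S.X φ n u = φ + S.X φ n u * ∑ e : Ed k with e.1.1 = u, Z.x e := by
    rw [Finset.mul_sum, ← Finset.sum_congr rfl h3]
    rfl
  have h7 : (S.next φ n p Z R T).X φ n (u, i) = S.X φ n u + S.X φ n u *
      (∑ e : Ed k with e.1.1 = u, Z.x e * ((1 - Z.θ e) * R b e + Z.θ e * Z.row b e - 1)) +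
        S.X φ n u / p := by
    rw [h1, h2]
    have h8 : ∑ e : Ed k with e.1.1 = u, mu n k e * (1 - Z.θ e) * (S.r e * R b e) +
        ∑ e : Ed k with e.1.1 = u, mu n k e * Z.θ e * (S.r e * Z.row b e) =
        S.X φ n u * (∑ e : Ed k with e.1.1 = u,
          Z.x e * ((1 - Z.θ e) * R b e + Z.θ e * Z.row b e - 1)) +
          S.X φ n u * ∑ e : Ed k with e.1.1 = u, Z.x e := by
      rw [← Finset.sum_add_distrib, Finset.mul_sum, Finset.mul_sum, ← Finset.sum_add_distrib]
      refine Finset.sum_congr rfl fun e he => ?_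
      have h9 := h3 e he
      calc mu n k e * (1 - Z.θ e) * (S.r e * R b e) + mu n k e * Z.θ e * (S.r e * Z.row b e) =
            (mu n k e * S.r e) * ((1 - Z.θ e) * R b e + Z.θ e * Z.row b e) := by ring
        _ = _ := by rw [h9]; ring
    linarith
  rw [h7]
  have h8 := mul_le_mul_of_nonneg_left h4 hX0.le
  calc _ ≤ S.X φ n u + S.X φ n u * (2001 / p) + S.X φ n u / p := by linarith
    _ = S.X φ n u * (1 + 2002 / p) := by ring

end Pool.Agent.Helper53.OC
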