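import Mathlib
import Pool.Agent.Helper53.OC.DefsB

/-!
Ordered Ramsey numbers of the cube (MP_09b4c2): column loads of the next state.
-/

namespace Pool.Agent.Helper53.OC

open Finset
open Pool.Agent.Helper96.OR (Idx adj rank)

theorem B4q_down_lift {k : ℕ} (i : Fin 2) (e : Ed k) : down (lift i e) = e := Subtype.ext rfl

theorem B4q_down_crs {k : ℕ} (u : Idx 2 k) (i j : Fin 2) (h : i ≠ j) :
    down (crs u i j h) = dg u := Subtype.ext rfl

theorem B4q_pos {n k : ℕ} (hk : k < n) : (0 : ℝ) < 11 + 10 * ((n : ℝ) - k) := by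
  have : (k : ℝ) < n := by exact_mod_cast hk
  linarith

theorem B4q_mu_lift {n k : ℕ} (hk : k < n) (i : Fin 2) (e : Ed k) :
    mu n (k + 1) (lift i e) = mu n k e * (1 - th n k e) := by
  have hp := B4q_pos hk
  unfold mu th
  by_cases he : e.1.1 = e.1.2
  · have h1 : (lift i e).1.1 = (lift i e).1.2 := by
      change (e.1.1, i) = (e.1.2, i)
      rw [he]
    rw [if_pos h1, if_pos he, if_pos he]
    push_cast
    field_simp
    ring
  · have h1 : ¬ (lift i e).1.1 = (lift i e).1.2 := by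
      intro h
      exact he (congrArg Prod.fst h)
    rw [if_neg h1, if_neg he, if_neg he]
    ring

theorem B4q_mu_crs {n k : ℕ} (u : Idx 2 k) (i j : Fin 2) (h : i ≠ j) :
    mu n (k + 1) (crs u i j h) = 1 := by
  unfold mu
  rw [if_neg]
  intro h1
  exact h (congrArg Prod.snd h1)

theorem B4q_mu_nonneg {n k : ℕ} (hk : k < n) (e : Ed k) : 0 ≤ mu n k e := by
  unfold mu
  split_ifs
  · exact (B4q_pos hk).le
  · exact zero_le_one

/-- the sum of the parts used by the cross edges -/
theorem B4q_theta {n k : ℕ} (hk : k < n) (u : Idx 2 k) (g : Ed k → ℝ) :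
    ∑ e : Ed k with e.1.2 = u, mu n k e * th n k e * g e = 10 * g (dg u) := by
  rw [sum_eq_single_of_mem (dg u)]
  · have h1 : (dg u).1.1 = (dg u).1.2 := rfl
    unfold mu th
    rw [if_pos h1, if_pos h1, mul_div_cancel₀ _ (B4q_pos hk).ne']
  · rw [mem_filter]
    exact ⟨mem_univ _, rfl⟩
  · intro e he hne
    have h1 : ¬ e.1.1 = e.1.2 := by
      intro h
      refine hne (Subtype.ext (Prod.ext ?_ ?_))
      · exact h.trans (mem_filter.1 he).2
      · exact (mem_filter.1 he).2
    unfold th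
    rw [if_neg h1]
    ring

theorem next_col {N k : ℕ} (hsum : ∀ (F : Ed (k + 1) → ℝ) (w : Idx 2 k) (i j : Fin 2) (h : i ≠ j),
      ∑ e : Ed (k + 1) with e.1.2 = (w, j), F e =
        ∑ e : Ed k with e.1.2 = w, F (lift j e) + F (crs w i j h)) (f : Fin N → Fin N → ℝ) (φ : ℝ) (hφ : 0 < φ) (n p : ℕ) (hp : 1 ≤ p)
    (hk : k < n) (S : St N k) (hV : Valid f S) (Z : Sys (Idx 2 k) (Idx 2 k) (Ed k))
    (hZ : IsSys f φ n p S Z) (R T : Bool → Ed k → ℝ) (hRT : SplitOK Z p R T) (u : Idx 2 k)
    (i : Fin 2) : (S.next φ n p Z R T).Y φ n (u, i) ≤ S.Y φ n u * (1 + 2002 / p) := by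
  have hp0 : (0 : ℝ) < p := by exact_mod_cast hp
  obtain ⟨i', hi⟩ : ∃ i' : Fin 2, i' ≠ i := exists_ne i
  have hY : 0 < S.Y φ n u := by
    unfold St.Y
    have : 0 ≤ ∑ e : Ed k with e.1.2 = u, mu n k e * S.s e :=
      sum_nonneg fun e _ => mul_nonneg (B4q_mu_nonneg hk e) (hV.s_nn e)
    linarith
  have hY' : (S.next φ n p Z R T).Y φ n (u, i) = φ + (∑ e : Ed k with e.1.2 = u,
      mu n k e * (1 - th n k e) * (S.s e * T (bit i) e) +
        (10 * (S.s (dg u) * Z.col (bit i) (dg u)) + S.Y φ n u / p)) := by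
    refine (congrArg (fun z => φ + z)
      (hsum (fun e => mu n (k + 1) e * (S.next φ n p Z R T).s e) u i' i hi)).trans ?_
    congr 1
    congr 1
    · refine sum_congr rfl fun e _ => ?_
      rw [B4q_mu_lift hk]
      have : (S.next φ n p Z R T).s (lift i e) = S.s e * T (bit i) e := by
        unfold St.next
        have h1 : (lift i e).1.1.2 = (lift i e).1.2.2 := rfl
        simp only
        rw [if_pos h1, B4q_down_lift]
        rfl
      rw [this]
    · rw [B4q_mu_crs, one_mul]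
      unfold St.next
      have h1 : ¬ (crs u i' i hi).1.1.2 = (crs u i' i hi).1.2.2 := hi
      simp only
      rw [if_neg h1, B4q_down_crs]
      have h2 : (crs u i' i hi).1.2.2 = i := rfl
      have h3 : (crs u i' i hi).1.2.1 = u := rfl
      rw [h2, h3]
      ring
  have hT := hRT.2.2.2.2.1 (bit i) u
  have hsumT : ∑ e with Z.t e = u, Z.y e *
      ((1 - Z.θ e) * T (bit i) e + Z.θ e * Z.col (bit i) e - 1) =
      (∑ e : Ed k with e.1.2 = u, (mu n k e * (1 - th n k e) * (S.s e * T (bit i) e) +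
        mu n k e * th n k e * (S.s e * Z.col (bit i) e) - mu n k e * S.s e)) / S.Y φ n u := by
    rw [sum_div]
    have hf : (univ.filter fun e => Z.t e = u) = univ.filter fun e : Ed k => e.1.2 = u := by
      refine filter_congr fun e _ => ?_
      rw [hZ.ht]
    rw [hf]
    refine sum_congr rfl fun e he => ?_
    rw [hZ.hy, hZ.hθ, (mem_filter.1 he).2]
    ring
  rw [hsumT, div_le_iff₀ hY] at hT
  rw [sum_sub_distrib, sum_add_distrib, B4q_theta hk u fun e => S.s e * Z.col (bit i) e] at hT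
  have hYdef : S.Y φ n u = φ + ∑ e : Ed k with e.1.2 = u, mu n k e * S.s e := rfl
  have h2 : S.Y φ n u * (1 + 2002 / p) = S.Y φ n u + 2001 / p * S.Y φ n u + S.Y φ n u / p := by
    field_simp
    ring
  rw [hY', h2]
  linarith

end Pool.Agent.Helper53.OC
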