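import Mathlib
import Pool.Agent.Helper53.OC.DefsB

namespace Pool.Agent.Helper53.OC

open Finset
open Pool.Agent.Helper96.OR (Idx adj rank)

theorem B4r_mu_pos {n k : ℕ} (hk : k ≤ n) (e : Ed k) : 0 < mu n k e := by
  unfold mu
  split_ifs
  · have : (k : ℝ) ≤ n := by exact_mod_cast hk
    nlinarith
  · exact one_pos

theorem B4r_X_nn {N k : ℕ} (φ : ℝ) (hφ : 0 < φ) (n : ℕ) (hk : k ≤ n) (S : St N k)
    (hr : ∀ e, 0 ≤ S.r e) (u : Idx 2 k) : 0 ≤ S.X φ n u := by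
  unfold St.X
  have : 0 ≤ ∑ e : Ed k with e.1.1 = u, mu n k e * S.r e :=
    sum_nonneg fun e _ => mul_nonneg (B4r_mu_pos hk e).le (hr e)
  linarith

theorem B4r_Y_nn {N k : ℕ} (φ : ℝ) (hφ : 0 < φ) (n : ℕ) (hk : k ≤ n) (S : St N k)
    (hs : ∀ e, 0 ≤ S.s e) (w : Idx 2 k) : 0 ≤ S.Y φ n w := by
  unfold St.Y
  have : 0 ≤ ∑ e : Ed k with e.1.2 = w, mu n k e * S.s e :=
    sum_nonneg fun e _ => mul_nonneg (B4r_mu_pos hk e).le (hs e)
  linarith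

theorem B4r_sum (k : ℕ) (F : Idx 2 (k + 1) → ℝ) :
    ∑ u, F u = ∑ u : Idx 2 k, (F (u, 0) + F (u, 1)) := by
  have h : ∑ u, F u = ∑ u : Idx 2 k, ∑ i : Fin 2, F (u, i) :=
    Fintype.sum_prod_type (f := F)
  rw [h]
  exact sum_congr rfl fun u _ => Fin.sum_univ_two _

theorem B4r_step (p : ℕ) (hp : 1 ≤ p) (X X' : ℝ) (β : ℕ) (hX' : 0 ≤ X') (hX : 0 ≤ X)
    (h : X' ≤ X * (1 + 2002 / p)) :
    (X' * (1 + 1 / (1000 * p)) ^ (β + 1)) ^ p ≤
      Real.exp 2003 * (X * (1 + 1 / (1000 * p)) ^ β) ^ p := by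
  have hp0 : (0 : ℝ) < p := by exact_mod_cast hp
  have hl : (0 : ℝ) < 1 + 1 / (1000 * p) := by positivity
  have h1 : X' * (1 + 1 / (1000 * p)) ^ (β + 1) ≤
      (X * (1 + 1 / (1000 * p)) ^ β) * ((1 + 2002 / p) * (1 + 1 / (1000 * p))) := by
    calc X' * (1 + 1 / (1000 * p)) ^ (β + 1)
        ≤ (X * (1 + 2002 / p)) * (1 + 1 / (1000 * p)) ^ (β + 1) := by
          gcongr
      _ = _ := by rw [pow_succ]; ring
  have h2 : ((1 + 2002 / (p : ℝ)) * (1 + 1 / (1000 * p))) ^ p ≤ Real.exp 2003 := by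
    have e1 : 1 + 2002 / (p : ℝ) ≤ Real.exp (2002 / p) := by
      have := Real.add_one_le_exp (2002 / (p : ℝ))
      linarith
    have e2 : 1 + 1 / (1000 * (p : ℝ)) ≤ Real.exp (1 / (1000 * p)) := by
      have := Real.add_one_le_exp (1 / (1000 * (p : ℝ)))
      linarith
    calc ((1 + 2002 / (p : ℝ)) * (1 + 1 / (1000 * p))) ^ p
        ≤ (Real.exp (2002 / p) * Real.exp (1 / (1000 * p))) ^ p := by
          gcongr
      _ = Real.exp (p * (2002 / p + 1 / (1000 * p))) := by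
          rw [← Real.exp_add, ← Real.exp_nat_mul]
      _ ≤ Real.exp 2003 := by
          apply Real.exp_le_exp.2
          have : (p : ℝ) * (2002 / p + 1 / (1000 * p)) = 2002 + 1 / 1000 := by
            field_simp
          rw [this]
          norm_num
  calc (X' * (1 + 1 / (1000 * p)) ^ (β + 1)) ^ p
      ≤ ((X * (1 + 1 / (1000 * p)) ^ β) * ((1 + 2002 / p) * (1 + 1 / (1000 * p)))) ^ p := by
        gcongr
    _ = (X * (1 + 1 / (1000 * p)) ^ β) ^ p * ((1 + 2002 / (p : ℝ)) * (1 + 1 / (1000 * p))) ^ p :=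
        mul_pow _ _ _
    _ ≤ (X * (1 + 1 / (1000 * p)) ^ β) ^ p * Real.exp 2003 := by
        gcongr
    _ = _ := mul_comm _ _

/-- B4r -/
theorem next_pot {N k : ℕ} (f : Fin N → Fin N → ℝ) (φ : ℝ) (hφ : 0 < φ) (n p : ℕ) (hp : 1 ≤ p)
    (hk : k < n) (S : St N k) (hV : Valid f S) (Z : Sys (Idx 2 k) (Idx 2 k) (Ed k))
    (R T : Bool → Ed k → ℝ) (hV' : Valid f (S.next φ n p Z R T))
    (hr : ∀ u i, (S.next φ n p Z R T).X φ n (u, i) ≤ S.X φ n u * (1 + 2002 / p))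
    (hc : ∀ u i, (S.next φ n p Z R T).Y φ n (u, i) ≤ S.Y φ n u * (1 + 2002 / p)) :
    (S.next φ n p Z R T).pot φ n p ≤ 2 * Real.exp 2003 * S.pot φ n p := by
  have hR : ∀ u i, ((S.next φ n p Z R T).X φ n (u, i) *
      (1 + 1 / (1000 * p)) ^ (S.next φ n p Z R T).β (u, i)) ^ p ≤
      Real.exp 2003 * (S.X φ n u * (1 + 1 / (1000 * p)) ^ S.β u) ^ p := fun u i =>
    B4r_step p hp _ _ _ (B4r_X_nn φ hφ n hk _ hV'.r_nn _) (B4r_X_nn φ hφ n hk.le _ hV.r_nn _)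
      (hr u i)
  have hC : ∀ u i, ((S.next φ n p Z R T).Y φ n (u, i) *
      (1 + 1 / (1000 * p)) ^ (S.next φ n p Z R T).γ (u, i)) ^ p ≤
      Real.exp 2003 * (S.Y φ n u * (1 + 1 / (1000 * p)) ^ S.γ u) ^ p := fun u i =>
    B4r_step p hp _ _ _ (B4r_Y_nn φ hφ n hk _ hV'.s_nn _) (B4r_Y_nn φ hφ n hk.le _ hV.s_nn _)
      (hc u i)
  unfold St.pot
  rw [B4r_sum, B4r_sum, mul_add, mul_sum, mul_sum]
  apply add_le_add
  · apply sum_le_sum
    intro u _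
    have h0 := hR u 0
    have h1 := hR u 1
    linarith
  · apply sum_le_sum
    intro u _
    have h0 := hC u 0
    have h1 := hC u 1
    linarith

end Pool.Agent.Helper53.OC
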