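import Mathlib
import Pool.Agent.Helper53.OC.DefsB
import Pool.Agent.Helper96.OR.M9

/-!
Ordered Ramsey numbers of the cube (MP_09b4c2): the next state is valid (module B4v).
-/

namespace Pool.Agent.Helper53.OC

open Finset
open Pool.Agent.Helper96.OR (Idx adj rank)

/-- form of a nonnegative matrix -/
theorem B4v_dn_nn {N : ℕ} (f : Fin N → Fin N → ℝ) (hf : ∀ x y, 0 < f x y) (P Q : Fin N → ℝ)
    (hP : ∀ x, 0 ≤ P x) (hQ : ∀ x, 0 ≤ Q x) : 0 ≤ dn f P Q :=
  sum_nonneg fun x _ => sum_nonneg fun y _ => mul_nonneg (mul_nonneg (hP x) (hQ y)) (hf x y).le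

theorem B4v_dn_pos {N : ℕ} (f : Fin N → Fin N → ℝ) (hf : ∀ x y, 0 < f x y) (P Q : Fin N → ℝ)
    (hP : ∀ x, 0 ≤ P x) (hQ : ∀ x, 0 ≤ Q x) (hP1 : ∑ x, P x = 1) (hQ1 : ∑ x, Q x = 1) :
    0 < dn f P Q := by
  obtain ⟨x, _, hx⟩ := exists_ne_zero_of_sum_ne_zero (by rw [hP1]; exact one_ne_zero)
  obtain ⟨y, _, hy⟩ := exists_ne_zero_of_sum_ne_zero (by rw [hQ1]; exact one_ne_zero)
  have hx0 : 0 < P x := lt_of_le_of_ne (hP x) (Ne.symm hx)
  have hy0 : 0 < Q y := lt_of_le_of_ne (hQ y) (Ne.symm hy)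
  have h1 : 0 < P x * Q y * f x y := mul_pos (mul_pos hx0 hy0) (hf x y)
  have h2 : P x * Q y * f x y ≤ ∑ y, P x * Q y * f x y :=
    single_le_sum (f := fun y => P x * Q y * f x y)
      (fun y _ => mul_nonneg (mul_nonneg (hP x) (hQ y)) (hf x y).le) (mem_univ y)
  have h3 : ∑ y, P x * Q y * f x y ≤ dn f P Q :=
    single_le_sum (f := fun x => ∑ y, P x * Q y * f x y)
      (fun x _ => sum_nonneg fun y _ => mul_nonneg (mul_nonneg (hP x) (hQ y)) (hf x y).le)
      (mem_univ x)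
  linarith

/-- a product of halves vanishes with the product -/
theorem B4v_zero {N : ℕ} (hH : HalfFacts N) (P P' : Fin N → ℝ) (hP : ∀ x, 0 ≤ P x)
    (hP1 : ∑ x, P x = 1) (hP' : ∀ x, 0 ≤ P' x) (hP1' : ∑ x, P' x = 1) (b b' : Bool) (x x' : Fin N)
    (h : P x * P' x' = 0) : half b P x * half b' P' x' = 0 := by
  have h1 := hH P hP hP1
  have h2 := hH P' hP' hP1'
  rcases mul_eq_zero.1 h with h3 | h3
  · have h4 := h1.1 b x
    have h5 := h1.2.2.1 b x
    rw [h3, mul_zero] at h5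
    rw [le_antisymm h5 h4, zero_mul]
  · have h4 := h2.1 b' x'
    have h5 := h2.2.2.1 b' x'
    rw [h3, mul_zero] at h5
    rw [le_antisymm h5 h4, mul_zero]

/-- order of the windows of the next level -/
theorem B4v_ord {N k : ℕ} (hH : HalfFacts N) (P : Idx 2 k → Fin N → ℝ) (hP : ∀ u x, 0 ≤ P u x)
    (hP1 : ∀ u, ∑ x, P u x = 1)
    (hord : ∀ u u' x x', rank k u < rank k u' → x' < x → P u x * P u' x' = 0)
    (u u' : Idx 2 (k + 1)) (x x' : Fin N) (hr : rank (k + 1) u < rank (k + 1) u') (hx : x' < x) :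
    half (bit u.2) (P u.1) x * half (bit u'.2) (P u'.1) x' = 0 := by
  have hr' : rank k u.1 * 2 + (u.2 : ℕ) < rank k u'.1 * 2 + (u'.2 : ℕ) := hr
  have h2 : (u.2 : ℕ) < 2 := u.2.2
  have h2' : (u'.2 : ℕ) < 2 := u'.2.2
  rcases lt_or_ge (rank k u.1) (rank k u'.1) with h | h
  · exact B4v_zero hH _ _ (hP _) (hP1 _) (hP _) (hP1 _) _ _ _ _ (hord _ _ _ _ h hx)
  · have h3 : rank k u.1 = rank k u'.1 := by omega
    have h4 : u.1 = u'.1 := Pool.Agent.Helper96.OR.rank_inj 2 k h3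
    have h5 : (u.2 : ℕ) = 0 := by omega
    have h6 : (u'.2 : ℕ) = 1 := by omega
    have h7 : bit u.2 = true := by
      unfold bit
      exact decide_eq_true (Fin.ext h5)
    have h8 : bit u'.2 = false := by
      unfold bit
      apply decide_eq_false
      intro h
      rw [h] at h6
      exact absurd h6 (by decide)
    rw [h7, h8, ← h4]
    exact (hH (P u.1) (hP _) (hP1 _)).2.2.2.2 x x' hx

theorem B4v_bit {i j : Fin 2} (h : i ≠ j) : bit j = !(bit i) := by
  fin_cases i <;> fin_cases j <;> simp_all [bit]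

/-- the cross certificate -/
theorem B4v_cross (q row col r s X Y μ p d : ℝ) (hp : 0 < p) (hX : 0 < X) (hY : 0 < Y)
    (hμ : 0 < μ) (hr : 0 < r) (hs : 0 < s) (hrow : 0 < row) (hcol : 0 < col) (hd : 0 ≤ d)
    (hds : d ≤ r * s)
    (h : q ≤ 100 * (row + 1 / (p * (10 / μ * (μ * r / X)))) *
      (col + 1 / (p * (10 / μ * (μ * s / Y))))) :
    q * d ≤ (10 * r * row + X / p) * (10 * s * col + Y / p) := by
  have e1 : 1 / (p * (10 / μ * (μ * r / X))) = X / (10 * p * r) := by field_simp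
  have e2 : 1 / (p * (10 / μ * (μ * s / Y))) = Y / (10 * p * s) := by field_simp
  rw [e1, e2] at h
  have e3 : (10 * r * row + X / p) * (10 * s * col + Y / p) =
      100 * (row + X / (10 * p * r)) * (col + Y / (10 * p * s)) * (r * s) := by
    field_simp
    norm_num
  rw [e3]
  calc q * d ≤ 100 * (row + X / (10 * p * r)) * (col + Y / (10 * p * s)) * d :=
        mul_le_mul_of_nonneg_right h hd
    _ ≤ 100 * (row + X / (10 * p * r)) * (col + Y / (10 * p * s)) * (r * s) :=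
        mul_le_mul_of_nonneg_left hds (by positivity)

theorem next_valid {N k : ℕ} (hH : HalfFacts N) (f : Fin N → Fin N → ℝ)
    (hf : ∀ x y, 0 < f x y) (φ : ℝ) (hφ : 0 < φ) (n p : ℕ) (hp : 1 ≤ p) (hk : k < n) (S : St N k)
    (hV : Valid f S) (Z : Sys (Idx 2 k) (Idx 2 k) (Ed k)) (hZ : IsSys f φ n p S Z)
    (R T : Bool → Ed k → ℝ) (hRT : SplitOK Z p R T) : Valid f (S.next φ n p Z R T) := by
  obtain ⟨hR, hT, hRT0, -, -, hcr⟩ := hRT
  have hp0 : (0 : ℝ) < p := by exact_mod_cast hp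
  have hkn : (k : ℝ) + 1 ≤ n := by exact_mod_cast hk
  have hmu : ∀ e : Ed k, 0 < mu n k e := by
    intro e
    unfold mu
    split_ifs
    · linarith
    · exact one_pos
  have hX : ∀ u, 0 < S.X φ n u := by
    intro u
    unfold St.X
    have : 0 ≤ ∑ e : Ed k with e.1.1 = u, mu n k e * S.r e :=
      sum_nonneg fun e _ => mul_nonneg (hmu e).le (hV.r_nn e)
    linarith
  have hY : ∀ u, 0 < S.Y φ n u := by
    intro u
    unfold St.Y
    have : 0 ≤ ∑ e : Ed k with e.1.2 = u, mu n k e * S.s e :=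
      sum_nonneg fun e _ => mul_nonneg (hmu e).le (hV.s_nn e)
    linarith
  have hdn : ∀ e : Ed k, 0 < dn f (S.P e.1.1) (S.Q e.1.2) := fun e =>
    B4v_dn_pos f hf _ _ (hV.P_nn _) (hV.Q_nn _) (hV.P_sum _) (hV.Q_sum _)
  have hrs : ∀ e : Ed k, 0 < S.r e ∧ 0 < S.s e := by
    intro e
    have h1 : 0 < S.r e * S.s e := lt_of_lt_of_le (hdn e) (hV.cert e)
    have h2 := hV.r_nn e
    have h3 := hV.s_nn e
    refine ⟨lt_of_le_of_ne h2 fun h => ?_, lt_of_le_of_ne h3 fun h => ?_⟩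
    · rw [← h, zero_mul] at h1
      exact lt_irrefl _ h1
    · rw [← h, mul_zero] at h1
      exact lt_irrefl _ h1
  refine ⟨fun u x => (hH _ (hV.P_nn _) (hV.P_sum _)).1 _ _,
    fun u x => (hH _ (hV.Q_nn _) (hV.Q_sum _)).1 _ _,
    fun u => (hH _ (hV.P_nn _) (hV.P_sum _)).2.1 _,
    fun u => (hH _ (hV.Q_nn _) (hV.Q_sum _)).2.1 _,
    fun u u' x x' hr hx => B4v_ord hH S.P hV.P_nn hV.P_sum hV.P_ord u u' x x' hr hx,
    fun u u' x x' hr hx => B4v_ord hH S.Q hV.Q_nn hV.Q_sum hV.Q_ord u u' x x' hr hx,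
    ?_, ?_, ?_, ?_, ?_⟩
  · intro u x
    have h1 := (hH _ (hV.P_nn u.1) (hV.P_sum u.1)).2.2.1 (bit u.2) x
    have h2 := hV.P_cap u.1 x
    have h3 : (0 : ℝ) ≤ N := Nat.cast_nonneg _
    change half (bit u.2) (S.P u.1) x * N ≤ 2 ^ (S.β u.1 + 1)
    rw [pow_succ]
    nlinarith
  · intro u x
    have h1 := (hH _ (hV.Q_nn u.1) (hV.Q_sum u.1)).2.2.1 (bit u.2) x
    have h2 := hV.Q_cap u.1 x
    have h3 : (0 : ℝ) ≤ N := Nat.cast_nonneg _
    change half (bit u.2) (S.Q u.1) x * N ≤ 2 ^ (S.γ u.1 + 1)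
    rw [pow_succ]
    nlinarith
  · intro e
    change 0 ≤ if e.1.1.2 = e.1.2.2 then S.r (down e) * R (bit e.1.1.2) (down e)
      else 10 * S.r (down e) * Z.row (bit e.1.1.2) (down e) + S.X φ n e.1.1.1 / p
    have h1 := (hrs (down e)).1
    have h2 := hR (bit e.1.1.2) (down e)
    have h3 := Z.row_pos (bit e.1.1.2) (down e)
    have h4 := hX e.1.1.1
    split_ifs <;> positivity
  · intro e
    change 0 ≤ if e.1.1.2 = e.1.2.2 then S.s (down e) * T (bit e.1.2.2) (down e)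
      else 10 * S.s (down e) * Z.col (bit e.1.2.2) (down e) + S.Y φ n e.1.2.1 / p
    have h1 := (hrs (down e)).2
    have h2 := hT (bit e.1.2.2) (down e)
    have h3 := Z.col_pos (bit e.1.2.2) (down e)
    have h4 := hY e.1.2.1
    split_ifs <;> positivity
  · intro e
    change dn f (half (bit e.1.1.2) (S.P (down e).1.1)) (half (bit e.1.2.2) (S.Q (down e).1.2)) ≤
      (if e.1.1.2 = e.1.2.2 then S.r (down e) * R (bit e.1.1.2) (down e)
      else 10 * S.r (down e) * Z.row (bit e.1.1.2) (down e) + S.X φ n e.1.1.1 / p) *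
      (if e.1.1.2 = e.1.2.2 then S.s (down e) * T (bit e.1.2.2) (down e)
      else 10 * S.s (down e) * Z.col (bit e.1.2.2) (down e) + S.Y φ n e.1.2.1 / p)
    have hq := hZ.hq (bit e.1.1.2) (bit e.1.2.2) (down e)
    have hd := hdn (down e)
    have hc := hV.cert (down e)
    have hq' : dn f (half (bit e.1.1.2) (S.P (down e).1.1)) (half (bit e.1.2.2)
        (S.Q (down e).1.2)) = Z.q (bit e.1.1.2) (bit e.1.2.2) (down e) *
        dn f (S.P (down e).1.1) (S.Q (down e).1.2) := by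
      rw [hq, div_mul_cancel₀ _ hd.ne']
    rw [hq']
    by_cases h : e.1.1.2 = e.1.2.2
    · rw [if_pos h, if_pos h, ← h]
      have h1 := hRT0 (bit e.1.1.2) (down e)
      have h2 := hR (bit e.1.1.2) (down e)
      have h3 := hT (bit e.1.1.2) (down e)
      calc Z.q (bit e.1.1.2) (bit e.1.1.2) (down e) * dn f (S.P (down e).1.1) (S.Q (down e).1.2)
          ≤ (R (bit e.1.1.2) (down e) * T (bit e.1.1.2) (down e)) *
            (S.r (down e) * S.s (down e)) :=
            mul_le_mul h1 hc hd.le (by positivity)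
        _ = _ := by ring
    · rw [if_neg h, if_neg h]
      have hu : e.1.1.1 = e.1.2.1 := by
        rcases e.2 with h1 | h1 | h1
        · exact absurd (congrArg Prod.snd h1) h
        · exact h1.1
        · exact absurd h1.2 h
      have hdiag : (down e).1.1 = (down e).1.2 := hu
      have hθ : Z.θ (down e) = 10 / mu n k (down e) := by
        rw [hZ.hθ]
        unfold th mu
        rw [if_pos hdiag, if_pos hdiag]
      have hθ0 : 0 < Z.θ (down e) := by
        rw [hθ]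
        have := hmu (down e)
        positivity
      have h1 := hcr (bit e.1.1.2) (down e) hθ0
      rw [← B4v_bit h, hθ, hZ.hx, hZ.hy] at h1
      exact B4v_cross _ _ _ _ _ _ _ _ _ _ hp0 (hX _) (hY _) (hmu (down e)) (hrs _).1 (hrs _).2
        (Z.row_pos _ _) (Z.col_pos _ _) hd.le hc h1

end Pool.Agent.Helper53.OC
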