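import Mathlib
import Pool.Agent.Helper53.OC.DefsB

/-!
Ordered Ramsey numbers of the cube (MP_09b4c2): module B7, extraction of the copy from the last state.
-/

namespace Pool.Agent.Helper53.OC

open Finset
open Pool.Agent.Helper96.OR (Idx adj rank)

/-- a good interior point -/
theorem B7_pick {N : ℕ} (P g : Fin N → ℝ) (hP : ∀ x, 0 ≤ P x) (hs : ∑ x, P x = 1)
    (hc : ∀ x, P x ≤ 1 / 8) (hg : ∀ x, 0 ≤ g x) (Z : ℝ) (hZ : ∑ x, P x * g x ≤ Z) :
    ∃ x i j, i < x ∧ x < j ∧ 0 < P i ∧ 0 < P j ∧ g x ≤ 4 / 3 * Z := by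
  classical
  set s : Finset (Fin N) := univ.filter fun x => 0 < P x with hsdef
  have hne : s.Nonempty := by
    by_contra h
    rw [not_nonempty_iff_eq_empty] at h
    have : ∑ x, P x = 0 := by
      refine sum_eq_zero fun x _ => ?_
      by_contra hx
      have h1 : x ∈ s := by
        rw [hsdef, mem_filter]
        exact ⟨mem_univ x, lt_of_le_of_ne (hP x) (Ne.symm hx)⟩
      rw [h] at h1
      exact notMem_empty x h1
    linarith
  set i := s.min' hne with hi
  set j := s.max' hne with hj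
  have hPi : 0 < P i := (mem_filter.1 (s.min'_mem hne)).2
  have hPj : 0 < P j := (mem_filter.1 (s.max'_mem hne)).2
  have hZ0 : 0 ≤ Z := (sum_nonneg fun x _ => mul_nonneg (hP x) (hg x)).trans hZ
  by_contra hcon
  have hcon' : ∀ x, i < x → x < j → 4 / 3 * Z < g x := by
    intro x h1 h2
    by_contra h3
    exact hcon ⟨x, i, j, h1, h2, hPi, hPj, not_lt.1 h3⟩
  set I : Finset (Fin N) := univ.filter fun x => i < x ∧ x < j with hI
  have hsum : 3 / 4 ≤ ∑ x ∈ I, P x := by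
    have h1 : ∑ x ∈ I, P x + ∑ x ∈ univ.filter (fun x => ¬ (i < x ∧ x < j)), P x = ∑ x, P x :=
      sum_filter_add_sum_filter_not _ _ _
    have h2 : ∑ x ∈ univ.filter (fun x => ¬ (i < x ∧ x < j)), P x ≤ ∑ x ∈ ({i, j} : Finset _), P x := by
      rw [← sum_filter_ne_zero]
      refine sum_le_sum_of_subset_of_nonneg (fun x hx' => ?_) fun x _ _ => hP x
      obtain ⟨hx, hx0⟩ := mem_filter.1 hx'
      have h3 : x ∈ s := by
        rw [hsdef, mem_filter]
        exact ⟨mem_univ x, lt_of_le_of_ne (hP x) (Ne.symm hx0)⟩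
      have h4 : i ≤ x := s.min'_le x h3
      have h5 : x ≤ j := s.le_max' x h3
      have h6 := (mem_filter.1 hx).2
      rw [mem_insert, mem_singleton]
      by_contra h7
      rw [not_or] at h7
      exact h6 ⟨lt_of_le_of_ne h4 (Ne.symm h7.1), lt_of_le_of_ne h5 h7.2⟩
    have h3 : ∑ x ∈ ({i, j} : Finset _), P x ≤ P i + P j := by
      by_cases hij : i = j
      · rw [hij, pair_eq_singleton, sum_singleton]
        linarith [hP j]
      · rw [sum_pair hij]
    have := hc i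
    have := hc j
    linarith
  have h1 : ∑ x ∈ I, P x * (4 / 3 * Z) < ∑ x ∈ I, P x * g x := by
    have hex : ∃ x ∈ I, 0 < P x := by
      by_contra h
      have : ∑ x ∈ I, P x ≤ 0 := by
        refine sum_nonpos fun x hx => ?_
        by_contra h2
        exact h ⟨x, hx, not_le.1 h2⟩
      linarith
    obtain ⟨x, hx, hx0⟩ := hex
    refine sum_lt_sum (fun y hy => ?_) ⟨x, hx, ?_⟩
    · have := (mem_filter.1 hy).2
      exact mul_le_mul_of_nonneg_left (hcon' y this.1 this.2).le (hP y)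
    · have := (mem_filter.1 hx).2
      exact mul_lt_mul_of_pos_left (hcon' x this.1 this.2) hx0
  have h2 : ∑ x ∈ I, P x * g x ≤ ∑ x, P x * g x :=
    sum_le_sum_of_subset_of_nonneg (filter_subset _ _) fun x _ _ => mul_nonneg (hP x) (hg x)
  rw [← sum_mul] at h1
  nlinarith

theorem B7_pos {N : ℕ} (P : Fin N → ℝ) (f : Fin N → ℝ) (hP : ∀ x, 0 ≤ P x) (hs : ∑ x, P x = 1)
    (hf : ∀ x, 0 < f x) : 0 < ∑ x, P x * f x := by
  by_contra h
  have h1 : ∑ x, P x * f x = 0 :=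
    le_antisymm (not_lt.1 h) (sum_nonneg fun x _ => mul_nonneg (hP x) (hf x).le)
  rw [sum_eq_zero_iff_of_nonneg fun x _ => mul_nonneg (hP x) (hf x).le] at h1
  have h2 : ∑ x, P x = 0 := sum_eq_zero fun x hx => by
    rcases mul_eq_zero.1 (h1 x hx) with h3 | h3
    · exact h3
    · exact absurd h3 (hf x).ne'
  linarith

theorem B7_dn {N : ℕ} (f : Fin N → Fin N → ℝ) (P Q : Fin N → ℝ) :
    dn f P Q = ∑ y, Q y * ∑ x, P x * f x y := by
  unfold dn
  rw [sum_comm]
  refine sum_congr rfl fun y _ => ?_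
  rw [mul_sum]
  exact sum_congr rfl fun x _ => by ring

theorem B7_mu (n : ℕ) (e : Ed n) : 1 ≤ mu n n e := by
  unfold mu
  split_ifs
  · norm_num
  · exact le_rfl

theorem extract {N n : ℕ} (f : Fin N → Fin N → ℝ) (hf : ∀ x y, 0 < f x y) (φ : ℝ) (hφ : 0 < φ)
    (S : St N n) (hV : Valid f S) (hX : ∀ u, S.X φ n u ≤ 1 / 4) (hY : ∀ w, S.Y φ n w ≤ 1 / 4)
    (hP : ∀ u x, S.P u x ≤ 1 / 8) (hQ : ∀ w y, S.Q w y ≤ 1 / 8) :
    ∃ r c : Idx 2 n → Fin N, (∀ u u', rank n u < rank n u' → r u < r u') ∧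
      (∀ w w', rank n w < rank n w' → c w < c w') ∧ ∀ e : Ed n, f (r e.1.1) (c e.1.2) < 1 := by
  classical
  have ha : ∀ u y, 0 < ∑ x, S.P u x * f x y := fun u y =>
    B7_pos (S.P u) (fun x => f x y) (hV.P_nn u) (hV.P_sum u) fun x => hf x y
  have hdn : ∀ u w, 0 < dn f (S.P u) (S.Q w) := by
    intro u w
    rw [B7_dn]
    exact B7_pos (S.Q w) _ (hV.Q_nn w) (hV.Q_sum w) fun y => ha u y
  have hsY : ∀ w, ∑ e : Ed n with e.1.2 = w, S.s e ≤ 1 / 4 := by
    intro w
    refine le_trans ?_ (hY w)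
    unfold St.Y
    have : ∑ e : Ed n with e.1.2 = w, S.s e ≤ ∑ e : Ed n with e.1.2 = w, mu n n e * S.s e :=
      sum_le_sum fun e _ => le_mul_of_one_le_left (hV.s_nn e) (B7_mu n e)
    linarith
  have hrX : ∀ u, ∑ e : Ed n with e.1.1 = u, S.r e ≤ 1 / 4 := by
    intro u
    refine le_trans ?_ (hX u)
    unfold St.X
    have : ∑ e : Ed n with e.1.1 = u, S.r e ≤ ∑ e : Ed n with e.1.1 = u, mu n n e * S.r e :=
      sum_le_sum fun e _ => le_mul_of_one_le_left (hV.r_nn e) (B7_mu n e)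
    linarith
  -- the columns
  have hcol : ∀ w, ∃ y i j, i < y ∧ y < j ∧ 0 < S.Q w i ∧ 0 < S.Q w j ∧
      (∑ e : Ed n with e.1.2 = w, S.s e * (∑ x, S.P e.1.1 x * f x y) /
        dn f (S.P e.1.1) (S.Q w)) ≤ 4 / 3 * (1 / 4) := by
    intro w
    refine B7_pick (S.Q w) (fun y => ∑ e : Ed n with e.1.2 = w,
      S.s e * (∑ x, S.P e.1.1 x * f x y) / dn f (S.P e.1.1) (S.Q w)) (hV.Q_nn w) (hV.Q_sum w)
      (hQ w) (fun y => ?_) (1 / 4) ?_
    · exact sum_nonneg fun e _ =>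
        div_nonneg (mul_nonneg (hV.s_nn e) (ha _ _).le) (hdn _ _).le
    · refine le_trans (le_of_eq ?_) (hsY w)
      simp only [mul_sum (s := univ.filter fun e : Ed n => e.1.2 = w)]
      rw [sum_comm]
      refine sum_congr rfl fun e _ => ?_
      have h1 : ∀ y, S.Q w y * (S.s e * (∑ x, S.P e.1.1 x * f x y) /
          dn f (S.P e.1.1) (S.Q w)) = S.s e / dn f (S.P e.1.1) (S.Q w) *
          (S.Q w y * ∑ x, S.P e.1.1 x * f x y) := fun y => by ring
      rw [sum_congr rfl fun y _ => h1 y, ← mul_sum, ← B7_dn, div_mul_cancel₀ _ (hdn _ _).ne']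
  choose c c0 c1 hc0 hc1 hQ0 hQ1 hc using hcol
  have hrow : ∀ u, ∃ x i j, i < x ∧ x < j ∧ 0 < S.P u i ∧ 0 < S.P u j ∧
      (∑ e : Ed n with e.1.1 = u, S.r e * f x (c e.1.2) /
        (∑ x', S.P u x' * f x' (c e.1.2))) ≤ 4 / 3 * (1 / 4) := by
    intro u
    refine B7_pick (S.P u) (fun x => ∑ e : Ed n with e.1.1 = u, S.r e * f x (c e.1.2) /
        (∑ x', S.P u x' * f x' (c e.1.2))) (hV.P_nn u) (hV.P_sum u)
      (hP u) (fun x => ?_) (1 / 4) ?_
    · exact sum_nonneg fun e _ =>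
        div_nonneg (mul_nonneg (hV.r_nn e) (hf _ _).le) (ha _ _).le
    · refine le_trans (le_of_eq ?_) (hrX u)
      simp only [mul_sum (s := univ.filter fun e : Ed n => e.1.1 = u)]
      rw [sum_comm]
      refine sum_congr rfl fun e _ => ?_
      have h1 : ∀ x, S.P u x * (S.r e * f x (c e.1.2) /
          (∑ x', S.P u x' * f x' (c e.1.2))) = S.r e / (∑ x', S.P u x' * f x' (c e.1.2)) *
          (S.P u x * f x (c e.1.2)) := fun x => by ring
      rw [sum_congr rfl fun x _ => h1 x, ← mul_sum, div_mul_cancel₀ _ (ha _ _).ne']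
  choose r r0 r1 hr0 hr1 hP0 hP1 hr using hrow
  refine ⟨r, c, fun u u' h => ?_, fun w w' h => ?_, fun e => ?_⟩
  · have h1 : r1 u ≤ r0 u' := by
      by_contra h2
      have := hV.P_ord u u' (r1 u) (r0 u') h (not_le.1 h2)
      have h3 := mul_pos (hP1 u) (hP0 u')
      linarith
    exact (hr1 u).trans (h1.trans_lt (hr0 u'))
  · have h1 : c1 w ≤ c0 w' := by
      by_contra h2
      have := hV.Q_ord w w' (c1 w) (c0 w') h (not_le.1 h2)
      have h3 := mul_pos (hQ1 w) (hQ0 w')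
      linarith
    exact (hc1 w).trans (h1.trans_lt (hc0 w'))
  · have h1 : S.s e * (∑ x, S.P e.1.1 x * f x (c e.1.2)) / dn f (S.P e.1.1) (S.Q e.1.2) ≤
        4 / 3 * (1 / 4) := by
      refine le_trans ?_ (hc e.1.2)
      exact single_le_sum (f := fun e' : Ed n => S.s e' * (∑ x, S.P e'.1.1 x * f x (c e.1.2)) /
        dn f (S.P e'.1.1) (S.Q e.1.2)) (fun e' _ => div_nonneg (mul_nonneg (hV.s_nn e')
          (ha _ _).le) (hdn _ _).le) (mem_filter.2 ⟨mem_univ e, rfl⟩)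
    have h2 : S.r e * f (r e.1.1) (c e.1.2) / (∑ x', S.P e.1.1 x' * f x' (c e.1.2)) ≤
        4 / 3 * (1 / 4) := by
      refine le_trans ?_ (hr e.1.1)
      exact single_le_sum (f := fun e' : Ed n => S.r e' * f (r e.1.1) (c e'.1.2) /
        (∑ x', S.P e.1.1 x' * f x' (c e'.1.2))) (fun e' _ => div_nonneg (mul_nonneg (hV.r_nn e')
          (hf _ _).le) (ha _ _).le) (mem_filter.2 ⟨mem_univ e, rfl⟩)
    have hD := hdn e.1.1 e.1.2
    have hA := ha e.1.1 (c e.1.2)
    have hF := hf (r e.1.1) (c e.1.2)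
    have hcert := hV.cert e
    rw [div_le_iff₀ hD] at h1
    rw [div_le_iff₀ hA] at h2
    set D := dn f (S.P e.1.1) (S.Q e.1.2)
    set A := ∑ x, S.P e.1.1 x * f x (c e.1.2)
    set F := f (r e.1.1) (c e.1.2)
    have h3 : (S.s e * A) * (S.r e * F) ≤ (4 / 3 * (1 / 4) * D) * (4 / 3 * (1 / 4) * A) :=
      mul_le_mul h1 h2 (mul_nonneg (hV.r_nn e) hF.le) (by positivity)
    have h4 : (D * A) * F ≤ (D * A) * (1 / 9) := by
      calc (D * A) * F ≤ (S.r e * S.s e * A) * F := by gcongr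
        _ = (S.s e * A) * (S.r e * F) := by ring
        _ ≤ _ := h3
        _ = (D * A) * (1 / 9) := by ring
    have h5 := le_of_mul_le_mul_left h4 (mul_pos hD hA)
    linarith

end Pool.Agent.Helper53.OC

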