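import Mathlib
import Pool.Agent.Helper53.OC.DefsB

/-!
Ordered Ramsey numbers of the cube (MP_09b4c2): bounds at the last level (module B8a).
-/

namespace Pool.Agent.Helper53.OC

open Finset
open Pool.Agent.Helper96.OR (Idx adj rank)

/-- one row or column -/
theorem B8a_key {N n : ℕ} (hn : 1 ≤ n) (A ρ X : ℝ) (C β : ℕ)
    (hA : A = 4 * Real.exp 2003) (hC : 2000 * A + 3 ≤ C) (hN : 2 ^ (C * n) ≤ N)
    (hρ : (11 + 10 * (n : ℝ)) * Real.sqrt ρ ≤ 1 / (8 * A)) (hX : 1 / (8 * A) ≤ X)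
    (hpot : (X * (1 + 1 / (1000 * n)) ^ β) ^ n ≤ (2 * Real.exp 2003) ^ n *
      (2 * (1 / (8 * A) + (11 + 10 * (n : ℝ)) * Real.sqrt ρ) ^ n)) :
    X ≤ 1 / 4 ∧ ∀ t : ℝ, t * N ≤ 2 ^ β → t ≤ 1 / 8 := by
  have hE : 0 < Real.exp 2003 := Real.exp_pos _
  have hA0 : 0 < A := by rw [hA]; positivity
  have hn0 : (0 : ℝ) < n := by exact_mod_cast hn
  have hφ : 0 < 1 / (8 * A) := by positivity
  have hX0 : 0 < X := lt_of_lt_of_le hφ hX
  obtain ⟨X0, hX0'⟩ : ∃ X0 : ℝ, X0 = 1 / (8 * A) + (11 + 10 * (n : ℝ)) * Real.sqrt ρ := ⟨_, rfl⟩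
  rw [← hX0'] at hpot
  have hX0nn : 0 ≤ X0 := by rw [hX0']; positivity
  have hX0le : A * X0 ≤ 1 / 4 := by
    have h1 : X0 ≤ 1 / (8 * A) + 1 / (8 * A) := by rw [hX0']; linarith
    calc A * X0 ≤ A * (1 / (8 * A) + 1 / (8 * A)) := mul_le_mul_of_nonneg_left h1 hA0.le
      _ = 1 / 4 := by field_simp; norm_num
  have h2n : (2 : ℝ) ≤ 2 ^ n := by
    calc (2 : ℝ) = 2 ^ 1 := (pow_one _).symm
      _ ≤ 2 ^ n := pow_le_pow_right₀ (by norm_num) hn
  have h1 : (X * (1 + 1 / (1000 * n)) ^ β) ^ n ≤ (A * X0) ^ n := by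
    refine hpot.trans ?_
    have e1 : (A * X0) ^ n = (2 * Real.exp 2003) ^ n * (2 ^ n * X0 ^ n) := by
      rw [← mul_pow, ← mul_pow, hA]
      congr 1
      ring
    rw [e1]
    exact mul_le_mul_of_nonneg_left (mul_le_mul_of_nonneg_right h2n (by positivity)) (by positivity)
  have hl : 0 ≤ 1 / (1000 * (n : ℝ)) := by positivity
  have h2 : X * (1 + 1 / (1000 * n)) ^ β ≤ 1 / 4 :=
    (le_of_pow_le_pow_left₀ (by omega) (mul_nonneg hA0.le hX0nn) h1).trans hX0le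
  have h3 : (1 : ℝ) ≤ (1 + 1 / (1000 * n)) ^ β := one_le_pow₀ (by linarith)
  have h4 : X ≤ 1 / 4 := by
    refine le_trans ?_ h2
    exact le_mul_of_one_le_right hX0.le h3
  refine ⟨h4, fun t ht => ?_⟩
  have h5 : (1 + 1 / (1000 * (n : ℝ))) ^ β ≤ 2 * A := by
    have h6 : 1 / (8 * A) * (1 + 1 / (1000 * (n : ℝ))) ^ β ≤ 1 / 4 :=
      (mul_le_mul_of_nonneg_right hX (by positivity)).trans h2
    have h7 : (1 + 1 / (1000 * (n : ℝ))) ^ β = (8 * A) *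
        (1 / (8 * A) * (1 + 1 / (1000 * (n : ℝ))) ^ β) := by
      field_simp
    rw [h7]
    calc (8 * A) * (1 / (8 * A) * (1 + 1 / (1000 * (n : ℝ))) ^ β) ≤ (8 * A) * (1 / 4) :=
        mul_le_mul_of_nonneg_left h6 (by positivity)
      _ = 2 * A := by ring
  have h8 : 1 + (β : ℝ) * (1 / (1000 * (n : ℝ))) ≤ 2 * A :=
    (one_add_mul_le_pow (by linarith) β).trans h5
  have h9 : (β : ℝ) ≤ 2000 * A * n := by
    have h10 : (β : ℝ) * (1 / (1000 * (n : ℝ))) ≤ 2 * A := by linarith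
    have h11 : (β : ℝ) = (β : ℝ) * (1 / (1000 * (n : ℝ))) * (1000 * n) := by field_simp
    rw [h11]
    calc (β : ℝ) * (1 / (1000 * (n : ℝ))) * (1000 * n) ≤ 2 * A * (1000 * n) :=
        mul_le_mul_of_nonneg_right h10 (by positivity)
      _ = 2000 * A * n := by ring
  have h12 : (β : ℝ) + 3 ≤ (C * n : ℕ) := by
    push_cast
    have hn1 : (1 : ℝ) ≤ n := by exact_mod_cast hn
    calc (β : ℝ) + 3 ≤ 2000 * A * n + 3 * n := by linarith
      _ = (2000 * A + 3) * n := by ring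
      _ ≤ C * n := mul_le_mul_of_nonneg_right hC hn0.le
  have h13 : β + 3 ≤ C * n := by exact_mod_cast h12
  have h14 : (2 : ℝ) ^ (β + 3) ≤ N := by
    have : 2 ^ (β + 3) ≤ N := (Nat.pow_le_pow_right (by norm_num) h13).trans hN
    exact_mod_cast this
  have hN0 : (0 : ℝ) < N := lt_of_lt_of_le (by positivity) h14
  rw [pow_add] at h14
  by_contra hlt
  push Not at hlt
  have h15 : 1 / 8 * (N : ℝ) < t * N := mul_lt_mul_of_pos_right hlt hN0
  norm_num at h14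
  linarith

theorem last_bounds {N n : ℕ} (hn : 1 ≤ n) (f : Fin N → Fin N → ℝ) (A ρ : ℝ) (C : ℕ)
    (hA : A = 4 * Real.exp 2003) (hC : 2000 * A + 3 ≤ C) (hN : 2 ^ (C * n) ≤ N)
    (hρ : (11 + 10 * (n : ℝ)) * Real.sqrt ρ ≤ 1 / (8 * A)) (S : St N n) (hV : Valid f S)
    (hpot : S.pot (1 / (8 * A)) n n ≤ (2 * Real.exp 2003) ^ n *
      (2 * (1 / (8 * A) + (11 + 10 * (n : ℝ)) * Real.sqrt ρ) ^ n)) :
    (∀ u, S.X (1 / (8 * A)) n u ≤ 1 / 4) ∧ (∀ w, S.Y (1 / (8 * A)) n w ≤ 1 / 4) ∧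
    (∀ u x, S.P u x ≤ 1 / 8) ∧ (∀ w y, S.Q w y ≤ 1 / 8) := by
  have hA0 : 0 < A := by rw [hA]; positivity
  have hφ : 0 < 1 / (8 * A) := by positivity
  have hmu : ∀ e : Ed n, 0 < mu n n e := by
    intro e
    unfold mu
    split_ifs
    · linarith
    · exact one_pos
  have hX : ∀ u, 1 / (8 * A) ≤ S.X (1 / (8 * A)) n u := by
    intro u
    unfold St.X
    have : 0 ≤ ∑ e : Ed n with e.1.1 = u, mu n n e * S.r e :=
      sum_nonneg fun e _ => mul_nonneg (hmu e).le (hV.r_nn e)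
    linarith
  have hY : ∀ u, 1 / (8 * A) ≤ S.Y (1 / (8 * A)) n u := by
    intro u
    unfold St.Y
    have : 0 ≤ ∑ e : Ed n with e.1.2 = u, mu n n e * S.s e :=
      sum_nonneg fun e _ => mul_nonneg (hmu e).le (hV.s_nn e)
    linarith
  have hXn : ∀ u, 0 ≤ (S.X (1 / (8 * A)) n u * (1 + 1 / (1000 * n)) ^ S.β u) ^ n := by
    intro u
    have := hφ.le.trans (hX u)
    positivity
  have hYn : ∀ u, 0 ≤ (S.Y (1 / (8 * A)) n u * (1 + 1 / (1000 * n)) ^ S.γ u) ^ n := by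
    intro u
    have := hφ.le.trans (hY u)
    positivity
  have hXp : ∀ u, (S.X (1 / (8 * A)) n u * (1 + 1 / (1000 * n)) ^ S.β u) ^ n ≤
      S.pot (1 / (8 * A)) n n := by
    intro u
    unfold St.pot
    have h1 := single_le_sum (f := fun u => (S.X (1 / (8 * A)) n u *
      (1 + 1 / (1000 * n)) ^ S.β u) ^ n) (fun u _ => hXn u) (mem_univ u)
    have h2 := sum_nonneg (f := fun u => (S.Y (1 / (8 * A)) n u *
      (1 + 1 / (1000 * n)) ^ S.γ u) ^ n) (s := univ) (fun u _ => hYn u)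
    linarith
  have hYp : ∀ u, (S.Y (1 / (8 * A)) n u * (1 + 1 / (1000 * n)) ^ S.γ u) ^ n ≤
      S.pot (1 / (8 * A)) n n := by
    intro u
    unfold St.pot
    have h1 := single_le_sum (f := fun u => (S.Y (1 / (8 * A)) n u *
      (1 + 1 / (1000 * n)) ^ S.γ u) ^ n) (fun u _ => hYn u) (mem_univ u)
    have h2 := sum_nonneg (f := fun u => (S.X (1 / (8 * A)) n u *
      (1 + 1 / (1000 * n)) ^ S.β u) ^ n) (s := univ) (fun u _ => hXn u)
    linarith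
  have kX := fun u => B8a_key hn A ρ _ C (S.β u) hA hC hN hρ (hX u) ((hXp u).trans hpot)
  have kY := fun u => B8a_key hn A ρ _ C (S.γ u) hA hC hN hρ (hY u) ((hYp u).trans hpot)
  exact ⟨fun u => (kX u).1, fun u => (kY u).1, fun u x => (kX u).2 _ (hV.P_cap u x),
    fun u x => (kY u).2 _ (hV.Q_cap u x)⟩

end Pool.Agent.Helper53.OC
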