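import Mathlib
import Pool.Agent.Helper53.OC.DefsB

/-!
# Project OC, module B9a: the square theorem for subsets of the naturals
-/

set_option autoImplicit false

namespace Pool.Agent.Helper53.OC

open Finset

open Pool.Agent.Helper96.OR (Idx adj rank)

theorem B9a_sum (B : Finset ℕ) (N : ℕ) (hB : B.card = N) (f : ℕ → ℝ) :
    ∑ x : Fin N, f (B.orderEmbOfFin hB x) = ∑ x ∈ B, f x := by
  conv_rhs => rw [← B.map_orderEmbOfFin_univ hB]
  rw [Finset.sum_map]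
  rfl

theorem thmD' (hD : ∃ C K : ℕ, 0 < K ∧ ∀ n : ℕ, 1 ≤ n → ∀ N : ℕ, 2 ^ (C * n) ≤ N →
    ∀ b : Fin N → Fin N → ℝ, (∀ x y, b x y = 0 ∨ b x y = 1) →
    (∑ x, ∑ y, b x y) * (K * (n : ℝ) ^ 2) ≤ (N : ℝ) ^ 2 →
    ∃ r c : Idx 2 n → Fin N, (∀ u u', rank n u < rank n u' → r u < r u') ∧
      (∀ w w', rank n w < rank n w' → c w < c w') ∧
      ∀ u w, (u = w ∨ adj (fun a b : Fin 2 => a ≠ b) n u w) → b (r u) (c w) = 0) :
    ∃ C K : ℕ, 0 < K ∧ ∀ n : ℕ, 1 ≤ n → ∀ N : ℕ, 2 ^ (C * n) ≤ N →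
    ∀ b : ℕ → ℕ → ℝ, (∀ x y, b x y = 0 ∨ b x y = 1) → ∀ B C' : Finset ℕ, B.card = N →
    C'.card = N → Pool.Agent.Helper96.OR.dens b B C' * (K * (n : ℝ) ^ 2) ≤ 1 →
    ∃ r c : Idx 2 n → ℕ, (∀ u, r u ∈ B) ∧ (∀ w, c w ∈ C') ∧
      (∀ u u', rank n u < rank n u' → r u < r u') ∧
      (∀ w w', rank n w < rank n w' → c w < c w') ∧
      ∀ u w, (u = w ∨ adj (fun a b : Fin 2 => a ≠ b) n u w) → b (r u) (c w) = 0 := by
  obtain ⟨C, K, hK, h⟩ := hD
  refine ⟨C, K, hK, fun n hn N hN b hb B C' hB hC' hd => ?_⟩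
  have hN0 : 0 < N := lt_of_lt_of_le (by positivity) hN
  have hNr : (0 : ℝ) < N := by exact_mod_cast hN0
  obtain ⟨r, c, hr, hc, hrc⟩ := h n hn N hN
    (fun x y => b (B.orderEmbOfFin hB x) (C'.orderEmbOfFin hC' y)) (fun x y => hb _ _) (by
      have e1 : (∑ x : Fin N, ∑ y : Fin N, b (B.orderEmbOfFin hB x) (C'.orderEmbOfFin hC' y)) =
          ∑ x ∈ B, ∑ y ∈ C', b x y := by
        rw [← B9a_sum B N hB (fun x => ∑ y ∈ C', b x y)]
        refine Finset.sum_congr rfl fun x _ => ?_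
        exact B9a_sum C' N hC' (fun y => b (B.orderEmbOfFin hB x) y)
      rw [e1]
      have e2 : Pool.Agent.Helper96.OR.dens b B C' = (∑ x ∈ B, ∑ y ∈ C', b x y) / ((N : ℝ) * N) := by
        rw [Pool.Agent.Helper96.OR.dens, hB, hC']
      rw [e2, div_mul_eq_mul_div, div_le_one (by positivity)] at hd
      rw [sq (N : ℝ)]
      exact hd)
  refine ⟨fun u => B.orderEmbOfFin hB (r u), fun w => C'.orderEmbOfFin hC' (c w),
    fun u => B.orderEmbOfFin_mem hB _, fun w => C'.orderEmbOfFin_mem hC' _, ?_, ?_, ?_⟩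
  · intro u u' hu
    exact (B.orderEmbOfFin hB).strictMono (hr u u' hu)
  · intro w w' hw
    exact (C'.orderEmbOfFin hC').strictMono (hc w w' hw)
  · intro u w huw
    exact hrc u w huw

end Pool.Agent.Helper53.OC
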