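import Mathlib
import Pool.Agent.Helper53.OC.DefsB

/-!
# Project OC, module B9c: the numerical inequality
-/

set_option autoImplicit false

namespace Pool.Agent.Helper53.OC

open Finset

open Pool.Agent.Helper96.OR (Idx adj rank)

theorem numer (C K : ℕ) (hK : 0 < K) : ∃ C' : ℕ, ∀ n : ℕ, 1 ≤ n →
    2 ^ n * ((n + 2) * 2 ^ (C * n) + (K * n ^ 2) ^ (n + 1) * 2 ^ (C * n)) ≤
      (n + 1) ^ (C' * (n + 1)) := by
  refine ⟨C + K + 4, fun n hn => ?_⟩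
  have ha : 2 ≤ n + 1 := by omega
  have ha1 : 1 ≤ n + 1 := by omega
  have h1 : 2 ^ n ≤ (n + 1) ^ (n + 1) :=
    (Nat.pow_le_pow_left ha n).trans (Nat.pow_le_pow_right ha1 (by omega))
  have h2 : 2 ^ (C * n) ≤ (n + 1) ^ (C * (n + 1)) :=
    (Nat.pow_le_pow_left ha _).trans (Nat.pow_le_pow_right ha1 (Nat.mul_le_mul_left C (by omega)))
  have h3 : n + 2 ≤ (n + 1) ^ 2 := by nlinarith
  have h4 : K ≤ (n + 1) ^ K := (Nat.lt_two_pow_self).le.trans (Nat.pow_le_pow_left ha K)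
  have h5 : K * n ^ 2 ≤ (n + 1) ^ (K + 2) := by
    rw [pow_add]
    exact Nat.mul_le_mul h4 (Nat.pow_le_pow_left (by omega) 2)
  have h6 : (K * n ^ 2) ^ (n + 1) ≤ (n + 1) ^ ((K + 2) * (n + 1)) := by
    rw [pow_mul]
    exact Nat.pow_le_pow_left h5 _
  have h7 : n + 2 ≤ (n + 1) ^ ((K + 2) * (n + 1)) := by
    refine h3.trans (Nat.pow_le_pow_right ha1 ?_)
    nlinarith
  have h8 : (n + 2) + (K * n ^ 2) ^ (n + 1) ≤ (n + 1) ^ ((K + 2) * (n + 1) + 1) := by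
    rw [pow_succ]
    calc (n + 2) + (K * n ^ 2) ^ (n + 1)
        ≤ (n + 1) ^ ((K + 2) * (n + 1)) + (n + 1) ^ ((K + 2) * (n + 1)) := Nat.add_le_add h7 h6
      _ = (n + 1) ^ ((K + 2) * (n + 1)) * 2 := by ring
      _ ≤ (n + 1) ^ ((K + 2) * (n + 1)) * (n + 1) := Nat.mul_le_mul_left _ ha
  calc 2 ^ n * ((n + 2) * 2 ^ (C * n) + (K * n ^ 2) ^ (n + 1) * 2 ^ (C * n))
      = 2 ^ n * (2 ^ (C * n) * ((n + 2) + (K * n ^ 2) ^ (n + 1))) := by ring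
    _ ≤ (n + 1) ^ (n + 1) * ((n + 1) ^ (C * (n + 1)) * (n + 1) ^ ((K + 2) * (n + 1) + 1)) :=
        Nat.mul_le_mul h1 (Nat.mul_le_mul h2 h8)
    _ = (n + 1) ^ ((n + 1) + (C * (n + 1) + ((K + 2) * (n + 1) + 1))) := by
        rw [← pow_add, ← pow_add]
    _ ≤ (n + 1) ^ ((C + K + 4) * (n + 1)) := by
        refine Nat.pow_le_pow_right ha1 ?_
        nlinarith

end Pool.Agent.Helper53.OC
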