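import Mathlib
import Pool.Agent.Helper53.OC.Defs

/-!
Ordered Ramsey numbers of the cube (MP_09b4c2): module A1 (gauge).
-/

namespace Pool.Agent.Helper53.OC

open Finset

variable {U W E : Type} [Fintype U] [Fintype W] [Fintype E] [DecidableEq U] [DecidableEq W]

open Classical in
theorem A1_ld (S : Sys U W E) (e : E) (c : ℝ) (u : U) :
    S.ldR (fun e' => if e' = e then c else 1) u = if u = S.s e then 1 + S.x e * (c - 1) else 1 := by
  unfold Sys.ldR
  by_cases hu : u = S.s e
  · rw [if_pos hu]
    congr 1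
    rw [Finset.sum_eq_single e]
    · dsimp only
      rw [if_pos rfl]
    · intro b _ hb
      dsimp only
      rw [if_neg hb, sub_self, mul_zero]
    · intro he
      exact absurd (Finset.mem_filter.2 ⟨Finset.mem_univ e, hu.symm⟩) he
  · rw [if_neg hu]
    rw [Finset.sum_eq_zero, add_zero]
    intro b hb
    have hb' := (Finset.mem_filter.1 hb).2
    have hbe : b ≠ e := by
      rintro rfl
      exact hu hb'.symm
    dsimp only
    rw [if_neg hbe, sub_self, mul_zero]

theorem A1_sum {U : Type} [Fintype U] [DecidableEq U] (m : U → ℝ) (u₀ : U) (a : ℝ) (p : ℕ) :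
    ∑ u, m u * ((if u = u₀ then a else 1) * 1) ^ p = ∑ u, m u + (m u₀ * a ^ p - m u₀) := by
  rw [← Finset.add_sum_erase _ _ (Finset.mem_univ u₀), ← Finset.add_sum_erase _ m (Finset.mem_univ u₀),
    if_pos rfl, mul_one]
  have : ∑ u ∈ Finset.univ.erase u₀, m u * ((if u = u₀ then a else 1) * 1) ^ p =
      ∑ u ∈ Finset.univ.erase u₀, m u := by
    refine Finset.sum_congr rfl fun u hu => ?_
    rw [if_neg (Finset.ne_of_mem_erase hu), mul_one, one_pow, mul_one]
  rw [this]
  ring

theorem gauge (S : Sys U W E) (p : ℕ) (hp : 1 ≤ p) (l : ℝ) (h : S.Crit p l) (e : E) :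
    S.m (S.s e) * S.x e = S.n (S.t e) * S.y e := by
  classical
  set F : ℝ → ℝ := fun g => S.m (S.s e) * (1 + S.x e * (Real.exp g - 1)) ^ p +
    S.n (S.t e) * (1 + S.y e * (Real.exp (-g) - 1)) ^ p with hF
  have hmin : ∀ g, F 0 ≤ F g := by
    intro g
    have h1 := h (fun _ => none) (fun _ => none) (fun e' => if e' = e then Real.exp g else 1)
      (fun e' => if e' = e then Real.exp (-g) else 1)
      (fun e' => by split_ifs <;> positivity)
      (fun e' => by split_ifs <;> positivity)
      (fun e' => by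
        change (1 : ℝ) ≤ _
        split_ifs
        · rw [← Real.exp_add, add_neg_cancel, Real.exp_zero]
        · rw [one_mul])
    have h2 : ∀ u, S.ldR (fun e' => if e' = e then Real.exp g else 1) u =
        if u = S.s e then 1 + S.x e * (Real.exp g - 1) else 1 := fun u => A1_ld S e _ u
    have h3 : ∀ w, S.ldC (fun e' => if e' = e then Real.exp (-g) else 1) w =
        if w = S.t e then 1 + S.y e * (Real.exp (-g) - 1) else 1 := fun w => A1_ld S.swap e _ w
    simp only [h2, h3, pen] at h1
    rw [A1_sum, A1_sum] at h1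
    have h4 : F 0 = S.m (S.s e) + S.n (S.t e) := by
      simp [hF]
    rw [h4]
    simp only [hF]
    linarith
  have hder : HasDerivAt F (S.m (S.s e) * (p * (1 + S.x e * (Real.exp 0 - 1)) ^ (p - 1) *
      (S.x e * Real.exp 0)) + S.n (S.t e) * (p * (1 + S.y e * (Real.exp (-0) - 1)) ^ (p - 1) *
      (S.y e * (Real.exp (-0) * -1)))) 0 := by
    have d1 : HasDerivAt (fun g : ℝ => 1 + S.x e * (Real.exp g - 1)) (S.x e * Real.exp 0) 0 :=
      (((Real.hasDerivAt_exp 0).sub_const 1).const_mul (S.x e)).const_add 1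
    have d2 : HasDerivAt (fun g : ℝ => 1 + S.y e * (Real.exp (-g) - 1))
        (S.y e * (Real.exp (-0) * -1)) 0 :=
      (((hasDerivAt_neg (0 : ℝ)).exp.sub_const 1).const_mul (S.y e)).const_add 1
    exact ((d1.pow p).const_mul _).add ((d2.pow p).const_mul _)
  have hloc : IsLocalMin F 0 := Filter.Eventually.of_forall hmin
  have h0 := hloc.hasDerivAt_eq_zero hder
  simp only [Real.exp_zero, neg_zero, sub_self, mul_zero, add_zero, one_pow, mul_one, one_mul] at h0
  have hp' : (0 : ℝ) < p := by exact_mod_cast hp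
  have h5 : (p : ℝ) * (S.m (S.s e) * S.x e - S.n (S.t e) * S.y e) = 0 := by linarith
  rcases mul_eq_zero.1 h5 with h6 | h6
  · linarith
  · linarith

end Pool.Agent.Helper53.OC
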