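import Mathlib
import Pool.Agent.Helper53.OC.Defs

/-!
OC module A2: zooming one row.
-/

namespace Pool.Agent.Helper53.OC

open Finset

variable {U W E : Type} [Fintype U] [Fintype W] [Fintype E] [DecidableEq U] [DecidableEq W]

theorem A2_ldR_one (S : Sys U W E) (u : U) : S.ldR (fun _ => 1) u = 1 := by
  unfold Sys.ldR
  simp

theorem A2_ldC_one (S : Sys U W E) (w : W) : S.ldC (fun _ => 1) w = 1 := by
  unfold Sys.ldC
  simp

theorem rowcrit (S : Sys U W E) (p : ℕ) (hp : 1 ≤ p) (l : ℝ) (hl : 0 ≤ l) (h : S.Crit p l)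
    (a : Bool) (u : U) : -l ≤ ∑ e with S.s e = u, S.x e * (S.row a e - 1) := by
  set R : E → ℝ := fun e => if S.s e = u then S.row a e else 1 with hR
  set σ : U → Option Bool := fun v => if v = u then some a else none with hσ
  have hRpos : ∀ e, 0 < R e := by
    intro e
    simp only [hR]
    split_ifs
    · exact S.row_pos a e
    · exact one_pos
  have h1 := h σ (fun _ => none) R (fun _ => 1) hRpos (fun _ => one_pos) (by
    intro e
    simp only [hR, hσ, mul_one]
    by_cases he : S.s e = u
    · rw [if_pos he, if_pos he]; exact le_rfl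
    · rw [if_neg he, if_neg he]; exact le_rfl)
  -- the columns
  have hcol : ∀ w, S.n w * (S.ldC (fun _ => 1) w * pen l none) ^ p = S.n w := by
    intro w
    rw [A2_ldC_one]
    simp [pen]
  rw [Finset.sum_congr rfl fun w _ => hcol w] at h1
  have h2 : ∑ v, S.m v ≤ ∑ v, S.m v * (S.ldR R v * pen l (σ v)) ^ p := by linarith
  have hoth : ∀ v, v ≠ u → S.m v * (S.ldR R v * pen l (σ v)) ^ p = S.m v := by
    intro v hv
    have e1 : S.ldR R v = 1 := by
      unfold Sys.ldR
      rw [Finset.sum_eq_zero, add_zero]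
      intro e he
      rw [Finset.mem_filter] at he
      have : S.s e ≠ u := by rw [he.2]; exact hv
      simp only [hR]
      rw [if_neg this]
      ring
    rw [e1]
    simp only [hσ]
    rw [if_neg hv]
    simp [pen]
  rw [← Finset.add_sum_erase _ _ (Finset.mem_univ u),
    ← Finset.add_sum_erase (Finset.univ) (fun v => S.m v * (S.ldR R v * pen l (σ v)) ^ p)
      (Finset.mem_univ u),
    Finset.sum_congr rfl (fun v hv => hoth v (Finset.ne_of_mem_erase hv))] at h2
  have h3 : S.m u ≤ S.m u * (S.ldR R u * pen l (σ u)) ^ p := by linarith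
  have hmu := S.m_pos u
  have h4 : 1 ≤ (S.ldR R u * pen l (σ u)) ^ p := by
    by_contra hc
    push Not at hc
    nlinarith
  have hpen : pen l (σ u) = 1 + l := by
    simp [hσ, pen]
  rw [hpen] at h4
  have hnn : 0 ≤ S.ldR R u * (1 + l) := mul_nonneg (S.ldR_nonneg R hRpos u) (by linarith)
  have h5 : 1 ≤ S.ldR R u * (1 + l) := by
    by_contra hc
    push Not at hc
    exact absurd h4 (not_le.2 (pow_lt_one₀ hnn hc (by omega)))
  have h6 : S.ldR R u = 1 + ∑ e with S.s e = u, S.x e * (S.row a e - 1) := by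
    unfold Sys.ldR
    congr 1
    refine Finset.sum_congr rfl fun e he => ?_
    rw [Finset.mem_filter] at he
    simp only [hR]
    rw [if_pos he.2]
  rw [h6] at h5
  nlinarith

end Pool.Agent.Helper53.OC
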