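import Mathlib
import Pool.Agent.Helper53.OC.Defs

namespace Pool.Agent.Helper53.OC

open Finset

variable {U W E : Type} [Fintype U] [Fintype W] [Fintype E] [DecidableEq U] [DecidableEq W]

theorem ebad_exp_neg (v : ℝ) (h0 : 0 ≤ v) (h1 : v ≤ 1) : Real.exp (-v) ≤ 1 - v / 2 := by
  have hc := convexOn_exp.2 (Set.mem_univ (0:ℝ)) (Set.mem_univ (-1:ℝ))
    (by linarith : (0:ℝ) ≤ 1 - v) h0 (by ring)
  simp only [smul_eq_mul, mul_zero, zero_add, Real.exp_zero, mul_one] at hc
  have he : Real.exp (-1) ≤ 1 / 2 := by
    rw [Real.exp_neg, inv_eq_one_div]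
    apply one_div_le_one_div_of_le (by norm_num)
    have := Real.add_one_le_exp (1:ℝ)
    linarith
  have h2 : v * -1 = -v := by ring
  rw [h2] at hc
  nlinarith

theorem ebad_exp_pos (g : ℝ) (h0 : 0 ≤ g) (h1 : g ≤ 1) : Real.exp g - 1 ≤ 2 * g := by
  have hc := convexOn_exp.2 (Set.mem_univ (0:ℝ)) (Set.mem_univ (1:ℝ))
    (by linarith : (0:ℝ) ≤ 1 - g) h0 (by ring)
  simp only [smul_eq_mul, mul_zero, zero_add, Real.exp_zero, mul_one] at hc
  have he : Real.exp 1 < 3 := lt_trans Real.exp_one_lt_d9 (by norm_num)
  nlinarith

theorem ebad (S : Sys U W E) (p : ℕ) (hp : 1 ≤ p) (h : S.Crit p (1 / (1000 * p)))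
    (hg : ∀ e, S.m (S.s e) * S.x e = S.n (S.t e) * S.y e)
    (hr : ∀ a u, -(1 / (1000 * p) : ℝ) ≤ ∑ e with S.s e = u, S.x e * (S.row a e - 1))
    (a : Bool) (u : U) :
    ∑ e with (S.s e = u ∧ S.row a e < 1 / 40), S.x e * min (p : ℝ) (1 / S.y e) ≤ 1 / 50 := by
  classical
  by_contra hA
  push Not at hA
  set P : ℝ := (p : ℝ) with hP
  have hP1 : 1 ≤ P := by rw [hP]; exact_mod_cast hp
  have hP0 : 0 < P := by linarith
  set B : Finset E := univ.filter (fun e => S.s e = u ∧ S.row a e < 1 / 40) with hB
  set A : ℝ := ∑ e ∈ B, S.x e * min P (1 / S.y e) with hAdef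
  have hA0 : 0 < A := by linarith
  set th : ℝ := 1 / (50 * A) with hth
  have hth0 : 0 < th := by positivity
  have hth1 : th ≤ 1 := by
    rw [hth, div_le_one (by positivity)]
    linarith
  have hthA : th * A = 1 / 50 := by
    rw [hth]; field_simp
  set g : E → ℝ := fun e => th * min 1 (1 / (P * S.y e)) with hgdef
  have hg0 : ∀ e, 0 ≤ g e := by
    intro e
    have := S.y_pos e
    exact mul_nonneg hth0.le (le_min zero_le_one (by positivity))
  have hg1 : ∀ e, g e ≤ 1 := by
    intro e
    calc g e ≤ th * 1 := mul_le_mul_of_nonneg_left (min_le_left _ _) hth0.le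
      _ ≤ 1 := by linarith
  have hPg : ∀ e, P * g e = th * min P (1 / S.y e) := by
    intro e
    have hy := S.y_pos e
    simp only [hgdef]
    rw [mul_left_comm, mul_min_of_nonneg _ _ hP0.le]
    congr 2
    · ring
    · field_simp
  have hPyg : ∀ e, P * S.y e * g e ≤ 1 := by
    intro e
    have hy := S.y_pos e
    have h1 : P * S.y e * g e = S.y e * (P * g e) := by ring
    rw [h1, hPg]
    have h2 : min P (1 / S.y e) ≤ 1 / S.y e := min_le_right _ _
    have h3 : S.y e * (th * min P (1 / S.y e)) ≤ S.y e * (th * (1 / S.y e)) := by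
      gcongr
    have h4 : S.y e * (th * (1 / S.y e)) = th := by field_simp
    linarith
  have hPG : P * ∑ e ∈ B, S.x e * g e = 1 / 50 := by
    rw [← hthA, hAdef, mul_sum, mul_sum]
    refine sum_congr rfl fun e _ => ?_
    have := hPg e
    calc P * (S.x e * g e) = S.x e * (P * g e) := by ring
      _ = th * (S.x e * min P (1 / S.y e)) := by rw [this]; ring
  set G : ℝ := ∑ e ∈ B, S.x e * g e with hG
  have hG0 : 0 ≤ G := sum_nonneg fun e _ => mul_nonneg (S.x_pos e).le (hg0 e)
  set l : ℝ := 1 / (1000 * P) with hl
  have hl0 : 0 < l := by positivity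
  have hPl : P * l = 1 / 1000 := by rw [hl]; field_simp
  -- the competitor
  set σ : U → Option Bool := fun v => if v = u then some a else none with hσ
  set R : E → ℝ := fun e => if S.s e = u then
    (if S.row a e < 1 / 40 then S.row a e * Real.exp (g e) else S.row a e) else 1 with hR
  set T : E → ℝ := fun e => if S.s e = u ∧ S.row a e < 1 / 40 then Real.exp (-(g e)) else 1 with hT
  have hRpos : ∀ e, 0 < R e := by
    intro e
    have := S.row_pos a e
    simp only [hR]
    split_ifs <;> positivity
  have hTpos : ∀ e, 0 < T e := by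
    intro e
    simp only [hT]
    split_ifs <;> positivity
  have key := h σ (fun _ => none) R T hRpos hTpos (by
    intro e
    simp only [hσ, hR, hT]
    by_cases h1 : S.s e = u
    · by_cases h2 : S.row a e < 1 / 40
      · simp only [h1, h2, if_true, and_self, Sys.fac]
        rw [mul_assoc, ← Real.exp_add, add_neg_cancel, Real.exp_zero, mul_one]
      · simp only [h1, h2, if_true, if_false, and_false, Sys.fac, mul_one, le_refl]
    · simp only [h1, if_false, false_and, Sys.fac, mul_one, le_refl])
  -- row u
  have hrowsum : ∑ e with S.s e = u, S.x e * (S.row a e - 1) ≤ l := by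
    have h1 := hr (!a) u
    have h2 : ∑ e with S.s e = u, S.x e * (S.row (!a) e - 1) =
        - ∑ e with S.s e = u, S.x e * (S.row a e - 1) := by
      rw [← sum_neg_distrib]
      refine sum_congr rfl fun e _ => ?_
      have := S.row_add a e
      have h3 : S.row (!a) e = 2 - S.row a e := by linarith
      rw [h3]; ring
    rw [h2] at h1
    linarith
  have hRu : S.ldR R u ≤ 1 + l + G / 20 := by
    unfold Sys.ldR
    have h1 : ∑ e with S.s e = u, S.x e * (R e - 1) =
        ∑ e with S.s e = u, S.x e * (S.row a e - 1) +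
        ∑ e ∈ B, S.x e * (S.row a e * (Real.exp (g e) - 1)) := by
      have h2 : ∑ e ∈ B, S.x e * (S.row a e * (Real.exp (g e) - 1)) =
          ∑ e with S.s e = u, (if S.row a e < 1 / 40 then
            S.x e * (S.row a e * (Real.exp (g e) - 1)) else 0) := by
        rw [hB, ← filter_filter, sum_filter (fun e => S.row a e < 1 / 40)]
      rw [h2, ← sum_add_distrib]
      refine sum_congr rfl fun e he => ?_
      have he' : S.s e = u := (mem_filter.1 he).2
      simp only [hR, he', if_true]
      split_ifs <;> ring
    rw [h1]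
    have h3 : ∑ e ∈ B, S.x e * (S.row a e * (Real.exp (g e) - 1)) ≤ G / 20 := by
      rw [hG, sum_div]
      refine sum_le_sum fun e he => ?_
      have he' : S.row a e < 1 / 40 := (mem_filter.1 he).2.2
      have h4 := ebad_exp_pos (g e) (hg0 e) (hg1 e)
      have h5 := S.row_pos a e
      have h6 := S.x_pos e
      have h7 : S.row a e * (Real.exp (g e) - 1) ≤ 1 / 40 * (2 * g e) := by
        apply mul_le_mul he'.le h4 _ (by norm_num)
        have := Real.add_one_le_exp (g e)
        have := hg0 e
        linarith
      calc S.x e * (S.row a e * (Real.exp (g e) - 1)) ≤ S.x e * (1 / 40 * (2 * g e)) := by gcongr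
        _ = S.x e * g e / 20 := by ring
    linarith
  have hRu0 : 0 ≤ S.ldR R u := S.ldR_nonneg R hRpos u
  have hrowu : (S.ldR R u * (1 + l)) ^ p ≤ 1 + 31 / 10000 := by
    have h1 : S.ldR R u * (1 + l) ≤ Real.exp (2 * l + G / 20) := by
      have h2 : S.ldR R u ≤ Real.exp (l + G / 20) := by
        have := Real.add_one_le_exp (l + G / 20)
        linarith
      have h3 : 1 + l ≤ Real.exp l := by
        have := Real.add_one_le_exp l
        linarith
      calc S.ldR R u * (1 + l) ≤ Real.exp (l + G / 20) * Real.exp l := by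
            apply mul_le_mul h2 h3 (by positivity) (Real.exp_pos _).le
        _ = Real.exp (2 * l + G / 20) := by rw [← Real.exp_add]; ring_nf
    calc (S.ldR R u * (1 + l)) ^ p ≤ (Real.exp (2 * l + G / 20)) ^ p := by
          apply pow_le_pow_left₀ (by positivity) h1
      _ = Real.exp (3 / 1000) := by
          rw [← Real.exp_nat_mul]
          congr 1
          have : (p : ℝ) * (2 * l + G / 20) = 2 * (P * l) + (P * G) / 20 := by
            rw [← hP]; ring
          rw [this, hPl, hPG]; norm_num
      _ ≤ 1 + 31 / 10000 := by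
          have := Real.abs_exp_sub_one_sub_id_le (x := 3 / 1000) (by norm_num [abs_of_pos])
          have h2 := (abs_le.1 this).2
          norm_num at h2 ⊢
          linarith
  have hmu := S.m_pos u
  have hrows : ∑ v, S.m v * (S.ldR R v * pen l (σ v)) ^ p ≤ ∑ v, S.m v + 31 / 10000 * S.m u := by
    rw [← add_sum_erase univ _ (mem_univ u), ← add_sum_erase univ S.m (mem_univ u)]
    have h1 : S.m u * (S.ldR R u * pen l (σ u)) ^ p ≤ S.m u * (1 + 31 / 10000) := by
      apply mul_le_mul_of_nonneg_left _ hmu.le
      simp only [hσ, if_true, pen]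
      exact hrowu
    have h2 : ∑ v ∈ univ.erase u, S.m v * (S.ldR R v * pen l (σ v)) ^ p =
        ∑ v ∈ univ.erase u, S.m v := by
      refine sum_congr rfl fun v hv => ?_
      have hvu : v ≠ u := ne_of_mem_erase hv
      have h3 : S.ldR R v = 1 := by
        unfold Sys.ldR
        have : ∑ e with S.s e = v, S.x e * (R e - 1) = 0 := by
          apply sum_eq_zero
          intro e he
          have he' : S.s e = v := (mem_filter.1 he).2
          have : S.s e ≠ u := by rw [he']; exact hvu
          simp only [hR, this, if_false, sub_self, mul_zero]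
        rw [this, add_zero]
      simp only [hσ, hvu, if_false, pen, h3, mul_one, one_pow]
    rw [h2]
    linarith
  -- columns
  have hcol : ∀ w, S.n w * (S.ldC T w * pen l none) ^ p ≤
      S.n w - ∑ e ∈ B with S.t e = w, S.m u * (P * (S.x e * g e) / 4) := by
    intro w
    have hnw := S.n_pos w
    have hld : S.ldC T w = 1 - ∑ e ∈ B with S.t e = w, S.y e * (1 - Real.exp (-(g e))) := by
      unfold Sys.ldC
      have h1 : ∑ e with S.t e = w, S.y e * (T e - 1) =
          - ∑ e ∈ B with S.t e = w, S.y e * (1 - Real.exp (-(g e))) := by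
        have h2 : ∑ e ∈ B with S.t e = w, S.y e * (1 - Real.exp (-(g e))) =
            ∑ e with S.t e = w, (if S.s e = u ∧ S.row a e < 1 / 40 then
              S.y e * (1 - Real.exp (-(g e))) else 0) := by
          rw [← sum_filter, filter_filter, filter_filter]
          refine sum_congr ?_ fun _ _ => rfl
          ext e
          simp only [mem_filter, mem_univ, true_and]
          tauto
        rw [h2, ← sum_neg_distrib]
        refine sum_congr rfl fun e _ => ?_
        simp only [hT]
        split_ifs <;> ring
      rw [h1]; ring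
    rcases (B.filter (fun e => S.t e = w)).eq_empty_or_nonempty with h0 | ⟨e0, he0⟩
    · rw [hld, h0, sum_empty, sum_empty, pen]
      simp
    · have hsing : B.filter (fun e => S.t e = w) = {e0} := by
        ext e
        simp only [mem_singleton]
        constructor
        · intro he
          have h1 := mem_filter.1 he
          have h2 := mem_filter.1 he0
          have h3 := (mem_filter.1 h1.1).2
          have h4 := (mem_filter.1 h2.1).2
          exact S.inj e e0 (h3.1.trans h4.1.symm) (h1.2.trans h2.2.symm)
        · rintro rfl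
          exact he0
      have h2 := mem_filter.1 he0
      have h4 := (mem_filter.1 h2.1).2
      have hgg := hg e0
      rw [h4.1, h2.2] at hgg
      rw [hld, hsing, sum_singleton, sum_singleton, pen]
      have hy := S.y_pos e0
      have hx := S.x_pos e0
      have hge0 := hg0 e0
      have hexp := ebad_exp_neg (g e0) hge0 (hg1 e0)
      set d : ℝ := S.y e0 * (1 - Real.exp (-(g e0))) with hd
      have hd0 : S.y e0 * (g e0 / 2) ≤ d := by
        rw [hd]
        apply mul_le_mul_of_nonneg_left _ hy.le
        linarith
      have hd00 : 0 ≤ d := le_trans (by positivity) hd0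
      have hd1 : d ≤ S.y e0 * g e0 := by
        rw [hd]
        apply mul_le_mul_of_nonneg_left _ hy.le
        have := Real.add_one_le_exp (-(g e0))
        linarith
      have hld0 : 0 ≤ 1 - d := by
        have := S.ldC_nonneg T hTpos w
        rw [hld, hsing, sum_singleton] at this
        exact this
      have hpow : ((1 - d) * 1) ^ p ≤ 1 - P * d / 2 := by
        rw [mul_one]
        calc (1 - d) ^ p ≤ (Real.exp (-d)) ^ p := by
              apply pow_le_pow_left₀ hld0
              have := Real.add_one_le_exp (-d)
              linarith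
          _ = Real.exp (-(P * d)) := by
              rw [← Real.exp_nat_mul]
              congr 1
              rw [← hP]; ring
          _ ≤ 1 - P * d / 2 := by
              apply ebad_exp_neg _ (by positivity)
              calc P * d ≤ P * (S.y e0 * g e0) := by gcongr
                _ = P * S.y e0 * g e0 := by ring
                _ ≤ 1 := hPyg e0
      calc S.n w * ((1 - d) * 1) ^ p ≤ S.n w * (1 - P * d / 2) := by gcongr
        _ ≤ S.n w * (1 - P * (S.y e0 * (g e0 / 2)) / 2) := by gcongr
        _ = S.n w - (S.n w * S.y e0) * (P * g e0 / 4) := by ring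
        _ = S.n w - S.m u * (P * (S.x e0 * g e0) / 4) := by rw [← hgg]; ring
  have hcols : ∑ w, S.n w * (S.ldC T w * pen l none) ^ p ≤ ∑ w, S.n w - S.m u / 200 := by
    calc ∑ w, S.n w * (S.ldC T w * pen l none) ^ p
        ≤ ∑ w, (S.n w - ∑ e ∈ B with S.t e = w, S.m u * (P * (S.x e * g e) / 4)) :=
          sum_le_sum fun w _ => hcol w
      _ = ∑ w, S.n w - ∑ e ∈ B, S.m u * (P * (S.x e * g e) / 4) := by
          rw [sum_sub_distrib, sum_fiberwise]
      _ = ∑ w, S.n w - S.m u / 200 := by
          congr 1
          have h1 : ∑ e ∈ B, S.m u * (P * (S.x e * g e) / 4) = S.m u * (P * G) / 4 := by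
            rw [hG, mul_sum, mul_sum, sum_div]
            exact sum_congr rfl fun e _ => by ring
          rw [h1, hPG]; ring
  have hkey : ∑ v, S.m v + ∑ w, S.n w ≤
      (∑ v, S.m v + 31 / 10000 * S.m u) + (∑ w, S.n w - S.m u / 200) :=
    le_trans key (add_le_add hrows hcols)
  linarith

end Pool.Agent.Helper53.OC
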