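import Mathlib
import Pool.Agent.Helper53.OC.Defs

/-!
OC module A4: zooming both ends of an edge.
-/

namespace Pool.Agent.Helper53.OC

open Finset

variable {U W E : Type} [Fintype U] [Fintype W] [Fintype E] [DecidableEq U] [DecidableEq W]

/-- the load of a row where the certificate is `row a` except at one edge -/
theorem A4_load (S : Sys U W E) (a : Bool) (e : E) (l η : ℝ)
    (hr : ∀ a u, -l ≤ ∑ e with S.s e = u, S.x e * (S.row a e - 1)) (R : E → ℝ)
    (hR1 : R e = S.row a e - η) (hR2 : ∀ e', S.s e' = S.s e → e' ≠ e → R e' = S.row a e') :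
    S.ldR R (S.s e) ≤ 1 + l - S.x e * η := by
  classical
  unfold Sys.ldR
  have h1 := hr (!a) (S.s e)
  have hmem : e ∈ (Finset.univ.filter fun e' => S.s e' = S.s e) := by simp
  have h2 : ∑ e' with S.s e' = S.s e, S.x e' * (R e' - 1) =
      ∑ e' with S.s e' = S.s e, S.x e' * (S.row a e' - 1) - S.x e * η := by
    rw [← Finset.add_sum_erase _ _ hmem,
      ← Finset.add_sum_erase _ (fun e' => S.x e' * (S.row a e' - 1)) hmem, hR1]
    have : ∑ e' ∈ (Finset.univ.filter fun e' => S.s e' = S.s e).erase e, S.x e' * (R e' - 1) =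
        ∑ e' ∈ (Finset.univ.filter fun e' => S.s e' = S.s e).erase e,
          S.x e' * (S.row a e' - 1) := by
      refine Finset.sum_congr rfl fun e' he' => ?_
      rw [Finset.mem_erase, Finset.mem_filter] at he'
      rw [hR2 e' he'.2.2 he'.1]
    rw [this]
    ring
  have h3 : ∑ e' with S.s e' = S.s e, S.x e' * (S.row a e' - 1) =
      - ∑ e' with S.s e' = S.s e, S.x e' * (S.row (!a) e' - 1) := by
    rw [← Finset.sum_neg_distrib]
    refine Finset.sum_congr rfl fun e' _ => ?_
    have := S.row_add a e'
    linear_combination S.x e' * this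
  rw [h2, h3]
  linarith

theorem pair (S : Sys U W E) (p : ℕ) (hp : 1 ≤ p) (l : ℝ) (hl : 0 < l) (h : S.Crit p l)
    (hr : ∀ a u, -l ≤ ∑ e with S.s e = u, S.x e * (S.row a e - 1))
    (hc : ∀ b w, -l ≤ ∑ e with S.t e = w, S.y e * (S.col b e - 1))
    (a b : Bool) (e : E) (hI : S.q a b e < S.row a e * S.col b e) :
    min (S.x e) (S.y e) * (S.row a e * S.col b e - S.q a b e) ≤ 8 * l := by
  classical
  by_contra hcon
  push Not at hcon
  set d := S.row a e * S.col b e - S.q a b e with hd
  have hd0 : 0 < d := by rw [hd]; linarith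
  have hrow := S.row_pos a e
  have hcol := S.col_pos b e
  have hrow2 := S.row_lt_two a e
  have hcol2 := S.col_lt_two b e
  have hq := S.q_pos a b e
  set σ : U → Option Bool := fun v => if v = S.s e then some a else none with hσ
  set τ : W → Option Bool := fun v => if v = S.t e then some b else none with hτ
  set R : E → ℝ := fun e' => if e' = e then S.row a e - d / (2 * S.col b e) else
    if S.s e' = S.s e then S.row a e' else 1 with hR
  set T : E → ℝ := fun e' => if e' = e then S.col b e - d / (2 * S.row a e) else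
    if S.t e' = S.t e then S.col b e' else 1 with hT
  have hdlt : d < S.row a e * S.col b e := by rw [hd]; linarith
  have hRe : 0 < S.row a e - d / (2 * S.col b e) := by
    rw [sub_pos, div_lt_iff₀ (by positivity)]
    nlinarith
  have hTe : 0 < S.col b e - d / (2 * S.row a e) := by
    rw [sub_pos, div_lt_iff₀ (by positivity)]
    nlinarith
  have hRpos : ∀ e', 0 < R e' := by
    intro e'
    simp only [hR]
    split_ifs
    · exact hRe
    · exact S.row_pos a e'
    · exact one_pos
  have hTpos : ∀ e', 0 < T e' := by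
    intro e'
    simp only [hT]
    split_ifs
    · exact hTe
    · exact S.col_pos b e'
    · exact one_pos
  have h1 := h σ τ R T hRpos hTpos (by
    intro e'
    simp only [hσ, hτ, hR, hT]
    by_cases he : e' = e
    · rw [he, if_pos rfl, if_pos rfl, if_pos rfl, if_pos rfl]
      change S.q a b e ≤ _
      have e1 : (S.row a e - d / (2 * S.col b e)) * (S.col b e - d / (2 * S.row a e)) =
          S.row a e * S.col b e - d + d ^ 2 / (4 * (S.row a e * S.col b e)) := by
        field_simp
        ring
      rw [e1]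
      have e2 : 0 ≤ d ^ 2 / (4 * (S.row a e * S.col b e)) := by positivity
      have e3 : S.row a e * S.col b e - d = S.q a b e := by rw [hd]; ring
      linarith
    · rw [if_neg he, if_neg he]
      by_cases hs : S.s e' = S.s e
      · have ht : S.t e' ≠ S.t e := fun ht => he (S.inj e' e hs ht)
        rw [if_pos hs, if_pos hs, if_neg ht, if_neg ht, mul_one]
        exact le_rfl
      · rw [if_neg hs, if_neg hs]
        by_cases ht : S.t e' = S.t e
        · rw [if_pos ht, if_pos ht, one_mul]; exact le_rfl
        · rw [if_neg ht, if_neg ht, mul_one]; exact le_rfl)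
  -- unchanged rows and columns
  have hothR : ∀ v, v ≠ S.s e → S.m v * (S.ldR R v * pen l (σ v)) ^ p = S.m v := by
    intro v hv
    have e1 : S.ldR R v = 1 := by
      unfold Sys.ldR
      rw [Finset.sum_eq_zero, add_zero]
      intro e' he'
      rw [Finset.mem_filter] at he'
      have h3 : S.s e' ≠ S.s e := by rw [he'.2]; exact hv
      have h4 : e' ≠ e := fun h0 => h3 (by rw [h0])
      simp only [hR]
      rw [if_neg h4, if_neg h3]
      ring
    rw [e1]
    simp only [hσ]
    rw [if_neg hv]
    simp [pen]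
  have hothC : ∀ v, v ≠ S.t e → S.n v * (S.ldC T v * pen l (τ v)) ^ p = S.n v := by
    intro v hv
    have e1 : S.ldC T v = 1 := by
      unfold Sys.ldC
      rw [Finset.sum_eq_zero, add_zero]
      intro e' he'
      rw [Finset.mem_filter] at he'
      have h3 : S.t e' ≠ S.t e := by rw [he'.2]; exact hv
      have h4 : e' ≠ e := fun h0 => h3 (by rw [h0])
      simp only [hT]
      rw [if_neg h4, if_neg h3]
      ring
    rw [e1]
    simp only [hτ]
    rw [if_neg hv]
    simp [pen]
  rw [← Finset.add_sum_erase (Finset.univ : Finset U) S.m (Finset.mem_univ (S.s e)),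
    ← Finset.add_sum_erase (Finset.univ : Finset W) S.n (Finset.mem_univ (S.t e)),
    ← Finset.add_sum_erase (Finset.univ) (fun v => S.m v * (S.ldR R v * pen l (σ v)) ^ p)
      (Finset.mem_univ (S.s e)),
    ← Finset.add_sum_erase (Finset.univ) (fun v => S.n v * (S.ldC T v * pen l (τ v)) ^ p)
      (Finset.mem_univ (S.t e)),
    Finset.sum_congr rfl (fun v hv => hothR v (Finset.ne_of_mem_erase hv)),
    Finset.sum_congr rfl (fun v hv => hothC v (Finset.ne_of_mem_erase hv))] at h1
  have h2 : S.m (S.s e) + S.n (S.t e) ≤ S.m (S.s e) * (S.ldR R (S.s e) * pen l (σ (S.s e))) ^ p +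
      S.n (S.t e) * (S.ldC T (S.t e) * pen l (τ (S.t e))) ^ p := by linarith
  -- the loads
  have hRload : S.ldR R (S.s e) ≤ 1 + l - S.x e * (d / (2 * S.col b e)) := by
    apply A4_load S a e l _ hr R
    · simp [hR]
    · intro e' hs hne
      simp only [hR]
      rw [if_neg hne, if_pos hs]
  have hTload : S.ldC T (S.t e) ≤ 1 + l - S.y e * (d / (2 * S.row a e)) := by
    apply A4_load S.swap b e l _ hc T
    · rw [S.swap_row]
      simp [hT]
    · intro e' hs hne
      simp only [hT]
      rw [if_neg hne, if_pos (show S.t e' = S.t e from hs)]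
      rfl
  have hx := S.x_pos e
  have hy := S.y_pos e
  have g1 : d / 4 ≤ d / (2 * S.col b e) := by
    apply div_le_div_of_nonneg_left hd0.le (by positivity)
    linarith
  have g2 : d / 4 ≤ d / (2 * S.row a e) := by
    apply div_le_div_of_nonneg_left hd0.le (by positivity)
    linarith
  have g3 : min (S.x e) (S.y e) * d ≤ S.x e * d := by
    apply mul_le_mul_of_nonneg_right (min_le_left _ _) hd0.le
  have g4 : min (S.x e) (S.y e) * d ≤ S.y e * d := by
    apply mul_le_mul_of_nonneg_right (min_le_right _ _) hd0.le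
  have g5 : S.ldR R (S.s e) < 1 - l := by
    have : S.x e * (d / 4) ≤ S.x e * (d / (2 * S.col b e)) :=
      mul_le_mul_of_nonneg_left g1 hx.le
    nlinarith
  have g6 : S.ldC T (S.t e) < 1 - l := by
    have : S.y e * (d / 4) ≤ S.y e * (d / (2 * S.row a e)) :=
      mul_le_mul_of_nonneg_left g2 hy.le
    nlinarith
  have hpR : pen l (σ (S.s e)) = 1 + l := by
    simp [hσ, pen]
  have hpC : pen l (τ (S.t e)) = 1 + l := by
    simp [hτ, pen]
  rw [hpR, hpC] at h2
  have hn1 : 0 ≤ S.ldR R (S.s e) := S.ldR_nonneg R hRpos _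
  have hn2 : 0 ≤ S.ldC T (S.t e) := S.ldC_nonneg T hTpos _
  have k1 : (S.ldR R (S.s e) * (1 + l)) ^ p < 1 := by
    apply pow_lt_one₀ (by positivity) _ (by omega)
    nlinarith
  have k2 : (S.ldC T (S.t e) * (1 + l)) ^ p < 1 := by
    apply pow_lt_one₀ (by positivity) _ (by omega)
    nlinarith
  have m1 := S.m_pos (S.s e)
  have m2 := S.n_pos (S.t e)
  nlinarith

end Pool.Agent.Helper53.OC
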