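import Mathlib
import Pool.Agent.Helper53.OC.Defs

/-!
# Module A5: a Karush-Kuhn-Tucker type selection
-/

namespace Pool.Agent.Helper53.OC

open Finset

variable {U W E : Type} [Fintype U] [Fintype W] [Fintype E] [DecidableEq U] [DecidableEq W]

/-- one-sided minimum from the right -/
theorem A5_deriv_nonneg {G : ℝ → ℝ} {G' v0 X : ℝ} (hG : HasDerivAt G G' v0) (hX : v0 < X)
    (hmin : ∀ v, v0 ≤ v → v ≤ X → G v0 ≤ G v) : 0 ≤ G' := by
  have h1 := (hasDerivAt_iff_tendsto_slope.1 hG).mono_left
    (nhdsWithin_mono v0 (fun x (hx : x ∈ Set.Ioi v0) => ne_of_gt hx))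
  refine ge_of_tendsto h1 ?_
  filter_upwards [Ioo_mem_nhdsGT hX] with v hv
  rw [slope_def_field]
  exact div_nonneg (sub_nonneg.2 (hmin v hv.1.le hv.2.le)) (sub_nonneg.2 hv.1.le)

/-- one-sided minimum from the left -/
theorem A5_deriv_nonpos {G : ℝ → ℝ} {G' v0 : ℝ} (hG : HasDerivAt G G' v0) (hX : 0 < v0)
    (hmin : ∀ v, 0 ≤ v → v ≤ v0 → G v0 ≤ G v) : G' ≤ 0 := by
  have h1 := (hasDerivAt_iff_tendsto_slope.1 hG).mono_left
    (nhdsWithin_mono v0 (fun x (hx : x ∈ Set.Iio v0) => ne_of_lt hx))
  refine le_of_tendsto h1 ?_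
  filter_upwards [Ioo_mem_nhdsLT hX] with v hv
  rw [slope_def_field]
  exact div_nonpos_of_nonneg_of_nonpos (sub_nonneg.2 (hmin v hv.1.le hv.2.le))
    (sub_nonpos.2 hv.2.le)

/-- the derivative of the one-variable function -/
theorem A5_hasDeriv (M α β a b c z v0 C : ℝ) (hz : z + v0 ≠ 0) :
    HasDerivAt (fun v => C + Real.exp (M * (α - a * (c * v / (z + v)))) +
      Real.exp (M * (β + b * v)))
      (Real.exp (M * (α - a * (c * v0 / (z + v0)))) * (M * (-(a * (c * z / (z + v0) ^ 2)))) +
        Real.exp (M * (β + b * v0)) * (M * b)) v0 := by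
  have h1 : HasDerivAt (fun v : ℝ => c * v) c v0 := by
    simpa using (hasDerivAt_id v0).const_mul c
  have h2 : HasDerivAt (fun v : ℝ => z + v) 1 v0 := by
    simpa using (hasDerivAt_id v0).const_add z
  have h3 := (h1.div h2 hz).const_mul a
  have h4 := ((h3.const_sub α).const_mul M).exp
  have h5 : HasDerivAt (fun v : ℝ => β + b * v) b v0 := by
    simpa using ((hasDerivAt_id v0).const_mul b).const_add β
  have h6 := (h5.const_mul M).exp
  have h7 := (h4.add h6).const_add C
  have e1 : (fun v => C + Real.exp (M * (α - a * (c * v / (z + v)))) +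
      Real.exp (M * (β + b * v))) = fun v => C + (Real.exp (M * (α - a * (c * v / (z + v)))) +
      Real.exp (M * (β + b * v))) := by
    funext v; ring
  rw [e1]
  have e2 : c * z / (z + v0) ^ 2 = (c * (z + v0) - c * v0 * 1) / (z + v0) ^ 2 := by
    congr 1; ring
  rw [e2]
  exact h7

theorem kkt (s : E → U) (t : E → W) (a b c z X : E → ℝ) (ha : ∀ e, 0 < a e) (hb : ∀ e, 0 < b e)
    (hc : ∀ e, 0 < c e) (hz : ∀ e, 0 < z e) (hX : ∀ e, 0 ≤ X e) (h : U → ℝ) (l : ℝ) (hl : 0 < l) :
    ∃ χ : E → ℝ, (∀ e, 0 ≤ χ e) ∧ (∀ e, χ e ≤ X e) ∧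
      (((∀ u, h u - ∑ e with s e = u, a e * (c e * χ e / (z e + χ e)) ≤ l) ∧
          ∀ w, ∑ e with t e = w, b e * χ e ≤ l) ∨
        ∃ k, l / 2 ≤ k ∧ k ≤ l ∧ (∃ u, k ≤ h u - ∑ e with s e = u, a e * (c e * χ e / (z e + χ e))) ∧
          ∀ e, (k ≤ h (s e) - ∑ e' with s e' = s e, a e' * (c e' * χ e' / (z e' + χ e')) →
              ∑ e' with t e' = t e, b e' * χ e' < k → χ e = X e) ∧
            (h (s e) - ∑ e' with s e' = s e, a e' * (c e' * χ e' / (z e' + χ e')) < k →
              k ≤ ∑ e' with t e' = t e, b e' * χ e' → χ e = 0)) := by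
  classical
  set kR : (E → ℝ) → U → ℝ := fun χ u =>
    h u - ∑ e with s e = u, a e * (c e * χ e / (z e + χ e)) with hkR
  set kC : (E → ℝ) → W → ℝ := fun χ w => ∑ e with t e = w, b e * χ e with hkC
  -- the constant K
  set C1 : E → ℝ := fun e => b e * (z e + X e) ^ 2 / (a e * c e * z e) with hC1
  set C2 : E → ℝ := fun e => a e * c e / (b e * z e) with hC2
  set K : ℝ := ∑ e, (|Real.log (C1 e)| + |Real.log (C2 e)|) with hK
  have hK0 : 0 ≤ K := Finset.sum_nonneg fun e _ => by positivity
  have hKle : ∀ e, |Real.log (C1 e)| + |Real.log (C2 e)| ≤ K := fun e =>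
    Finset.single_le_sum (f := fun e => |Real.log (C1 e)| + |Real.log (C2 e)|)
      (fun e _ => by positivity) (mem_univ e)
  have hK1 : ∀ e, Real.log (C1 e) ≤ K := fun e =>
    (le_abs_self _).trans ((le_add_of_nonneg_right (abs_nonneg _)).trans (hKle e))
  have hK2 : ∀ e, Real.log (C2 e) ≤ K := fun e =>
    (le_abs_self _).trans ((le_add_of_nonneg_left (abs_nonneg _)).trans (hKle e))
  have hC1p : ∀ e, 0 < C1 e := fun e => by
    have := ha e; have := hb e; have := hc e; have := hz e; have := hX e
    simp only [hC1]; positivity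
  have hC2p : ∀ e, 0 < C2 e := fun e => by
    have := ha e; have := hb e; have := hc e; have := hz e
    simp only [hC2]; positivity
  set N : ℕ := Fintype.card (U ⊕ W) with hN
  set M : ℝ := 2 * (N + 1) * (K + 1) / l with hM
  have hM0 : 0 < M := by rw [hM]; positivity
  -- minimiser
  set F : (E → ℝ) → ℝ := fun χ => ∑ u, Real.exp (M * kR χ u) + ∑ w, Real.exp (M * kC χ w) with hF
  have hcomp : IsCompact (Set.univ.pi fun e => Set.Icc (0 : ℝ) (X e)) :=
    isCompact_univ_pi fun e => isCompact_Icc
  have hne : (Set.univ.pi fun e => Set.Icc (0 : ℝ) (X e)).Nonempty :=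
    ⟨fun _ => 0, fun e _ => ⟨le_rfl, hX e⟩⟩
  have hcont : ContinuousOn F (Set.univ.pi fun e => Set.Icc (0 : ℝ) (X e)) := by
    rw [hF]
    refine ContinuousOn.add ?_ ?_
    · refine continuousOn_finsetSum _ fun u _ => ?_
      refine Real.continuous_exp.comp_continuousOn ?_
      refine continuousOn_const.mul ?_
      refine continuousOn_const.sub ?_
      refine continuousOn_finsetSum _ fun e _ => ?_
      refine continuousOn_const.mul ?_
      refine ContinuousOn.div ?_ ?_ ?_
      · exact continuousOn_const.mul (continuous_apply e).continuousOn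
      · exact continuousOn_const.add (continuous_apply e).continuousOn
      · intro χ hχ
        have h1 := (hχ e (Set.mem_univ e)).1
        have h2 := hz e
        positivity
    · refine continuousOn_finsetSum _ fun w _ => ?_
      refine Real.continuous_exp.comp_continuousOn ?_
      refine continuousOn_const.mul ?_
      refine continuousOn_finsetSum _ fun e _ => ?_
      exact continuousOn_const.mul (continuous_apply e).continuousOn
  obtain ⟨χ, hχ, hmin⟩ := hcomp.exists_isMinOn hne hcont
  have h0 : ∀ e, 0 ≤ χ e := fun e => (hχ e (Set.mem_univ e)).1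
  have h1 : ∀ e, χ e ≤ X e := fun e => (hχ e (Set.mem_univ e)).2
  -- the one variable function
  have hone : ∀ e : E, ∃ α β C : ℝ,
      (∀ v, F (Function.update χ e v) = C + Real.exp (M * (α - a e * (c e * v / (z e + v)))) +
        Real.exp (M * (β + b e * v))) ∧
      α - a e * (c e * χ e / (z e + χ e)) = kR χ (s e) ∧ β + b e * χ e = kC χ (t e) := by
    intro e
    refine ⟨kR χ (s e) + a e * (c e * χ e / (z e + χ e)), kC χ (t e) - b e * χ e,
      ∑ u ∈ univ.erase (s e), Real.exp (M * kR χ u) +
        ∑ w ∈ univ.erase (t e), Real.exp (M * kC χ w), ?_, by ring, by ring⟩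
    intro v
    have hR : ∀ u, kR (Function.update χ e v) u = if u = s e then
        kR χ (s e) + a e * (c e * χ e / (z e + χ e)) - a e * (c e * v / (z e + v))
        else kR χ u := by
      intro u
      split_ifs with hu
      · subst hu
        simp only [hkR]
        have hm : e ∈ univ.filter (fun e' => s e' = s e) := by simp
        rw [← Finset.add_sum_erase _ _ hm, ← Finset.add_sum_erase _ (fun e' =>
          a e' * (c e' * χ e' / (z e' + χ e'))) hm]
        rw [Function.update_self]
        have : ∑ x ∈ (univ.filter (fun e' => s e' = s e)).erase e,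
            a x * (c x * Function.update χ e v x / (z x + Function.update χ e v x)) =
            ∑ x ∈ (univ.filter (fun e' => s e' = s e)).erase e,
            a x * (c x * χ x / (z x + χ x)) := by
          refine Finset.sum_congr rfl fun x hx => ?_
          rw [Function.update_of_ne (Finset.ne_of_mem_erase hx)]
        rw [this]; ring
      · simp only [hkR]
        congr 1
        refine Finset.sum_congr rfl fun x hx => ?_
        rw [Function.update_of_ne]
        rintro rfl
        exact hu ((Finset.mem_filter.1 hx).2.symm)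
    have hCc : ∀ w, kC (Function.update χ e v) w = if w = t e then
        kC χ (t e) - b e * χ e + b e * v else kC χ w := by
      intro w
      split_ifs with hw
      · subst hw
        simp only [hkC]
        have hm : e ∈ univ.filter (fun e' => t e' = t e) := by simp
        rw [← Finset.add_sum_erase _ _ hm, ← Finset.add_sum_erase _ (fun e' =>
          b e' * χ e') hm]
        rw [Function.update_self]
        have : ∑ x ∈ (univ.filter (fun e' => t e' = t e)).erase e,
            b x * Function.update χ e v x =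
            ∑ x ∈ (univ.filter (fun e' => t e' = t e)).erase e, b x * χ x := by
          refine Finset.sum_congr rfl fun x hx => ?_
          rw [Function.update_of_ne (Finset.ne_of_mem_erase hx)]
        rw [this]; ring
      · simp only [hkC]
        refine Finset.sum_congr rfl fun x hx => ?_
        rw [Function.update_of_ne]
        rintro rfl
        exact hw ((Finset.mem_filter.1 hx).2.symm)
    simp only [hF]
    rw [← Finset.add_sum_erase _ _ (mem_univ (s e)), ← Finset.add_sum_erase _
      (fun w => Real.exp (M * kC (Function.update χ e v) w)) (mem_univ (t e))]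
    have e1 : ∑ x ∈ univ.erase (s e), Real.exp (M * kR (Function.update χ e v) x) =
        ∑ x ∈ univ.erase (s e), Real.exp (M * kR χ x) := by
      refine Finset.sum_congr rfl fun x hx => ?_
      rw [hR, if_neg (Finset.ne_of_mem_erase hx)]
    have e2 : ∑ x ∈ univ.erase (t e), Real.exp (M * kC (Function.update χ e v) x) =
        ∑ x ∈ univ.erase (t e), Real.exp (M * kC χ x) := by
      refine Finset.sum_congr rfl fun x hx => ?_
      rw [hCc, if_neg (Finset.ne_of_mem_erase hx)]
    rw [e1, e2, hR, hCc, if_pos rfl, if_pos rfl]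
    ring
  have hminv : ∀ e v, 0 ≤ v → v ≤ X e → F (Function.update χ e (χ e)) ≤
      F (Function.update χ e v) := by
    intro e v hv0 hv1
    rw [Function.update_eq_self]
    refine hmin ?_
    intro e' _
    by_cases he : e' = e
    · subst he; rw [Function.update_self]; exact ⟨hv0, hv1⟩
    · rw [Function.update_of_ne he]; exact ⟨h0 e', h1 e'⟩
  have hfirst : ∀ e, χ e < X e → M * (kR χ (s e) - kC χ (t e)) ≤ K := by
    intro e he
    obtain ⟨α, β, C, hFv, hα, hβ⟩ := hone e
    have hzc : 0 < z e + χ e := by have := hz e; have := h0 e; positivity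
    have hd := A5_deriv_nonneg (A5_hasDeriv M α β (a e) (b e) (c e) (z e) (χ e) C hzc.ne') he
      (fun v hv hvX => by
        have := hminv e v ((h0 e).trans hv) hvX
        rw [hFv, hFv] at this
        exact this)
    rw [hα, hβ] at hd
    have ha' := ha e; have hb' := hb e; have hc' := hc e; have hz' := hz e
    have h2 : Real.exp (M * kR χ (s e)) * (a e * (c e * z e / (z e + χ e) ^ 2)) ≤
        Real.exp (M * kC χ (t e)) * b e := by
      have h3 : 0 ≤ M * (Real.exp (M * kC χ (t e)) * b e -
          Real.exp (M * kR χ (s e)) * (a e * (c e * z e / (z e + χ e) ^ 2))) := by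
        calc (0 : ℝ) ≤ _ := hd
          _ = _ := by ring
      have h4 := nonneg_of_mul_nonneg_right h3 hM0
      linarith
    have h5 : Real.exp (M * kR χ (s e)) ≤ Real.exp (M * kC χ (t e)) * C1 e := by
      have h6 : Real.exp (M * kR χ (s e)) ≤
          Real.exp (M * kC χ (t e)) * (b e * (z e + χ e) ^ 2 / (a e * c e * z e)) := by
        have e3 : Real.exp (M * kR χ (s e)) = Real.exp (M * kR χ (s e)) *
            (a e * (c e * z e / (z e + χ e) ^ 2)) * ((z e + χ e) ^ 2 / (a e * c e * z e)) := by
          field_simp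
        calc Real.exp (M * kR χ (s e)) = _ := e3
          _ ≤ Real.exp (M * kC χ (t e)) * b e * ((z e + χ e) ^ 2 / (a e * c e * z e)) :=
            mul_le_mul_of_nonneg_right h2 (by positivity)
          _ = _ := by ring
      refine h6.trans (mul_le_mul_of_nonneg_left ?_ (Real.exp_pos _).le)
      simp only [hC1]
      have hX' := h1 e
      have h0' := h0 e
      gcongr
    have h7 : M * kR χ (s e) ≤ M * kC χ (t e) + Real.log (C1 e) := by
      have h8 := Real.log_le_log (Real.exp_pos _) h5
      rwa [Real.log_exp, Real.log_mul (Real.exp_pos _).ne' (hC1p e).ne', Real.log_exp] at h8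
    have := hK1 e
    linarith
  have hsecond : ∀ e, 0 < χ e → M * (kC χ (t e) - kR χ (s e)) ≤ K := by
    intro e he
    obtain ⟨α, β, C, hFv, hα, hβ⟩ := hone e
    have hzc : 0 < z e + χ e := by have := hz e; have := h0 e; positivity
    have hd := A5_deriv_nonpos (A5_hasDeriv M α β (a e) (b e) (c e) (z e) (χ e) C hzc.ne') he
      (fun v hv hvX => by
        have := hminv e v hv (hvX.trans (h1 e))
        rw [hFv, hFv] at this
        exact this)
    rw [hα, hβ] at hd
    have ha' := ha e; have hb' := hb e; have hc' := hc e; have hz' := hz e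
    have h2 : Real.exp (M * kC χ (t e)) * b e ≤
        Real.exp (M * kR χ (s e)) * (a e * (c e * z e / (z e + χ e) ^ 2)) := by
      have h3 : 0 ≤ M * (Real.exp (M * kR χ (s e)) * (a e * (c e * z e / (z e + χ e) ^ 2)) -
          Real.exp (M * kC χ (t e)) * b e) := by
        have e5 : M * (Real.exp (M * kR χ (s e)) * (a e * (c e * z e / (z e + χ e) ^ 2)) -
          Real.exp (M * kC χ (t e)) * b e) =
          -(Real.exp (M * kR χ (s e)) * (M * (-(a e * (c e * z e / (z e + χ e) ^ 2)))) +
            Real.exp (M * kC χ (t e)) * (M * b e)) := by ring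
        rw [e5]
        linarith
      have h4 := nonneg_of_mul_nonneg_right h3 hM0
      linarith
    have h5 : Real.exp (M * kC χ (t e)) ≤ Real.exp (M * kR χ (s e)) * C2 e := by
      have h6 : a e * (c e * z e / (z e + χ e) ^ 2) ≤ a e * (c e * z e / (z e) ^ 2) := by
        have h0' := h0 e
        gcongr
        linarith
      have e4 : a e * (c e * z e / (z e) ^ 2) / b e = C2 e := by
        simp only [hC2]; field_simp
      calc Real.exp (M * kC χ (t e)) = Real.exp (M * kC χ (t e)) * b e / b e := by field_simp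
        _ ≤ Real.exp (M * kR χ (s e)) * (a e * (c e * z e / (z e + χ e) ^ 2)) / b e :=
          div_le_div_of_nonneg_right h2 hb'.le
        _ ≤ Real.exp (M * kR χ (s e)) * (a e * (c e * z e / (z e) ^ 2)) / b e := by
          gcongr
        _ = Real.exp (M * kR χ (s e)) * C2 e := by rw [← e4]; ring
    have h7 : M * kC χ (t e) ≤ M * kR χ (s e) + Real.log (C2 e) := by
      have h8 := Real.log_le_log (Real.exp_pos _) h5
      rwa [Real.log_exp, Real.log_mul (Real.exp_pos _).ne' (hC2p e).ne', Real.log_exp] at h8
    have := hK2 e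
    linarith
  refine ⟨χ, h0, h1, ?_⟩
  by_cases hall : (∀ u, kR χ u ≤ l) ∧ ∀ w, kC χ w ≤ l
  · exact Or.inl hall
  right
  -- choice of k
  set ε : ℝ := (K + 1) / M with hε
  have hε0 : 0 < ε := by rw [hε]; positivity
  have hεM : M * ε = K + 1 := by rw [hε]; field_simp
  have hNε : (N + 1) * ε = l / 2 := by
    rw [hε, hM]; field_simp
  set val : U ⊕ W → ℝ := Sum.elim (kR χ) (kC χ) with hval
  have hfree : ∃ i : Fin (N + 1), ∀ q, ¬ (l / 2 + i * ε ≤ val q ∧ val q < l / 2 + (i + 1) * ε) := by
    by_contra hcon
    push Not at hcon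
    choose f hf using hcon
    have hinj : Function.Injective f := by
      intro i j hij
      by_contra hne'
      rcases lt_or_gt_of_ne hne' with hlt | hlt
      · have h3 : ((i : ℕ) : ℝ) + 1 ≤ (j : ℕ) := by exact_mod_cast hlt
        have h4 := (hf i).2
        have h5 := (hf j).1
        rw [← hij] at h5
        nlinarith
      · have h3 : ((j : ℕ) : ℝ) + 1 ≤ (i : ℕ) := by exact_mod_cast hlt
        have h4 := (hf j).2
        have h5 := (hf i).1
        rw [← hij] at h4
        nlinarith
    have := Fintype.card_le_of_injective f hinj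
    rw [Fintype.card_fin] at this
    omega
  obtain ⟨i, hi⟩ := hfree
  set k : ℝ := l / 2 + ((i : ℕ) + 1) * ε with hk
  have hiN : ((i : ℕ) : ℝ) + 1 ≤ N + 1 := by
    have := i.2
    have h3 : (i : ℕ) + 1 ≤ N + 1 := by omega
    exact_mod_cast h3
  have hkl : k ≤ l := by
    have h3 : (((i : ℕ) : ℝ) + 1) * ε ≤ (N + 1) * ε := mul_le_mul_of_nonneg_right hiN hε0.le
    rw [hk]; linarith
  have hk2 : l / 2 ≤ k := by rw [hk]; have : 0 ≤ (((i : ℕ) : ℝ) + 1) * ε := by positivity
                             linarith
  have hgap : ∀ q, val q < k → val q < k - ε := by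
    intro q hq
    by_contra h3
    push Not at h3
    refine hi q ⟨?_, hq⟩
    rw [hk] at h3
    linarith
  have hprop : ∀ e, (k ≤ kR χ (s e) → kC χ (t e) < k → χ e = X e) ∧
      (kR χ (s e) < k → k ≤ kC χ (t e) → χ e = 0) := by
    intro e
    refine ⟨fun h3 h4 => ?_, fun h3 h4 => ?_⟩
    · by_contra h5
      have h6 := hfirst e (lt_of_le_of_ne (h1 e) h5)
      have h7 := hgap (Sum.inr (t e)) h4
      have h8 : kC χ (t e) < k - ε := h7
      have h9 : ε < kR χ (s e) - kC χ (t e) := by linarith
      have h10 : M * ε < M * (kR χ (s e) - kC χ (t e)) := mul_lt_mul_of_pos_left h9 hM0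
      linarith
    · by_contra h5
      have h6 := hsecond e (lt_of_le_of_ne (h0 e) (Ne.symm h5))
      have h7 := hgap (Sum.inl (s e)) h3
      have h8 : kR χ (s e) < k - ε := h7
      have h9 : ε < kC χ (t e) - kR χ (s e) := by linarith
      have h10 : M * ε < M * (kC χ (t e) - kR χ (s e)) := mul_lt_mul_of_pos_left h9 hM0
      linarith
  refine ⟨k, hk2, hkl, ?_, hprop⟩
  by_contra hno
  push Not at hno
  have hno' : ∀ u, kR χ u < k := hno
  refine hall ⟨fun u => ((hno' u).le.trans hkl), fun w => ?_⟩
  by_contra hw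
  push Not at hw
  have h3 : kC χ w = 0 := by
    simp only [hkC]
    refine Finset.sum_eq_zero fun e he => ?_
    have hte : t e = w := (Finset.mem_filter.1 he).2
    have h4 : χ e = 0 := (hprop e).2 (hno' (s e)) (by rw [hte]; linarith)
    rw [h4, mul_zero]
  linarith

end Pool.Agent.Helper53.OC
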