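import Mathlib
import Pool.Agent.Helper53.OC.Defs

/-!
Ordered Ramsey numbers of the cube (MP_09b4c2), module A6: bounds for the terms with negative
interaction.
-/

namespace Pool.Agent.Helper53.OC

open Finset

variable {U W E : Type} [Fintype U] [Fintype W] [Fintype E] [DecidableEq U] [DecidableEq W]

/-- if `y ≥ x` and `y min(p, 1/x) ≤ 1/50` then `y p ≤ 1/50` -/
theorem A6_min {x y p : ℝ} (hx : 0 < x) (hxy : x ≤ y) (h : y * min p (1 / x) ≤ 1 / 50) :
    y * p ≤ 1 / 50 := by
  rcases le_total p (1 / x) with h1 | h1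
  · rwa [min_eq_left h1] at h
  · rw [min_eq_right h1] at h
    exfalso
    have h2 : 1 ≤ y * (1 / x) := by
      rw [mul_one_div, le_div_iff₀ hx, one_mul]
      exact hxy
    linarith

theorem bbound (S : Sys U W E) (p : ℕ) (hp : 1 ≤ p)
    (he : ∀ a e, S.row a e < 1 / 40 → S.x e * min (p : ℝ) (1 / S.y e) ≤ 1 / 50)
    (hf : ∀ b e, S.col b e < 1 / 40 → S.y e * min (p : ℝ) (1 / S.x e) ≤ 1 / 50)
    (hp' : ∀ a b e, S.q a b e < S.row a e * S.col b e →
      min (S.x e) (S.y e) * (S.row a e * S.col b e - S.q a b e) ≤ 8 * (1 / (1000 * p)))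
    (b : Bool) (e : E) (hI : S.q b b e < S.row b e * S.col b e) :
    (S.x e ≤ S.y e → S.x e * (S.row b e - S.q b b e / S.col b e) ≤ 2 / p) ∧
    (S.y e < S.x e → S.y e * ((S.row b e * S.col b e - S.q b b e) / S.row (!b) e) ≤ 2 / p) := by
  have hp0 : (0 : ℝ) < p := by
    have : (1 : ℝ) ≤ p := by exact_mod_cast hp
    linarith
  have hx := S.x_pos e
  have hy := S.y_pos e
  have hκ := S.col_pos b e
  have hρ' := S.row_pos (!b) e
  have hQ := S.q_pos b b e
  have h1 := hp' b b e hI
  have hadd := S.row_add b e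
  have hρ2 := S.row_lt_two b e
  have e8 : 8 * (1 / (1000 * (p : ℝ))) * 40 ≤ 2 / p := by
    rw [le_div_iff₀ hp0]
    field_simp
    norm_num
  refine ⟨fun hxy => ?_, fun hxy => ?_⟩
  · rw [min_eq_left hxy] at h1
    have e1 : S.row b e - S.q b b e / S.col b e =
        (S.row b e * S.col b e - S.q b b e) / S.col b e := by
      field_simp
    by_cases hc : S.col b e < 1 / 40
    · have h2 := A6_min hx hxy (hf b e hc)
      have h3 : S.x e * p ≤ 1 / 50 := (mul_le_mul_of_nonneg_right hxy hp0.le).trans h2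
      have h4 : S.row b e - S.q b b e / S.col b e ≤ 2 := by
        have : 0 < S.q b b e / S.col b e := div_pos hQ hκ
        linarith
      rw [le_div_iff₀ hp0]
      have h5 : S.x e * (S.row b e - S.q b b e / S.col b e) ≤ S.x e * 2 :=
        mul_le_mul_of_nonneg_left h4 hx.le
      have h6 := mul_le_mul_of_nonneg_right h5 hp0.le
      linarith
    · push Not at hc
      rw [e1, ← mul_div_assoc, div_le_iff₀ hκ]
      refine h1.trans ?_
      have h2 : 2 / (p : ℝ) * (1 / 40) ≤ 2 / p * S.col b e :=
        mul_le_mul_of_nonneg_left hc (by positivity)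
      linarith
  · rw [min_eq_right hxy.le] at h1
    by_cases hc : S.row (!b) e < 1 / 40
    · have h2 := A6_min hy hxy.le (he (!b) e hc)
      have h3 : S.y e * p ≤ 1 / 50 := (mul_le_mul_of_nonneg_right hxy.le hp0.le).trans h2
      have h4 : (S.row b e * S.col b e - S.q b b e) / S.row (!b) e ≤ 2 := by
        rw [div_le_iff₀ hρ']
        have h5 := S.q_add_col b b e
        have h6 := S.q_add_row (!b) b e
        have h7 := S.q_pos (!b) (!b) e
        have h8 : S.row b e = 2 - S.row (!b) e := by linarith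
        rw [h8]
        nlinarith [mul_pos hρ' hκ]
      rw [le_div_iff₀ hp0]
      have h5 : S.y e * ((S.row b e * S.col b e - S.q b b e) / S.row (!b) e) ≤ S.y e * 2 :=
        mul_le_mul_of_nonneg_left h4 hy.le
      have h6 := mul_le_mul_of_nonneg_right h5 hp0.le
      linarith
    · push Not at hc
      rw [← mul_div_assoc, div_le_iff₀ hρ']
      refine h1.trans ?_
      have h2 : 2 / (p : ℝ) * (1 / 40) ≤ 2 / p * S.row (!b) e :=
        mul_le_mul_of_nonneg_left hc (by positivity)
      linarith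

end Pool.Agent.Helper53.OC
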