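import Mathlib
import Pool.Agent.Helper53.OC.Defs

/-!
Ordered Ramsey numbers of the cube (MP_09b4c2), module A7a: gain of the heavy rows.
-/

set_option autoImplicit false

namespace Pool.Agent.Helper53.OC

open Finset

variable {U W E : Type} [Fintype U] [Fintype W] [Fintype E] [DecidableEq U] [DecidableEq W]

theorem A7a_rel_nonneg (S : Sys U W E) (b : Bool) (χ : E → ℝ) (e : E) (h0 : 0 ≤ χ e) :
    0 ≤ S.rel b χ e := by
  unfold Sys.rel
  have h1 := S.cc_pos b e
  have h2 := S.col_pos b e
  positivity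

theorem A7a_cap_zero (S : Sys U W E) (b : Bool) (e : E) (h : ¬ 0 < S.cap b e) :
    S.cap b e = 0 := le_antisymm (not_lt.1 h) (S.cap_nonneg b e)

theorem A7a_rel_zero (S : Sys U W E) (b : Bool) (χ : E → ℝ) (e : E) (h0 : 0 ≤ χ e)
    (h1 : χ e ≤ S.cap b e) (h : ¬ 0 < S.cap b e) : S.rel b χ e = 0 := by
  have h2 := A7a_cap_zero S b e h
  have h3 : χ e = 0 := by linarith
  unfold Sys.rel
  rw [h3, mul_zero, zero_div]

theorem A7a_cap_pos (S : Sys U W E) (b : Bool) (e : E) (h : 0 < S.cap b e) :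
    S.row b e < S.cc b e ∧ 1 / 40 ≤ S.row b e ∧
      S.cap b e = S.col b e * (S.cc b e - S.row b e) / S.row b e := by
  unfold Sys.cap at h ⊢
  split_ifs at h ⊢ with h1
  · exact ⟨h1.1, h1.2, rfl⟩
  · exact absurd h (lt_irrefl _)

theorem A7a_cap_not (S : Sys U W E) (b : Bool) (e : E) (h : ¬ 0 < S.cap b e)
    (h2 : S.row b e < S.cc b e) : S.row b e < 1 / 40 := by
  by_contra h3
  apply h
  unfold Sys.cap
  rw [if_pos ⟨h2, not_lt.1 h3⟩]
  have h4 := S.col_pos b e
  have h5 := S.row_pos b e
  have h6 : 0 < S.cc b e - S.row b e := by linarith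
  positivity

theorem A7a_rel_cap (S : Sys U W E) (b : Bool) (χ : E → ℝ) (e : E) (h1 : χ e = S.cap b e)
    (h : 0 < S.cap b e) : S.rel b χ e = S.cc b e - S.row b e := by
  obtain ⟨h2, h3, h4⟩ := A7a_cap_pos S b e h
  unfold Sys.rel
  rw [h1, h4]
  have h5 := S.col_pos b e
  have h6 := S.row_pos b e
  have h7 := S.cc_pos b e
  have e1 : S.col b e + S.col b e * (S.cc b e - S.row b e) / S.row b e =
      S.col b e * S.cc b e / S.row b e := by
    field_simp
    ring
  rw [e1]
  field_simp

/-- the inequality for one edge -/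
theorem A7a_edge (S : Sys U W E) (p : ℕ) (hp : 1 ≤ p)
    (hb : ∀ b e, S.q b b e < S.row b e * S.col b e →
      (S.x e ≤ S.y e → S.x e * (S.row b e - S.cc b e) ≤ 2 / p) ∧
      (S.y e < S.x e → S.y e * ((S.row b e * S.col b e - S.q b b e) / S.row (!b) e) ≤ 2 / p))
    (b : Bool) (χ : E → ℝ) (h0 : ∀ e, 0 ≤ χ e) (h1 : ∀ e, χ e ≤ S.cap b e) (k : ℝ)
    (hcap : ∀ e, k ≤ S.kR b χ (S.s e) → S.kC χ (S.t e) < k → χ e = S.cap b e)
    (e : E) (hu : k ≤ S.kR b χ (S.s e)) :
    S.x e * (S.cR b p χ k e - 2 + S.row b e) ≤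
      -((1 - S.θ e) * S.x e * (S.cc b e - S.row b e)) + (1 - S.θ e) * S.x e * S.rel b χ e +
      (if S.row b e < 1 / 40 then S.x e * min (p : ℝ) (1 / S.y e) * (2 / p) else 0) +
      (if S.θ e ≠ 0 then 1 / (p : ℝ) else 0) := by
  have hp0 : (0 : ℝ) < p := by exact_mod_cast hp
  have hx := S.x_pos e
  have hy := S.y_pos e
  have hθ0 := S.θ_nn e
  have hθ1 := S.θ_le e
  have hrow := S.row_pos b e
  have hrow2 := S.row_add b e
  have hcol := S.col_pos b e
  have hcc := S.cc_pos b e
  have hcc2 := S.cc_lt_two b e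
  have hrel := A7a_rel_nonneg S b χ e (h0 e)
  have hmul := S.col_mul_cc b e
  have hB : 0 ≤ (if S.row b e < 1 / 40 then S.x e * min (p : ℝ) (1 / S.y e) * (2 / p) else 0) := by
    split_ifs
    · have : 0 < min (p : ℝ) (1 / S.y e) := lt_min hp0 (by positivity)
      positivity
    · exact le_rfl
  have hT : 0 ≤ (if S.θ e ≠ 0 then 1 / (p : ℝ) else 0) := by
    split_ifs <;> positivity
  have hx1 : 0 ≤ (1 - S.θ e) * S.x e := mul_nonneg (by linarith) hx.le
  unfold Sys.cR
  rw [if_pos hu]
  by_cases hz : S.zc b p χ k (S.t e)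
  · rw [if_pos hz]
    by_cases ht : k ≤ S.kC χ (S.t e) ∧ 0 < S.cap b e
    · rw [if_pos ht]
      obtain ⟨g1, -, -⟩ := A7a_cap_pos S b e ht.2
      have g2 : 0 ≤ S.θ e * S.x e * (S.cc b e - S.row b e) :=
        mul_nonneg (mul_nonneg hθ0 hx.le) (by linarith)
      have g3 : 0 ≤ ((1 - S.θ e) - 1 / 4) * S.x e * S.rel b χ e :=
        mul_nonneg (mul_nonneg (by linarith) hx.le) hrel
      linarith
    · rw [if_neg ht]
      by_cases hex : S.exc b e
      · rw [if_pos hex]
        have g1 : S.cc b e < S.row b e := by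
          have := hex.2.1
          rw [← hmul] at this
          nlinarith
        have g2 : ¬ 0 < S.cap b e := fun h => by
          have := (A7a_cap_pos S b e h).1
          linarith
        rw [A7a_rel_zero S b χ e (h0 e) (h1 e) g2]
        have g3 : 0 ≤ (1 - S.θ e) * S.x e * (S.row b e - S.cc b e) :=
          mul_nonneg hx1 (by linarith)
        have g4 : S.row (!b) e - 2 + S.row b e = 0 := by linarith
        rw [g4]
        linarith
      · rw [if_neg hex]
        by_cases hc : 0 < S.cap b e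
        · -- the column is light
          have g1 : S.kC χ (S.t e) < k := by
            by_contra h
            exact ht ⟨not_lt.1 h, hc⟩
          rw [A7a_rel_cap S b χ e (hcap e hu g1) hc]
          have g2 := (A7a_cap_pos S b e hc).1
          have g3 : 0 ≤ S.x e * (S.cc b e - S.row b e) := mul_nonneg hx.le (by linarith)
          linarith
        · rw [A7a_rel_zero S b χ e (h0 e) (h1 e) hc]
          rcases le_or_gt 0 (S.cc b e - S.row b e) with g | g
          · have g2 : 0 ≤ S.θ e * S.x e * (S.cc b e - S.row b e) :=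
              mul_nonneg (mul_nonneg hθ0 hx.le) g
            linarith
          · by_cases hθ : S.θ e = 0
            · rw [hθ] at hT ⊢
              have : (if (0 : ℝ) ≠ 0 then 1 / (p : ℝ) else 0) = 0 := by simp
              rw [this]
              linarith
            · rw [if_pos hθ]
              have g1 : S.q b b e < S.row b e * S.col b e := by
                rw [← hmul]
                nlinarith
              have g2 : S.x e ≤ S.y e := by
                by_contra h
                exact hex ⟨hθ, g1, not_le.1 h⟩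
              have g3 := (hb b e g1).1 g2
              have g4 : S.θ e * (S.x e * (S.row b e - S.cc b e)) ≤ 1 / 2 * (2 / p) := by
                apply mul_le_mul hθ1 g3 _ (by norm_num)
                exact mul_nonneg hx.le (by linarith)
              have g5 : (1 : ℝ) / 2 * (2 / p) = 1 / p := by ring
              rw [g5] at g4
              linarith
  · rw [if_neg hz]
    have g4 : S.row (!b) e - 2 + S.row b e = 0 := by linarith
    rw [g4, mul_zero]
    have g1 : S.kC χ (S.t e) < k := by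
      by_contra h
      exact hz (Or.inl (not_lt.1 h))
    by_cases hc : 0 < S.cap b e
    · rw [A7a_rel_cap S b χ e (hcap e hu g1) hc]
      linarith
    · rw [A7a_rel_zero S b χ e (h0 e) (h1 e) hc]
      rcases le_or_gt (S.cc b e - S.row b e) 0 with g | g
      · have g3 : 0 ≤ (1 - S.θ e) * S.x e * (S.row b e - S.cc b e) :=
          mul_nonneg hx1 (by linarith)
        linarith
      · have g2 := A7a_cap_not S b e hc (by linarith)
        have g3 : ¬ 1 < p * S.y e := fun h => hz (Or.inr ⟨e, rfl, hu, g2, h⟩)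
        rw [if_pos g2]
        have g5 : min (p : ℝ) (1 / S.y e) = p := by
          apply min_eq_left
          rw [le_div_iff₀ hy]
          exact not_lt.1 g3
        rw [g5]
        have g6 : S.x e * p * (2 / p) = 2 * S.x e := by
          field_simp
        rw [g6]
        have g7 : (1 - S.θ e) * S.x e * (S.cc b e - S.row b e) ≤ S.x e * 2 := by
          apply mul_le_mul _ (by linarith) g.le hx.le
          nlinarith
        linarith

/-- A7a: gain of the heavy rows -/
theorem comp_row (S : Sys U W E) (p : ℕ) (hp : 1 ≤ p)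
    (hr : ∀ a u, -(1 / (1000 * p) : ℝ) ≤ ∑ e with S.s e = u, S.x e * (S.row a e - 1))
    (he : ∀ a u, ∑ e with (S.s e = u ∧ S.row a e < 1 / 40),
      S.x e * min (p : ℝ) (1 / S.y e) ≤ 1 / 50)
    (hb : ∀ b e, S.q b b e < S.row b e * S.col b e →
      (S.x e ≤ S.y e → S.x e * (S.row b e - S.cc b e) ≤ 2 / p) ∧
      (S.y e < S.x e → S.y e * ((S.row b e * S.col b e - S.q b b e) / S.row (!b) e) ≤ 2 / p))
    (b : Bool) (χ : E → ℝ) (h0 : ∀ e, 0 ≤ χ e) (h1 : ∀ e, χ e ≤ S.cap b e) (k : ℝ)
    (hcap : ∀ e, k ≤ S.kR b χ (S.s e) → S.kC χ (S.t e) < k → χ e = S.cap b e)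
    (u : U) (hu : k ≤ S.kR b χ u) : S.ldR (S.cR b p χ k) u ≤ 1 - k + 3 / p := by
  classical
  have hp0 : (0 : ℝ) < p := by exact_mod_cast hp
  have e1 : ∑ e with S.s e = u, S.x e * (S.cR b p χ k e - 1) =
      ∑ e with S.s e = u, S.x e * (S.cR b p χ k e - 2 + S.row b e) -
      ∑ e with S.s e = u, S.x e * (S.row b e - 1) := by
    rw [← sum_sub_distrib]
    refine sum_congr rfl fun e _ => ?_
    ring
  have e2 : ∑ e with S.s e = u, S.x e * (S.cR b p χ k e - 2 + S.row b e) ≤
      ∑ e with S.s e = u, (-((1 - S.θ e) * S.x e * (S.cc b e - S.row b e)) +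
        (1 - S.θ e) * S.x e * S.rel b χ e +
        (if S.row b e < 1 / 40 then S.x e * min (p : ℝ) (1 / S.y e) * (2 / p) else 0) +
        (if S.θ e ≠ 0 then 1 / (p : ℝ) else 0)) := by
    refine sum_le_sum fun e hes => ?_
    rw [mem_filter] at hes
    exact A7a_edge S p hp hb b χ h0 h1 k hcap e (by rw [hes.2]; exact hu)
  rw [sum_add_distrib, sum_add_distrib, sum_add_distrib, sum_neg_distrib] at e2
  have e3 : ∑ e with S.s e = u,
      (if S.row b e < 1 / 40 then S.x e * min (p : ℝ) (1 / S.y e) * (2 / p) else 0) ≤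
      1 / 50 * (2 / p) := by
    rw [← sum_filter, filter_filter, ← sum_mul]
    have := he b u
    gcongr
  have e4 : ∑ e with S.s e = u, (if S.θ e ≠ 0 then 1 / (p : ℝ) else 0) ≤ 1 / p := by
    rw [← sum_filter, filter_filter, sum_const, nsmul_eq_mul]
    have : #({e | S.s e = u ∧ S.θ e ≠ 0} : Finset E) ≤ 1 := by
      rw [card_le_one]
      intro e he1 e' he2
      rw [mem_filter] at he1 he2
      exact S.θ_row e e' he1.2.2 he2.2.2 (he1.2.1.trans he2.2.1.symm)
    have h3 : ((#({e | S.s e = u ∧ S.θ e ≠ 0} : Finset E) : ℕ) : ℝ) ≤ 1 := by exact_mod_cast this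
    have h4 : (0 : ℝ) ≤ 1 / p := by positivity
    nlinarith
  have e5 := hr b u
  have e6 : S.kR b χ u = ∑ e with S.s e = u, (1 - S.θ e) * S.x e * (S.cc b e - S.row b e) -
    ∑ e with S.s e = u, (1 - S.θ e) * S.x e * S.rel b χ e := rfl
  rw [e6] at hu
  unfold Sys.ldR
  rw [e1]
  have f1 : (1 : ℝ) / (1000 * p) = 1 / 1000 * (1 / p) := by ring
  have f2 : (1 : ℝ) / 50 * (2 / p) = 1 / 25 * (1 / p) := by ring
  have f3 : (3 : ℝ) / p = 3 * (1 / p) := by ring
  have f4 : (0 : ℝ) < 1 / p := by positivity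
  rw [f1] at e5
  rw [f2] at e3
  rw [f3]
  linarith

end Pool.Agent.Helper53.OC
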