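import Mathlib
import Pool.Agent.Helper53.OC.Defs

/-!
Ordered Ramsey numbers of the cube (MP_09b4c2), module A7b: gain of the heavy columns.
-/

set_option autoImplicit false

namespace Pool.Agent.Helper53.OC

open Finset

variable {U W E : Type} [Fintype U] [Fintype W] [Fintype E] [DecidableEq U] [DecidableEq W]

theorem A7b_cap_zero (S : Sys U W E) (b : Bool) (e : E) (h : ¬ 0 < S.cap b e) :
    S.cap b e = 0 := le_antisymm (not_lt.1 h) (S.cap_nonneg b e)

theorem A7b_cap_pos (S : Sys U W E) (b : Bool) (e : E) (h : 0 < S.cap b e) :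
    S.row b e < S.cc b e ∧ 1 / 40 ≤ S.row b e ∧
      S.cap b e = S.col b e * (S.cc b e - S.row b e) / S.row b e := by
  unfold Sys.cap at h ⊢
  split_ifs at h ⊢ with h1
  · exact ⟨h1.1, h1.2, rfl⟩
  · exact absurd h (lt_irrefl _)

/-- the inequality for one edge -/
theorem A7b_edge (S : Sys U W E) (p : ℕ) (hp : 1 ≤ p)
    (hb : ∀ b e, S.q b b e < S.row b e * S.col b e →
      (S.x e ≤ S.y e → S.x e * (S.row b e - S.cc b e) ≤ 2 / p) ∧
      (S.y e < S.x e → S.y e * ((S.row b e * S.col b e - S.q b b e) / S.row (!b) e) ≤ 2 / p))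
    (b : Bool) (χ : E → ℝ) (h0 : ∀ e, 0 ≤ χ e) (h1 : ∀ e, χ e ≤ S.cap b e) (k : ℝ)
    (hzero : ∀ e, S.kR b χ (S.s e) < k → k ≤ S.kC χ (S.t e) → χ e = 0)
    (e : E) (hw : k ≤ S.kC χ (S.t e)) :
    S.y e * (S.cT b p χ k e - S.col b e) ≤ -(1 / 320) * (S.y e * χ e) +
      (if S.θ e ≠ 0 then 2 / (p : ℝ) else 0) := by
  have hp0 : (0 : ℝ) < p := by exact_mod_cast hp
  have hy := S.y_pos e
  have hrow := S.row_pos b e
  have hcol := S.col_pos b e
  have hcc := S.cc_pos b e
  have hcc2 := S.cc_lt_two b e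
  have hχ := h0 e
  have hT : 0 ≤ (if S.θ e ≠ 0 then 2 / (p : ℝ) else 0) := by
    split_ifs <;> positivity
  unfold Sys.cT
  have hz : S.zc b p χ k (S.t e) := Or.inl hw
  rw [if_pos hz]
  by_cases hk : k ≤ S.kR b χ (S.s e)
  · rw [if_pos hk]
    by_cases ht : k ≤ S.kC χ (S.t e) ∧ 0 < S.cap b e
    · rw [if_pos ht]
      obtain ⟨g1, g2, g3⟩ := A7b_cap_pos S b e ht.2
      set G : ℝ := S.rel b χ e / 4 with hG
      have hG' : G = S.cc b e * χ e / (S.col b e + χ e) / 4 := rfl
      have hs : 0 < S.col b e + χ e := by linarith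
      have hG0 : 0 ≤ G := by
        rw [hG']
        positivity
      have hG1 : G ≤ S.cc b e / 4 := by
        rw [hG']
        have : S.cc b e * χ e / (S.col b e + χ e) ≤ S.cc b e := by
          rw [div_le_iff₀ hs]
          nlinarith
        linarith
      have hden : 0 < 2 - S.cc b e + G := by linarith
      have hden2 : 2 - S.cc b e + G ≤ 2 := by linarith
      -- col * G ≥ χ / 160
      have h3 : χ e / 160 ≤ S.col b e * G := by
        have h4 : χ e * S.row b e ≤ S.col b e * (S.cc b e - S.row b e) := by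
          have h5 := h1 e
          rw [g3, le_div_iff₀ hrow] at h5
          exact h5
        have h6 : S.col b e * G = S.col b e * S.cc b e * χ e / (4 * (S.col b e + χ e)) := by
          rw [hG']
          field_simp
        rw [h6, le_div_iff₀ (by positivity)]
        have h7 : (S.col b e + χ e) * S.row b e ≤ S.col b e * S.cc b e := by linarith
        have h8 : χ e * ((S.col b e + χ e) * S.row b e) ≤ χ e * (S.col b e * S.cc b e) :=
          mul_le_mul_of_nonneg_left h7 hχ
        have h9 : χ e * ((S.col b e + χ e) * (1 / 40)) ≤ χ e * ((S.col b e + χ e) * S.row b e) := by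
          apply mul_le_mul_of_nonneg_left _ hχ
          exact mul_le_mul_of_nonneg_left g2 hs.le
        linarith
      have h4 : S.col b e * (2 - S.cc b e) / (2 - S.cc b e + G) - S.col b e =
          -(S.col b e * G / (2 - S.cc b e + G)) := by
        field_simp
        ring
      rw [h4]
      have h5 : χ e / 320 ≤ S.col b e * G / (2 - S.cc b e + G) := by
        rw [le_div_iff₀ hden]
        have : χ e / 320 * (2 - S.cc b e + G) ≤ χ e / 320 * 2 := by
          apply mul_le_mul_of_nonneg_left hden2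
          positivity
        linarith
      have h6 := mul_le_mul_of_nonneg_left h5 hy.le
      linarith
    · rw [if_neg ht]
      have g1 : ¬ 0 < S.cap b e := fun h => ht ⟨hw, h⟩
      have g2 := A7b_cap_zero S b e g1
      have g3 : χ e = 0 := by
        have := h1 e
        linarith
      rw [g3]
      by_cases hex : S.exc b e
      · rw [if_pos hex, if_pos hex.1]
        have g4 := (hb b e hex.2.1).2 hex.2.2
        have g5 : S.col b e + (S.row b e * S.col b e - S.q b b e) / S.row (!b) e - S.col b e =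
            (S.row b e * S.col b e - S.q b b e) / S.row (!b) e := by ring
        rw [g5]
        linarith
      · rw [if_neg hex]
        linarith
  · rw [if_neg hk, hzero e (not_le.1 hk) hw]
    linarith

/-- A7b: gain of the heavy columns -/
theorem comp_col (S : Sys U W E) (p : ℕ) (hp : 1 ≤ p)
    (hc : ∀ b w, -(1 / (1000 * p) : ℝ) ≤ ∑ e with S.t e = w, S.y e * (S.col b e - 1))
    (hb : ∀ b e, S.q b b e < S.row b e * S.col b e →
      (S.x e ≤ S.y e → S.x e * (S.row b e - S.cc b e) ≤ 2 / p) ∧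
      (S.y e < S.x e → S.y e * ((S.row b e * S.col b e - S.q b b e) / S.row (!b) e) ≤ 2 / p))
    (b : Bool) (χ : E → ℝ) (h0 : ∀ e, 0 ≤ χ e) (h1 : ∀ e, χ e ≤ S.cap b e) (k : ℝ)
    (hk : 1000 / p ≤ k)
    (hzero : ∀ e, S.kR b χ (S.s e) < k → k ≤ S.kC χ (S.t e) → χ e = 0)
    (w : W) (hw : k ≤ S.kC χ w) : S.ldC (S.cT b p χ k) w ≤ 1 - 1 / p := by
  classical
  have hp0 : (0 : ℝ) < p := by exact_mod_cast hp
  have e1 : ∑ e with S.t e = w, S.y e * (S.cT b p χ k e - 1) =
      ∑ e with S.t e = w, S.y e * (S.cT b p χ k e - S.col b e) -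
      ∑ e with S.t e = w, S.y e * (S.col (!b) e - 1) := by
    rw [← sum_sub_distrib]
    refine sum_congr rfl fun e _ => ?_
    have := S.col_add b e
    have h2 : S.col (!b) e = 2 - S.col b e := by linarith
    rw [h2]
    ring
  have e2 : ∑ e with S.t e = w, S.y e * (S.cT b p χ k e - S.col b e) ≤
      ∑ e with S.t e = w, (-(1 / 320) * (S.y e * χ e) +
        (if S.θ e ≠ 0 then 2 / (p : ℝ) else 0)) := by
    refine sum_le_sum fun e hes => ?_
    rw [mem_filter] at hes
    exact A7b_edge S p hp hb b χ h0 h1 k hzero e (by rw [hes.2]; exact hw)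
  rw [sum_add_distrib, ← mul_sum] at e2
  have e3 : S.kC χ w ≤ ∑ e with S.t e = w, S.y e * χ e := by
    unfold Sys.kC
    refine sum_le_sum fun e _ => ?_
    have hy := S.y_pos e
    have h2 := S.θ_nn e
    have h3 := h0 e
    have h4 : 0 ≤ S.θ e * S.y e * χ e := by positivity
    linarith
  have e4 : ∑ e with S.t e = w, (if S.θ e ≠ 0 then 2 / (p : ℝ) else 0) ≤ 2 / p := by
    rw [← sum_filter, filter_filter, sum_const, nsmul_eq_mul]
    have : #({e | S.t e = w ∧ S.θ e ≠ 0} : Finset E) ≤ 1 := by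
      rw [card_le_one]
      intro e he1 e' he2
      rw [mem_filter] at he1 he2
      exact S.θ_col e e' he1.2.2 he2.2.2 (he1.2.1.trans he2.2.1.symm)
    have h3 : ((#({e | S.t e = w ∧ S.θ e ≠ 0} : Finset E) : ℕ) : ℝ) ≤ 1 := by exact_mod_cast this
    have h4 : (0 : ℝ) ≤ 2 / p := by positivity
    nlinarith
  have e5 := hc (!b) w
  unfold Sys.ldC
  rw [e1]
  have f1 : (1 : ℝ) / (1000 * p) = 1 / 1000 * (1 / p) := by ring
  have f2 : (2 : ℝ) / p = 2 * (1 / p) := by ring
  have f3 : (1000 : ℝ) / p = 1000 * (1 / p) := by ring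
  have f4 : (0 : ℝ) < 1 / p := by positivity
  rw [f1] at e5
  rw [f2] at e2 e4
  rw [f3] at hk
  linarith

end Pool.Agent.Helper53.OC
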