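import Mathlib
import Pool.Agent.Helper53.OC.Defs

/-!
Ordered Ramsey numbers of the cube (MP_09b4c2), module A7c: loss of the other zoomed columns.
-/

namespace Pool.Agent.Helper53.OC

open Finset

variable {U W E : Type} [Fintype U] [Fintype W] [Fintype E] [DecidableEq U] [DecidableEq W]

/-- A7c: loss of the other zoomed columns -/
theorem comp_colO (S : Sys U W E) (p : ℕ) (hp : 1 ≤ p)
    (hc : ∀ b w, -(1 / (1000 * p) : ℝ) ≤ ∑ e with S.t e = w, S.y e * (S.col b e - 1))
    (hb : ∀ b e, S.q b b e < S.row b e * S.col b e →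
      (S.x e ≤ S.y e → S.x e * (S.row b e - S.cc b e) ≤ 2 / p) ∧
      (S.y e < S.x e → S.y e * ((S.row b e * S.col b e - S.q b b e) / S.row (!b) e) ≤ 2 / p))
    (b : Bool) (χ : E → ℝ) (k : ℝ)
    (w : W) (hw : S.kC χ w < k) : S.ldC (S.cT b p χ k) w ≤ 1 + 3 / p := by
  classical
  have hp0 : (0 : ℝ) < p := by exact_mod_cast hp
  have hp1 : (0 : ℝ) < 1 / p := by positivity
  have h3p : (3 : ℝ) / p = 3 * (1 / p) := by ring
  have h2p : (2 : ℝ) / p = 2 * (1 / p) := by ring
  unfold Sys.ldC
  by_cases hz : S.zc b p χ k w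
  · -- the column is zoomed
    have hT : ∀ e ∈ univ.filter (fun e => S.t e = w),
        S.y e * (S.cT b p χ k e - S.col b e) =
          if k ≤ S.kR b χ (S.s e) ∧ S.exc b e then
            S.y e * ((S.row b e * S.col b e - S.q b b e) / S.row (!b) e) else 0 := by
      intro e he
      have het : S.t e = w := (mem_filter.1 he).2
      unfold Sys.cT
      rw [het, if_pos hz]
      by_cases h1 : k ≤ S.kR b χ (S.s e)
      · rw [if_pos h1, if_neg (fun h2 => absurd h2.1 (not_le.2 hw))]
        by_cases h2 : S.exc b e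
        · rw [if_pos h2, if_pos ⟨h1, h2⟩]
          ring
        · rw [if_neg h2, if_neg (fun h3 => h2 h3.2)]
          ring
      · rw [if_neg h1, if_neg (fun h3 => h1 h3.1)]
        ring
    have hsplit : ∑ e with S.t e = w, S.y e * (S.cT b p χ k e - 1) =
        ∑ e with S.t e = w, S.y e * (S.col b e - 1) +
          ∑ e with S.t e = w, S.y e * (S.cT b p χ k e - S.col b e) := by
      rw [← sum_add_distrib]
      exact sum_congr rfl fun e _ => by ring
    have h1 : ∑ e with S.t e = w, S.y e * (S.col b e - 1) ≤ 1 / (1000 * p) := by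
      have h2 := hc (!b) w
      have h3 : ∑ e with S.t e = w, S.y e * (S.col (!b) e - 1) =
          - ∑ e with S.t e = w, S.y e * (S.col b e - 1) := by
        rw [← sum_neg_distrib]
        refine sum_congr rfl fun e _ => ?_
        have h4 := S.col_add b e
        have h5 : S.col (!b) e - 1 = -(S.col b e - 1) := by linarith
        rw [h5]
        ring
      rw [h3] at h2
      linarith
    have h2 : ∑ e with S.t e = w, S.y e * (S.cT b p χ k e - S.col b e) ≤ 2 / p := by
      rw [sum_congr rfl hT]
      by_cases hex : ∃ e, S.t e = w ∧ k ≤ S.kR b χ (S.s e) ∧ S.exc b e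
      · obtain ⟨e0, h3, h4, h5⟩ := hex
        rw [sum_eq_single e0]
        · rw [if_pos ⟨h4, h5⟩]
          exact (hb b e0 h5.2.1).2 h5.2.2
        · intro e he hne
          rw [if_neg]
          rintro ⟨_, h6⟩
          exact hne (S.θ_col e e0 h6.1 h5.1 ((mem_filter.1 he).2.trans h3.symm))
        · intro h6
          exact absurd (mem_filter.2 ⟨mem_univ e0, h3⟩ : e0 ∈ univ.filter fun e => S.t e = w) h6
      · rw [sum_eq_zero]
        · positivity
        · intro e he
          rw [if_neg]
          rintro ⟨h6, h7⟩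
          exact hex ⟨e, (mem_filter.1 he).2, h6, h7⟩
    have h6 : (1 : ℝ) / (1000 * p) ≤ 1 / p := by
      apply one_div_le_one_div_of_le hp0
      linarith
    rw [hsplit]
    linarith
  · -- the column is not zoomed
    rw [sum_eq_zero]
    · rw [add_zero, h3p]
      linarith
    · intro e he
      have het : S.t e = w := (mem_filter.1 he).2
      unfold Sys.cT
      rw [het, if_neg hz]
      ring

end Pool.Agent.Helper53.OC
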