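import Mathlib
import Pool.Agent.Helper53.OC.Defs

/-!
OC module A7d: mass of the other zoomed columns.
-/

namespace Pool.Agent.Helper53.OC

open Finset

variable {U W E : Type} [Fintype U] [Fintype W] [Fintype E] [DecidableEq U] [DecidableEq W]

theorem comp_mass (S : Sys U W E) (p : ℕ)
    (hg : ∀ e, S.m (S.s e) * S.x e = S.n (S.t e) * S.y e)
    (he : ∀ a u, ∑ e with (S.s e = u ∧ S.row a e < 1 / 40),
      S.x e * min (p : ℝ) (1 / S.y e) ≤ 1 / 50)
    (b : Bool) (χ : E → ℝ) (k : ℝ) (A : Finset U) (hA : ∀ u, k ≤ S.kR b χ u → u ∈ A)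
    (O : Finset W) (hO : ∀ w ∈ O, S.kC χ w < k ∧ S.zc b p χ k w) :
    ∑ w ∈ O, S.n w ≤ 1 / 50 * ∑ u ∈ A, S.m u := by
  classical
  have h1 : ∀ w : {w // w ∈ O}, ∃ e, S.t e = w.1 ∧ k ≤ S.kR b χ (S.s e) ∧ S.row b e < 1 / 40 ∧
      1 < p * S.y e := by
    intro w
    obtain ⟨h2, h3⟩ := hO w.1 w.2
    rcases h3 with h3 | h3
    · exact absurd h2 (not_lt.2 h3)
    · exact h3
  choose f hf using h1
  have hmin : ∀ e, 1 < p * S.y e → min (p : ℝ) (1 / S.y e) = 1 / S.y e := by
    intro e h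
    apply min_eq_right
    rw [div_le_iff₀ (S.y_pos e)]
    exact h.le
  set g : E → ℝ := fun e => S.m (S.s e) * (S.x e * min (p : ℝ) (1 / S.y e)) with hgdef
  have hg0 : ∀ e, 0 ≤ g e := by
    intro e
    have h2 : (0 : ℝ) ≤ min (p : ℝ) (1 / S.y e) :=
      le_min (Nat.cast_nonneg p) (one_div_pos.2 (S.y_pos e)).le
    exact mul_nonneg (S.m_pos _).le (mul_nonneg (S.x_pos e).le h2)
  have h2 : ∀ w : {w // w ∈ O}, S.n w.1 = g (f w) := by
    intro w
    obtain ⟨h3, -, -, h4⟩ := hf w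
    have h5 := hg (f w)
    rw [h3] at h5
    have hy := (S.y_pos (f w)).ne'
    show S.n w.1 = S.m (S.s (f w)) * (S.x (f w) * min (p : ℝ) (1 / S.y (f w)))
    rw [hmin _ h4]
    field_simp
    linarith
  have hinj : ∀ w w' : {w // w ∈ O}, f w = f w' → w = w' := by
    intro w w' h
    apply Subtype.ext
    rw [← (hf w).1, ← (hf w').1, h]
  calc ∑ w ∈ O, S.n w = ∑ w : {w // w ∈ O}, S.n w.1 := (sum_coe_sort O S.n).symm
    _ = ∑ w : {w // w ∈ O}, g (f w) := sum_congr rfl fun w _ => h2 w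
    _ = ∑ e ∈ univ.image f, g e := by
        rw [sum_image (fun w _ w' _ h => hinj w w' h)]
    _ ≤ ∑ e with (S.s e ∈ A ∧ S.row b e < 1 / 40), g e := by
        apply sum_le_sum_of_subset_of_nonneg
        · intro e he'
          obtain ⟨w, -, rfl⟩ := mem_image.1 he'
          exact mem_filter.2 ⟨mem_univ _, hA _ (hf w).2.1, (hf w).2.2.1⟩
        · intro e _ _
          exact hg0 e
    _ = ∑ u ∈ A, ∑ e with (S.s e = u ∧ S.row b e < 1 / 40), g e := by
        rw [← sum_fiberwise_of_maps_to (t := A) (g := S.s)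
          (fun e he' => (mem_filter.1 he').2.1)]
        refine sum_congr rfl fun u hu => ?_
        rw [filter_filter]
        refine sum_congr ?_ fun _ _ => rfl
        ext e
        simp only [mem_filter, mem_univ, true_and]
        constructor
        · rintro ⟨⟨h3, h4⟩, h5⟩
          exact ⟨h5, h4⟩
        · rintro ⟨h3, h4⟩
          exact ⟨⟨h3 ▸ hu, h4⟩, h3⟩
    _ ≤ ∑ u ∈ A, 1 / 50 * S.m u := by
        refine sum_le_sum fun u _ => ?_
        have h3 : ∑ e with (S.s e = u ∧ S.row b e < 1 / 40), g e =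
            S.m u * ∑ e with (S.s e = u ∧ S.row b e < 1 / 40), S.x e * min (p : ℝ) (1 / S.y e) := by
          rw [mul_sum]
          refine sum_congr rfl fun e he' => ?_
          rw [hgdef, ← (mem_filter.1 he').2.1]
        rw [h3, mul_comm (1 / 50 : ℝ)]
        exact mul_le_mul_of_nonneg_left (he b u) (S.m_pos u).le
    _ = 1 / 50 * ∑ u ∈ A, S.m u := by rw [mul_sum]

end Pool.Agent.Helper53.OC
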