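import Mathlib
import Pool.Agent.Helper53.OC.Defs

namespace Pool.Agent.Helper53.OC

open Finset

variable {U W E : Type} [Fintype U] [Fintype W] [Fintype E] [DecidableEq U] [DecidableEq W]

theorem comp_feas (S : Sys U W E) (p : ℕ) (b : Bool) (χ : E → ℝ) (h0 : ∀ e, 0 ≤ χ e) (k : ℝ)
    (e : E) : 0 < S.cR b p χ k e ∧ 0 < S.cT b p χ k e ∧
    (k ≤ S.kR b χ (S.s e) → S.zc b p χ k (S.t e) → S.q (!b) b e ≤ S.cR b p χ k e * S.cT b p χ k e) ∧
    (k ≤ S.kR b χ (S.s e) → ¬ S.zc b p χ k (S.t e) → S.row (!b) e ≤ S.cR b p χ k e * S.cT b p χ k e) ∧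
    (¬ k ≤ S.kR b χ (S.s e) → S.zc b p χ k (S.t e) → S.col b e ≤ S.cR b p χ k e * S.cT b p χ k e) ∧
    (¬ k ≤ S.kR b χ (S.s e) → ¬ S.zc b p χ k (S.t e) → 1 ≤ S.cR b p χ k e * S.cT b p χ k e) := by
  have hc2 : 0 < 2 - S.cc b e := by linarith [S.cc_lt_two b e]
  have hz := S.col_pos b e
  have hcc := S.cc_pos b e
  have hG : 0 ≤ S.rel b χ e / 4 := by
    have h1 : 0 ≤ S.rel b χ e := by
      unfold Sys.rel
      have := h0 e
      positivity
    linarith
  have hr := S.row_pos (!b) e
  have hra := S.row_add b e
  have hq := S.q_not b e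
  have hcm := S.col_mul_cc b e
  have hqr := S.q_add_col b b e
  by_cases h1 : k ≤ S.kR b χ (S.s e)
  · by_cases h2 : S.zc b p χ k (S.t e)
    · by_cases h3 : k ≤ S.kC χ (S.t e) ∧ 0 < S.cap b e
      · have e1 : S.cR b p χ k e = 2 - S.cc b e + S.rel b χ e / 4 := by
          unfold Sys.cR
          rw [if_pos h1, if_pos h2, if_pos h3]
        have e2 : S.cT b p χ k e = S.col b e * (2 - S.cc b e) / (2 - S.cc b e + S.rel b χ e / 4) := by
          unfold Sys.cT
          rw [if_pos h2, if_pos h1, if_pos h3]
        have hd : 0 < 2 - S.cc b e + S.rel b χ e / 4 := by linarith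
        rw [e1, e2]
        refine ⟨hd, by positivity, fun _ _ => ?_, fun _ h => absurd h2 h, fun h => absurd h1 h,
          fun h => absurd h1 h⟩
        rw [mul_div_cancel₀ _ hd.ne', hq]
      · by_cases h4 : S.exc b e
        · have e1 : S.cR b p χ k e = S.row (!b) e := by
            unfold Sys.cR
            rw [if_pos h1, if_pos h2, if_neg h3, if_pos h4]
          have e2 : S.cT b p χ k e =
              S.col b e + (S.row b e * S.col b e - S.q b b e) / S.row (!b) e := by
            unfold Sys.cT
            rw [if_pos h2, if_pos h1, if_neg h3, if_pos h4]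
          have h5 : 0 < S.row b e * S.col b e - S.q b b e := by linarith [h4.2.1]
          rw [e1, e2]
          refine ⟨hr, by positivity, fun _ _ => ?_, fun _ h => absurd h2 h, fun h => absurd h1 h,
            fun h => absurd h1 h⟩
          rw [mul_add, mul_div_cancel₀ _ hr.ne']
          have : S.row (!b) e = 2 - S.row b e := by linarith
          rw [this]
          nlinarith
        · have e1 : S.cR b p χ k e = 2 - S.cc b e := by
            unfold Sys.cR
            rw [if_pos h1, if_pos h2, if_neg h3, if_neg h4]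
          have e2 : S.cT b p χ k e = S.col b e := by
            unfold Sys.cT
            rw [if_pos h2, if_pos h1, if_neg h3, if_neg h4]
          rw [e1, e2]
          refine ⟨hc2, hz, fun _ _ => ?_, fun _ h => absurd h2 h, fun h => absurd h1 h,
            fun h => absurd h1 h⟩
          rw [hq, mul_comm]
    · have e1 : S.cR b p χ k e = S.row (!b) e := by
        unfold Sys.cR
        rw [if_pos h1, if_neg h2]
      have e2 : S.cT b p χ k e = 1 := by
        unfold Sys.cT
        rw [if_neg h2]
      rw [e1, e2]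
      exact ⟨hr, one_pos, fun _ h => absurd h h2, fun _ _ => by rw [mul_one],
        fun h => absurd h1 h, fun h => absurd h1 h⟩
  · have e1 : S.cR b p χ k e = 1 := by
      unfold Sys.cR
      rw [if_neg h1]
    by_cases h2 : S.zc b p χ k (S.t e)
    · have e2 : S.cT b p χ k e = S.col b e := by
        unfold Sys.cT
        rw [if_pos h2, if_neg h1]
      rw [e1, e2]
      exact ⟨one_pos, hz, fun h => absurd h h1, fun h => absurd h h1, fun _ _ => by rw [one_mul],
        fun _ h => absurd h2 h⟩
    · have e2 : S.cT b p χ k e = 1 := by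
        unfold Sys.cT
        rw [if_neg h2]
      rw [e1, e2]
      exact ⟨one_pos, one_pos, fun h => absurd h h1, fun h => absurd h h1,
        fun _ h => absurd h h2, fun _ _ => by rw [mul_one]⟩

end Pool.Agent.Helper53.OC
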