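import Mathlib
import Pool.Agent.Helper53.OC.Defs
import Pool.Agent.Helper53.OC.A7a
import Pool.Agent.Helper53.OC.A7b
import Pool.Agent.Helper53.OC.A7c
import Pool.Agent.Helper53.OC.A7d
import Pool.Agent.Helper53.OC.A7e

namespace Pool.Agent.Helper53.OC

open Finset

variable {U W E : Type} [Fintype U] [Fintype W] [Fintype E] [DecidableEq U] [DecidableEq W]

theorem comp_pow_row (p : ℕ) (hp : 1 ≤ p) (k z : ℝ) (hk : 1000 / p ≤ k) (hz : 0 ≤ z)
    (hz1 : z ≤ 1 - k + 3 / p) : (z * (1 + 1 / (1000 * p))) ^ p ≤ 1 / 10 := by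
  have hp0 : (0 : ℝ) < p := by exact_mod_cast hp
  have h1 : z ≤ 1 - 997 / p := by
    have : (1000 : ℝ) / p = 997 / p + 3 / p := by ring
    linarith
  have h2 : z ≤ 1 := by
    have : (0 : ℝ) ≤ 997 / p := by positivity
    linarith
  have h3 : z * (1 + 1 / (1000 * p)) ≤ 1 - 99 / p := by
    have h4 : (1 : ℝ) / (1000 * p) ≤ 1 / p := by
      apply one_div_le_one_div_of_le hp0
      linarith
    have h5 : (0 : ℝ) < 1 / (1000 * p) := by positivity
    have h6 : z * (1 + 1 / (1000 * p)) ≤ z + 1 / p := by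
      have : z * (1 / (1000 * p)) ≤ 1 * (1 / p) := by gcongr
      linarith
    have h7 : (997 : ℝ) / p = 997 * (1 / p) := by ring
    have h8 : (99 : ℝ) / p = 99 * (1 / p) := by ring
    have h9 : (0 : ℝ) < 1 / p := by positivity
    rw [h7] at h1
    rw [h8]
    linarith
  have h4 : 0 ≤ z * (1 + 1 / (1000 * p)) := by positivity
  calc (z * (1 + 1 / (1000 * p))) ^ p ≤ (1 - 99 / p) ^ p := by gcongr
    _ ≤ (Real.exp (-(99 / p))) ^ p := by
        have h5 := Real.add_one_le_exp (-(99 / p : ℝ))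
        have h6 : (0 : ℝ) ≤ 1 - 99 / p := by linarith
        gcongr
        linarith
    _ = Real.exp (-99) := by
        rw [← Real.exp_nat_mul]
        congr 1
        field_simp
    _ ≤ 1 / 10 := by
        rw [Real.exp_neg, ← one_div]
        apply one_div_le_one_div_of_le (by norm_num)
        have := Real.add_one_le_exp (99 : ℝ)
        linarith

theorem comp_pow_col (p : ℕ) (hp : 1 ≤ p) (z : ℝ) (hz : 0 ≤ z)
    (hz1 : z ≤ 1 - 1 / p) : (z * (1 + 1 / (1000 * p))) ^ p ≤ 1 := by
  have hp0 : (0 : ℝ) < p := by exact_mod_cast hp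
  apply pow_le_one₀ (by positivity)
  have h4 : (1 : ℝ) / (1000 * p) ≤ 1 / p := by
    apply one_div_le_one_div_of_le hp0
    linarith
  have h5 : (0 : ℝ) < 1 / p := by positivity
  calc z * (1 + 1 / (1000 * p)) ≤ (1 - 1 / p) * (1 + 1 / p) := by
        have : 0 ≤ (1 : ℝ) - 1 / p := by linarith
        gcongr
    _ ≤ 1 := by nlinarith

theorem comp_pow_colO (p : ℕ) (hp : 1 ≤ p) (z : ℝ) (hz : 0 ≤ z)
    (hz1 : z ≤ 1 + 3 / p) : (z * (1 + 1 / (1000 * p))) ^ p ≤ 21 := by
  have hp0 : (0 : ℝ) < p := by exact_mod_cast hp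
  calc (z * (1 + 1 / (1000 * p))) ^ p ≤ ((1 + 3 / p) * (1 + 1 / (1000 * p))) ^ p := by gcongr
    _ ≤ (Real.exp (3 / p) * Real.exp (1 / (1000 * p))) ^ p := by
        have h5 := Real.add_one_le_exp (3 / p : ℝ)
        have h6 := Real.add_one_le_exp (1 / (1000 * p) : ℝ)
        gcongr <;> linarith
    _ = Real.exp (3 + 1 / 1000) := by
        rw [← Real.exp_add, ← Real.exp_nat_mul]
        congr 1
        field_simp
    _ ≤ 21 := by
        have h1 := Real.exp_one_lt_d9
        have h2 : Real.exp (3 + 1 / 1000) = Real.exp 1 ^ 3 * Real.exp (1 / 1000) := by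
          rw [← Real.exp_nat_mul, ← Real.exp_add]
          norm_num
        rw [h2]
        have h3 : Real.exp (1 / 1000) ≤ 1.01 := by
          have h4 : Real.exp (1 / 1000) ≤ 1 / (1 - 1 / 1000) := by
            apply Real.exp_bound_div_one_sub_of_interval <;> norm_num
          refine h4.trans ?_
          norm_num
        have h5 : 0 < Real.exp 1 := Real.exp_pos 1
        calc Real.exp 1 ^ 3 * Real.exp (1 / 1000) ≤ 2.7182818286 ^ 3 * 1.01 := by gcongr
          _ ≤ 21 := by norm_num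

/-- A7 -/
theorem no_region (S : Sys U W E) (p : ℕ) (hp : 1 ≤ p) (h : S.Crit p (1 / (1000 * p)))
    (hg : ∀ e, S.m (S.s e) * S.x e = S.n (S.t e) * S.y e)
    (hr : ∀ a u, -(1 / (1000 * p) : ℝ) ≤ ∑ e with S.s e = u, S.x e * (S.row a e - 1))
    (hc : ∀ b w, -(1 / (1000 * p) : ℝ) ≤ ∑ e with S.t e = w, S.y e * (S.col b e - 1))
    (he : ∀ a u, ∑ e with (S.s e = u ∧ S.row a e < 1 / 40),
      S.x e * min (p : ℝ) (1 / S.y e) ≤ 1 / 50)
    (hb : ∀ b e, S.q b b e < S.row b e * S.col b e →
      (S.x e ≤ S.y e → S.x e * (S.row b e - S.cc b e) ≤ 2 / p) ∧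
      (S.y e < S.x e → S.y e * ((S.row b e * S.col b e - S.q b b e) / S.row (!b) e) ≤ 2 / p))
    (b : Bool) (χ : E → ℝ) (h0 : ∀ e, 0 ≤ χ e) (h1 : ∀ e, χ e ≤ S.cap b e) (k : ℝ)
    (hk : 1000 / p ≤ k) (hU : ∃ u, k ≤ S.kR b χ u)
    (hcap : ∀ e, k ≤ S.kR b χ (S.s e) → S.kC χ (S.t e) < k → χ e = S.cap b e)
    (hzero : ∀ e, S.kR b χ (S.s e) < k → k ≤ S.kC χ (S.t e) → χ e = 0) : False := by
  classical
  have hp0 : (0 : ℝ) < p := by exact_mod_cast hp
  set R := S.cR b p χ k with hR
  set T := S.cT b p χ k with hT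
  have hfe := comp_feas S p b χ h0 k
  set A : Finset U := univ.filter fun u => k ≤ S.kR b χ u with hA
  set Z : Finset W := univ.filter fun w => S.zc b p χ k w with hZ
  set O : Finset W := univ.filter fun w => S.kC χ w < k ∧ S.zc b p χ k w with hO
  have hcr := h (fun u => if u ∈ A then some (!b) else none)
    (fun w => if w ∈ Z then some b else none) R T (fun e => (hfe e).1) (fun e => (hfe e).2.1)
    (by
      intro e
      obtain ⟨-, -, g1, g2, g3, g4⟩ := hfe e
      by_cases hu : k ≤ S.kR b χ (S.s e) <;> by_cases hw : S.zc b p χ k (S.t e)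
      · simp only [hA, hZ, mem_filter, mem_univ, true_and, hu, hw, if_true]
        exact g1 hu hw
      · simp only [hA, hZ, mem_filter, mem_univ, true_and, hu, hw, if_true, if_false]
        exact g2 hu hw
      · simp only [hA, hZ, mem_filter, mem_univ, true_and, hu, hw, if_true, if_false]
        exact g3 hu hw
      · simp only [hA, hZ, mem_filter, mem_univ, true_and, hu, hw, if_false]
        exact g4 hu hw)
  have hRp : ∀ e, 0 < R e := fun e => (hfe e).1
  have hTp : ∀ e, 0 < T e := fun e => (hfe e).2.1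
  -- rows
  have hrow : ∀ u, S.m u * (S.ldR R u * pen (1 / (1000 * p)) (if u ∈ A then some (!b) else none)) ^ p
      ≤ S.m u - if u ∈ A then 9 / 10 * S.m u else 0 := by
    intro u
    have hm := S.m_pos u
    by_cases hu : u ∈ A
    · rw [if_pos hu, if_pos hu]
      have h2 : k ≤ S.kR b χ u := (mem_filter.1 hu).2
      have h3 := comp_pow_row p hp k _ hk (S.ldR_nonneg R hRp u)
        (comp_row S p hp hr he hb b χ h0 h1 k hcap u h2)
      change S.m u * (S.ldR R u * (1 + 1 / (1000 * p))) ^ p ≤ _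
      nlinarith
    · rw [if_neg hu, if_neg hu]
      have h2 : ¬ k ≤ S.kR b χ u := fun h3 => hu (mem_filter.2 ⟨mem_univ _, h3⟩)
      have h3 : S.ldR R u = 1 := by
        unfold Sys.ldR
        rw [sum_eq_zero, add_zero]
        intro e hes
        have h4 : S.s e = u := (mem_filter.1 hes).2
        have h5 : R e = 1 := by
          rw [hR, Sys.cR, if_neg]
          rw [h4]
          exact h2
        rw [h5]
        ring
      rw [h3]
      simp [pen]
  have hcol : ∀ w, S.n w * (S.ldC T w * pen (1 / (1000 * p)) (if w ∈ Z then some b else none)) ^ p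
      ≤ S.n w + if w ∈ O then 20 * S.n w else 0 := by
    intro w
    have hn := S.n_pos w
    by_cases hw : w ∈ Z
    · rw [if_pos hw]
      have hz : S.zc b p χ k w := (mem_filter.1 hw).2
      by_cases hw2 : w ∈ O
      · rw [if_pos hw2]
        have h3 := comp_pow_colO p hp _ (S.ldC_nonneg T hTp w)
          (comp_colO S p hp hc hb b χ k w (mem_filter.1 hw2).2.1)
        change S.n w * (S.ldC T w * (1 + 1 / (1000 * p))) ^ p ≤ _
        nlinarith
      · rw [if_neg hw2]
        have h2 : k ≤ S.kC χ w := by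
          by_contra h3
          exact hw2 (mem_filter.2 ⟨mem_univ _, not_le.1 h3, hz⟩)
        have h3 := comp_pow_col p hp _ (S.ldC_nonneg T hTp w)
          (comp_col S p hp hc hb b χ h0 h1 k hk hzero w h2)
        change S.n w * (S.ldC T w * (1 + 1 / (1000 * p))) ^ p ≤ _
        nlinarith
    · rw [if_neg hw]
      have h2 : ¬ S.zc b p χ k w := fun h3 => hw (mem_filter.2 ⟨mem_univ _, h3⟩)
      have h3 : S.ldC T w = 1 := by
        unfold Sys.ldC
        rw [sum_eq_zero, add_zero]
        intro e hes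
        have h4 : S.t e = w := (mem_filter.1 hes).2
        have h5 : T e = 1 := by
          rw [hT, Sys.cT, if_neg]
          rw [h4]
          exact h2
        rw [h5]
        ring
      have h4 : w ∉ O := fun h5 => h2 (mem_filter.1 h5).2.2
      rw [h3, if_neg h4]
      simp [pen]
  have e1 := sum_le_sum fun u (_ : u ∈ (univ : Finset U)) => hrow u
  have e2 := sum_le_sum fun w (_ : w ∈ (univ : Finset W)) => hcol w
  rw [sum_sub_distrib, sum_ite_mem, univ_inter, ← mul_sum] at e1
  rw [sum_add_distrib, sum_ite_mem, univ_inter, ← mul_sum] at e2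
  have e3 : ∑ w ∈ O, S.n w ≤ 1 / 50 * ∑ u ∈ A, S.m u :=
    comp_mass S p hg he b χ k A (fun u hu => mem_filter.2 ⟨mem_univ _, hu⟩) O
      (fun w hw => (mem_filter.1 hw).2)
  obtain ⟨u0, hu0⟩ := hU
  have e4 : 0 < ∑ u ∈ A, S.m u :=
    sum_pos (fun u _ => S.m_pos u) ⟨u0, mem_filter.2 ⟨mem_univ _, hu0⟩⟩
  linarith

end Pool.Agent.Helper53.OC
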