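import Mathlib
import Pool.Agent.Helper53.OC.Defs

/-!
Ordered Ramsey numbers of the cube (MP_09b4c2): module A8.
-/

namespace Pool.Agent.Helper53.OC

open Finset

variable {U W E : Type} [Fintype U] [Fintype W] [Fintype E] [DecidableEq U] [DecidableEq W]

theorem sheet (S : Sys U W E) (p : ℕ) (hp : 1 ≤ p) (b : Bool)
    (hr : ∀ a u, -(1 / (1000 * p) : ℝ) ≤ ∑ e with S.s e = u, S.x e * (S.row a e - 1))
    (hc : ∀ b w, -(1 / (1000 * p) : ℝ) ≤ ∑ e with S.t e = w, S.y e * (S.col b e - 1))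
    (χ : E → ℝ) (h0 : ∀ e, 0 ≤ χ e) (h1 : ∀ e, χ e ≤ S.cap b e)
    (hR : ∀ u, S.kR b χ u ≤ 2000 / p) (hC : ∀ w, S.kC χ w ≤ 2000 / p) :
    ∃ R T : E → ℝ, (∀ e, 0 < R e) ∧ (∀ e, 0 < T e) ∧ (∀ e, S.q b b e ≤ R e * T e) ∧
      (∀ u, ∑ e with S.s e = u, S.x e * ((1 - S.θ e) * R e + S.θ e * S.row b e - 1) ≤ 2001 / p) ∧
      (∀ w, ∑ e with S.t e = w, S.y e * ((1 - S.θ e) * T e + S.θ e * S.col b e - 1) ≤ 2001 / p) := by
  have hp0 : (0 : ℝ) < p := by exact_mod_cast hp
  have hT : ∀ e, 0 < S.col b e + χ e := fun e => by linarith [S.col_pos b e, h0 e]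
  have hsmall : (2000 : ℝ) / p + 1 / (1000 * p) ≤ 2001 / p := by
    have : (1 : ℝ) / (1000 * p) = (1 / 1000) / p := by
      rw [div_div]
    rw [this, ← add_div]
    exact div_le_div_of_nonneg_right (by norm_num) hp0.le
  refine ⟨fun e => S.cc b e * S.col b e / (S.col b e + χ e), fun e => S.col b e + χ e, ?_, hT,
    ?_, ?_, ?_⟩
  · intro e
    exact div_pos (mul_pos (S.cc_pos b e) (S.col_pos b e)) (hT e)
  · intro e
    show S.q b b e ≤ S.cc b e * S.col b e / (S.col b e + χ e) * (S.col b e + χ e)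
    rw [div_mul_cancel₀ _ (hT e).ne', mul_comm, S.col_mul_cc]
  · intro u
    have e1 : ∀ e, S.x e * ((1 - S.θ e) * (S.cc b e * S.col b e / (S.col b e + χ e)) +
        S.θ e * S.row b e - 1) = (1 - S.θ e) * S.x e * (S.cc b e - S.row b e) -
        (1 - S.θ e) * S.x e * S.rel b χ e + -(S.x e * (S.row (!b) e - 1)) := by
      intro e
      have h2 : S.cc b e * S.col b e / (S.col b e + χ e) = S.cc b e - S.rel b χ e := by
        unfold Sys.rel
        rw [eq_sub_iff_add_eq, ← add_div, div_eq_iff (hT e).ne']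
        ring
      have h3 := S.row_add b e
      have h4 : S.row (!b) e = 2 - S.row b e := by linarith
      rw [h2, h4]
      ring
    have e2 : ∑ e with S.s e = u, S.x e * ((1 - S.θ e) * (S.cc b e * S.col b e /
        (S.col b e + χ e)) + S.θ e * S.row b e - 1) =
        S.kR b χ u - ∑ e with S.s e = u, S.x e * (S.row (!b) e - 1) := by
      rw [sum_congr rfl fun e _ => e1 e, sum_add_distrib, sum_sub_distrib, sum_neg_distrib]
      unfold Sys.kR
      ring
    rw [e2]
    have h5 := hr (!b) u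
    have h6 := hR u
    linarith
  · intro w
    have e1 : ∀ e, S.y e * ((1 - S.θ e) * (S.col b e + χ e) + S.θ e * S.col b e - 1) =
        (1 - S.θ e) * S.y e * χ e + -(S.y e * (S.col (!b) e - 1)) := by
      intro e
      have h3 := S.col_add b e
      have h4 : S.col (!b) e = 2 - S.col b e := by linarith
      rw [h4]
      ring
    have e2 : ∑ e with S.t e = w, S.y e * ((1 - S.θ e) * (S.col b e + χ e) +
        S.θ e * S.col b e - 1) = S.kC χ w - ∑ e with S.t e = w, S.y e * (S.col (!b) e - 1) := by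
      rw [sum_congr rfl fun e _ => e1 e, sum_add_distrib, sum_neg_distrib]
      unfold Sys.kC
      ring
    rw [e2]
    have h5 := hc (!b) w
    have h6 := hC w
    linarith

end Pool.Agent.Helper53.OC
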