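import Mathlib
import Pool.Agent.Helper53.OC.Defs

/-!
Ordered Ramsey numbers of the cube (MP_09b4c2): module A9.
-/

namespace Pool.Agent.Helper53.OC

open Finset

variable {U W E : Type} [Fintype U] [Fintype W] [Fintype E] [DecidableEq U] [DecidableEq W]

theorem cross (S : Sys U W E) (p : ℕ) (hp : 1 ≤ p)
    (he : ∀ a e, S.row a e < 1 / 40 → S.x e * min (p : ℝ) (1 / S.y e) ≤ 1 / 50)
    (hf : ∀ b e, S.col b e < 1 / 40 → S.y e * min (p : ℝ) (1 / S.x e) ≤ 1 / 50)
    (b : Bool) (e : E) (hθ : 0 < S.θ e) :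
    S.q b (!b) e ≤ 100 * (S.row b e + 1 / (p * (S.θ e * S.x e))) *
      (S.col (!b) e + 1 / (p * (S.θ e * S.y e))) := by
  have hp0 : (0 : ℝ) < p := by exact_mod_cast hp
  have hx := S.x_pos e
  have hy := S.y_pos e
  have hr := S.row_pos b e
  have hc := S.col_pos (!b) e
  have hq1 : S.q b (!b) e ≤ 2 * S.col (!b) e := by
    have h1 := S.q_add_col b (!b) e
    have h2 := S.q_pos (!b) (!b) e
    linarith
  have hq2 : S.q b (!b) e ≤ 2 * S.row b e := by
    have h1 := S.q_add_row b (!b) e
    have h2 := S.q_pos b (!!b) e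
    linarith
  have ha : 0 < 1 / (p * (S.θ e * S.x e)) := by positivity
  have hb : 0 < 1 / (p * (S.θ e * S.y e)) := by positivity
  by_cases h1 : 1 / 40 ≤ S.row b e
  · have h3 : S.row b e * S.col (!b) e ≤ (S.row b e + 1 / (p * (S.θ e * S.x e))) *
        (S.col (!b) e + 1 / (p * (S.θ e * S.y e))) :=
      mul_le_mul (by linarith) (by linarith) hc.le (by linarith)
    nlinarith
  by_cases h2 : 1 / 40 ≤ S.col (!b) e
  · have h3 : S.row b e * S.col (!b) e ≤ (S.row b e + 1 / (p * (S.θ e * S.x e))) *
        (S.col (!b) e + 1 / (p * (S.θ e * S.y e))) :=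
      mul_le_mul (by linarith) (by linarith) hc.le (by linarith)
    nlinarith
  push Not at h1 h2
  have h3 := he b e h1
  have h4 := hf (!b) e h2
  have hth := S.θ_le e
  have hp50 : p * S.x e ≤ 1 / 50 ∧ p * S.y e ≤ 1 / 50 := by
    rcases le_total (S.x e) (S.y e) with h | h
    · have h5 : p * S.y e ≤ 1 / 50 := by
        rcases min_choice (p : ℝ) (1 / S.x e) with h6 | h6
        · rw [h6] at h4
          linarith
        · rw [h6] at h4
          exfalso
          have h7 : 1 ≤ S.y e * (1 / S.x e) := by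
            rw [mul_one_div, le_div_iff₀ hx]
            linarith
          linarith
      exact ⟨le_trans (mul_le_mul_of_nonneg_left h hp0.le) h5, h5⟩
    · have h5 : p * S.x e ≤ 1 / 50 := by
        rcases min_choice (p : ℝ) (1 / S.y e) with h6 | h6
        · rw [h6] at h3
          linarith
        · rw [h6] at h3
          exfalso
          have h7 : 1 ≤ S.x e * (1 / S.y e) := by
            rw [mul_one_div, le_div_iff₀ hy]
            linarith
          linarith
      exact ⟨h5, le_trans (mul_le_mul_of_nonneg_left h hp0.le) h5⟩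
  have hA : 100 ≤ 1 / (p * (S.θ e * S.x e)) := by
    rw [le_div_iff₀ (by positivity)]
    have : p * (S.θ e * S.x e) = S.θ e * (p * S.x e) := by ring
    rw [this]
    have h8 : S.θ e * (p * S.x e) ≤ 1 / 2 * (1 / 50) :=
      mul_le_mul hth hp50.1 (by positivity) (by norm_num)
    linarith
  have hB : 100 ≤ 1 / (p * (S.θ e * S.y e)) := by
    rw [le_div_iff₀ (by positivity)]
    have : p * (S.θ e * S.y e) = S.θ e * (p * S.y e) := by ring
    rw [this]
    have h8 : S.θ e * (p * S.y e) ≤ 1 / 2 * (1 / 50) :=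
      mul_le_mul hth hp50.2 (by positivity) (by norm_num)
    linarith
  have h9 : (100 : ℝ) * 100 ≤ (S.row b e + 1 / (p * (S.θ e * S.x e))) *
      (S.col (!b) e + 1 / (p * (S.θ e * S.y e))) :=
    mul_le_mul (by linarith) (by linarith) (by norm_num) (by linarith)
  have h10 := S.col_lt_two (!b) e
  nlinarith

end Pool.Agent.Helper53.OC
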