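import Mathlib
import Pool.Agent.Helper53.OC.Defs
import Pool.Agent.Helper53.OC.A1
import Pool.Agent.Helper53.OC.A2
import Pool.Agent.Helper53.OC.A3
import Pool.Agent.Helper53.OC.A4
import Pool.Agent.Helper53.OC.A5
import Pool.Agent.Helper53.OC.A6
import Pool.Agent.Helper53.OC.A7
import Pool.Agent.Helper53.OC.A8
import Pool.Agent.Helper53.OC.A9

/-!
The one-level lemma: a critical system can be split with loss `O(1 / p)` at each vertex.
-/

namespace Pool.Agent.Helper53.OC

open Finset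

variable {U W E : Type} [Fintype U] [Fintype W] [Fintype E] [DecidableEq U] [DecidableEq W]

/-- the abstract split lemma -/
theorem split (S : Sys U W E) (p : ℕ) (hp : 1 ≤ p) (h : S.Crit p (1 / (1000 * p))) :
    (∀ b : Bool, ∃ R T : E → ℝ, (∀ e, 0 < R e) ∧ (∀ e, 0 < T e) ∧ (∀ e, S.q b b e ≤ R e * T e) ∧
      (∀ u, ∑ e with S.s e = u, S.x e * ((1 - S.θ e) * R e + S.θ e * S.row b e - 1) ≤ 2001 / p) ∧
      (∀ w, ∑ e with S.t e = w, S.y e * ((1 - S.θ e) * T e + S.θ e * S.col b e - 1) ≤ 2001 / p)) ∧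
    ∀ b e, 0 < S.θ e → S.q b (!b) e ≤ 100 * (S.row b e + 1 / (p * (S.θ e * S.x e))) *
      (S.col (!b) e + 1 / (p * (S.θ e * S.y e))) := by
  classical
  have hp0 : (0 : ℝ) < p := by exact_mod_cast hp
  have hl : (0 : ℝ) < 1 / (1000 * p) := by positivity
  have hg := gauge S p hp _ h
  have hr := rowcrit S p hp _ hl.le h
  have hs := S.crit_swap h
  have hc : ∀ b w, -(1 / (1000 * p) : ℝ) ≤ ∑ e with S.t e = w, S.y e * (S.col b e - 1) :=
    rowcrit S.swap p hp _ hl.le hs
  have he := ebad S p hp h hg hr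
  have hf : ∀ b w, ∑ e with (S.t e = w ∧ S.col b e < 1 / 40),
      S.y e * min (p : ℝ) (1 / S.x e) ≤ 1 / 50 :=
    ebad S.swap p hp hs (fun e => (hg e).symm) hc
  have he' : ∀ a e, S.row a e < 1 / 40 → S.x e * min (p : ℝ) (1 / S.y e) ≤ 1 / 50 := by
    intro a e h1
    refine le_trans (single_le_sum (f := fun e => S.x e * min (p : ℝ) (1 / S.y e)) ?_
      (mem_filter.2 ⟨mem_univ e, rfl, h1⟩)) (he a (S.s e))
    intro e' _
    have h2 := S.x_pos e'
    have h3 := S.y_pos e'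
    positivity
  have hf' : ∀ b e, S.col b e < 1 / 40 → S.y e * min (p : ℝ) (1 / S.x e) ≤ 1 / 50 := by
    intro b e h1
    refine le_trans (single_le_sum (f := fun e => S.y e * min (p : ℝ) (1 / S.x e)) ?_
      (mem_filter.2 ⟨mem_univ e, rfl, h1⟩)) (hf b (S.t e))
    intro e' _
    have h2 := S.x_pos e'
    have h3 := S.y_pos e'
    positivity
  have hpr := pair S p hp _ hl h hr hc
  have hb := bbound S p hp he' hf' hpr
  refine ⟨fun b => ?_, fun b e hθ => cross S p hp he' hf' b e hθ⟩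
  have hθ1 : ∀ e, 0 < 1 - S.θ e := fun e => by linarith [S.θ_le e]
  have hX : ∀ e, 0 ≤ S.cap b e := by
    intro e
    unfold Sys.cap
    split_ifs with h1
    · have := S.col_pos b e
      have := S.row_pos b e
      have : 0 < S.cc b e - S.row b e := by linarith [h1.1]
      positivity
    · exact le_rfl
  obtain ⟨χ, h0, h1, h2 | ⟨k, hk1, hk2, hk3, hk4⟩⟩ := kkt S.s S.t (fun e => (1 - S.θ e) * S.x e)
    (fun e => (1 - S.θ e) * S.y e) (S.cc b) (S.col b) (S.cap b)
    (fun e => mul_pos (hθ1 e) (S.x_pos e)) (fun e => mul_pos (hθ1 e) (S.y_pos e))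
    (fun e => div_pos (S.q_pos b b e) (S.col_pos b e)) (S.col_pos b) hX
    (fun u => ∑ e with S.s e = u, (1 - S.θ e) * S.x e * (S.cc b e - S.row b e)) (2000 / p)
    (by positivity)
  · exact sheet S p hp b hr hc χ h0 h1 h2.1 h2.2
  · exfalso
    refine no_region S p hp h hg hr hc he hb b χ h0 h1 k ?_ hk3 (fun e => (hk4 e).1)
      (fun e => (hk4 e).2)
    calc (1000 : ℝ) / p = 2000 / p / 2 := by ring
      _ ≤ k := hk1

end Pool.Agent.Helper53.OC
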