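import Mathlib
import Pool.Agent.Helper53.OC.DefsB
import Pool.Agent.Helper53.OC.Split
import Pool.Agent.Helper53.OC.B1
import Pool.Agent.Helper53.OC.B2
import Pool.Agent.Helper53.OC.B3a
import Pool.Agent.Helper53.OC.B3b
import Pool.Agent.Helper53.OC.B4a
import Pool.Agent.Helper53.OC.B4b
import Pool.Agent.Helper53.OC.B4p
import Pool.Agent.Helper53.OC.B4q
import Pool.Agent.Helper53.OC.B4r
import Pool.Agent.Helper53.OC.B4v
import Pool.Agent.Helper53.OC.B5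
import Pool.Agent.Helper53.OC.B7
import Pool.Agent.Helper53.OC.B8a
import Pool.Agent.Helper53.OC.B9a
import Pool.Agent.Helper53.OC.B9b
import Pool.Agent.Helper53.OC.B9c

/-!
Assembly: the ordered Ramsey number of the cube with the parity and lexicographic order is at most
`d ^ (C d)`.
-/

namespace Pool.Agent.Helper53.OC

open Finset
open Pool.Agent.Helper96.OR (Idx adj rank)

/-- one level -/
theorem level {N k : ℕ} (hN : 0 < N) (f : Fin N → Fin N → ℝ) (hf : ∀ x y, 0 < f x y)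
    (φ : ℝ) (hφ : 0 < φ) (n p : ℕ) (hp : 1 ≤ p) (hk : k < n) (S0 : St N k) (hV : Valid f S0) :
    ∃ S : St N (k + 1), Valid f S ∧ S.pot φ n p ≤ 2 * Real.exp 2003 * S0.pot φ n p := by
  obtain ⟨S, hS, hmin⟩ := min_exists hN f hf φ hφ n p hp hk.le S0 hV
  have hH := half_facts N
  obtain ⟨Z, hZ⟩ := mk_sys hH f hf φ hφ n p hk S hS
  have hcr := crit_of_min hH f hf φ hφ n p hp hk S hS hmin Z hZ
  obtain ⟨h1, h2⟩ := split Z p hp hcr
  choose R T hR hT hRT hr hc using h1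
  have hok : SplitOK Z p R T := ⟨hR, hT, hRT, hr, hc, h2⟩
  have hV' := next_valid hH f hf φ hφ n p hp hk S hS Z hZ R T hok
  refine ⟨S.next φ n p Z R T, hV', ?_⟩
  refine (next_pot f φ hφ n p hp hk S hS Z R T hV'
    (next_row (sum_row k) f φ hφ n p hp hk S hS Z hZ R T hok)
    (next_col (sum_col k) f φ hφ n p hp hk S hS Z hZ R T hok)).trans ?_
  have := hmin S0 hV
  have := Real.exp_pos 2003
  gcongr

theorem iterate {N : ℕ} (hN : 0 < N) (f : Fin N → Fin N → ℝ) (hf : ∀ x y, 0 < f x y)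
    (φ : ℝ) (hφ : 0 < φ) (n p : ℕ) (hp : 1 ≤ p) (k : ℕ) (hk : k ≤ n) :
    ∃ S : St N k, Valid f S ∧ S.pot φ n p ≤ (2 * Real.exp 2003) ^ k *
      (2 * (φ + (11 + 10 * (n : ℝ)) * Real.sqrt ((∑ x, ∑ y, f x y) / (N : ℝ) ^ 2)) ^ p) := by
  induction k with
  | zero =>
    obtain ⟨S, h1, h2⟩ := root hN f hf φ n p
    refine ⟨S, h1, ?_⟩
    rw [h2, pow_zero, one_mul]
  | succ k ih =>
    obtain ⟨S, h1, h2⟩ := ih (by omega)
    obtain ⟨S', h3, h4⟩ := level hN f hf φ hφ n p hp (by omega) S h1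
    refine ⟨S', h3, h4.trans ((mul_le_mul_of_nonneg_left h2 (by positivity)).trans_eq ?_)⟩
    rw [pow_succ]
    ring

/-- Theorem D -/
theorem thmD : ∃ C K : ℕ, 0 < K ∧ ∀ n : ℕ, 1 ≤ n → ∀ N : ℕ, 2 ^ (C * n) ≤ N →
    ∀ b : Fin N → Fin N → ℝ, (∀ x y, b x y = 0 ∨ b x y = 1) →
    (∑ x, ∑ y, b x y) * (K * (n : ℝ) ^ 2) ≤ (N : ℝ) ^ 2 →
    ∃ r c : Idx 2 n → Fin N, (∀ u u', rank n u < rank n u' → r u < r u') ∧
      (∀ w w', rank n w < rank n w' → c w < c w') ∧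
      ∀ u w, (u = w ∨ adj (fun a b : Fin 2 => a ≠ b) n u w) → b (r u) (c w) = 0 := by
  obtain ⟨A, hA⟩ : ∃ A : ℝ, A = 4 * Real.exp 2003 := ⟨_, rfl⟩
  have hA0 : 0 < A := by rw [hA]; positivity
  obtain ⟨C, hC⟩ := exists_nat_ge (2000 * A + 3)
  obtain ⟨K, hK⟩ := exists_nat_ge (2 * (168 * A) ^ 2)
  have hK0 : (0 : ℝ) < K := lt_of_lt_of_le (by positivity) hK
  refine ⟨C, K, by exact_mod_cast hK0, fun n hn N hN b hb hbs => ?_⟩
  have hn0 : (0 : ℝ) < n := by exact_mod_cast hn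
  have hN1 : 0 < N := lt_of_lt_of_le (by positivity) hN
  have hNr : (0 : ℝ) < N := by exact_mod_cast hN1
  obtain ⟨κ, hκ⟩ : ∃ κ : ℝ, κ = 1 / (K * (n : ℝ) ^ 2) := ⟨_, rfl⟩
  have hκ0 : 0 < κ := by rw [hκ]; positivity
  let f : Fin N → Fin N → ℝ := fun x y => b x y + κ
  have hf : ∀ x y, 0 < f x y := fun x y => by
    have : 0 ≤ b x y := by
      rcases hb x y with h | h <;> rw [h]
      exact zero_le_one
    simp only [f]
    linarith
  have hsum : (∑ x, ∑ y, f x y) / (N : ℝ) ^ 2 ≤ 2 * κ := by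
    rw [div_le_iff₀ (by positivity)]
    have h1 : ∑ x, ∑ y, f x y = ∑ x, ∑ y, b x y + (N : ℝ) ^ 2 * κ := by
      simp only [f, sum_add_distrib, sum_const, card_univ, Fintype.card_fin, nsmul_eq_mul]
      ring
    have h2 : ∑ x, ∑ y, b x y ≤ (N : ℝ) ^ 2 * κ := by
      rw [hκ, mul_one_div, le_div_iff₀ (by positivity)]
      exact hbs
    rw [h1]
    linarith
  have hρ : (11 + 10 * (n : ℝ)) * Real.sqrt ((∑ x, ∑ y, f x y) / (N : ℝ) ^ 2) ≤ 1 / (8 * A) := by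
    have h1 : Real.sqrt ((∑ x, ∑ y, f x y) / (N : ℝ) ^ 2) ≤ 1 / (168 * A * n) := by
      apply Real.sqrt_le_iff.2
      refine ⟨by positivity, hsum.trans ?_⟩
      rw [hκ, div_pow, one_pow, mul_one_div, div_le_div_iff₀ (by positivity) (by positivity)]
      have h2 : 2 * (168 * A * (n : ℝ)) ^ 2 = (2 * (168 * A) ^ 2) * (n : ℝ) ^ 2 := by ring
      rw [h2, one_mul]
      gcongr
    have hn1 : (1 : ℝ) ≤ n := by exact_mod_cast hn
    calc (11 + 10 * (n : ℝ)) * Real.sqrt ((∑ x, ∑ y, f x y) / (N : ℝ) ^ 2)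
        ≤ (21 * n) * (1 / (168 * A * n)) := by
          gcongr
          linarith
      _ = 1 / (8 * A) := by
          field_simp
          norm_num
  obtain ⟨S, hV, hpot⟩ := iterate hN1 f hf (1 / (8 * A)) (by positivity) n n hn n le_rfl
  obtain ⟨g1, g2, g3, g4⟩ := last_bounds hn f A _ C hA hC hN hρ S hV hpot
  obtain ⟨r, c, hr, hc, he⟩ := extract f hf (1 / (8 * A)) (by positivity) S hV g1 g2 g3 g4
  refine ⟨r, c, hr, hc, fun u w huw => ?_⟩
  have h1 := he ⟨(u, w), huw⟩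
  rcases hb (r u) (c w) with h | h
  · exact h
  · simp only [f] at h1
    rw [h] at h1
    linarith

theorem final : ∃ C : ℕ, ∀ d : ℕ, 2 ≤ d → ∃ σ : Fin (2 ^ d) ≃ (Fin d → Bool), ∀ N : ℕ,
    d ^ (C * d) ≤ N → ∀ f : Fin N → Fin N → Bool,
      ∃ g : Fin (2 ^ d) → Fin N, StrictMono g ∧
        ∃ b : Bool, ∀ i j : Fin (2 ^ d), i < j →
          hammingDist (σ i) (σ j) = 1 → f (g i) (g j) = b := by
  obtain ⟨C, K, hK, hD⟩ := thmD' thmD
  obtain ⟨C', hC'⟩ := numer C K hK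
  refine ⟨C', fun d hd => ?_⟩
  obtain ⟨n, rfl⟩ : ∃ n, d = n + 1 := ⟨d - 1, by omega⟩
  obtain ⟨σ, hσ⟩ := main_param C K n _ _ _ (n + 1) hK (hD n (by omega)) (by omega) le_rfl rfl rfl rfl
  exact ⟨σ, fun N hN f => hσ N ((hC' n (by omega)).trans hN) f⟩

end Pool.Agent.Helper53.OC
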