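import Pool.Agent.Helper89.OC.St3

/-!
# OC MODULE CEN (MP_2b6189_al)
-/

set_option autoImplicit false

namespace Pool.Agent.Helper53.OC

open Matrix ComplexConjugate Pool.Agent.Helper94.YF Pool.Agent.Helper94.YG Pool.Agent.Helper89.OS
open Pool.Agent.Helper89.OC

theorem cen_int (k : ℤ) : IsIntegral ℤ (k : ℂ) := by
  have := isIntegral_algebraMap (R := ℤ) (A := ℂ) (x := k)
  simpa using this

theorem hCEN : StCEN := by
  intro hKRO hTS2 hORB hGLA hLKN I _ _ Z p _ b X Q hL hB v w hv hO hyv hyw hcop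
  have A := hGLA I Z
  obtain ⟨_, _, zz, hzi, hzo, hoz, hzz⟩ := hLKN I Z p b X hL
  have hT := (hTS2 hORB I p X Q hB v hv).1
  have hvK : X.y v ≠ 0 ∧ X.t v = 1 ∧ v ≠ X.o := by
    have := hv
    unfold Ks at this
    simpa using this
  obtain ⟨hyv0, -, hvo⟩ := hvK
  -- the sign
  obtain ⟨ε, hε, hyε⟩ : ∃ ε : ℤ, (ε = 1 ∨ ε = -1) ∧ X.y v = ε * gX X := by
    rcases sq_eq_sq_iff_eq_or_eq_neg.1 hyv with h | h
    · exact ⟨1, Or.inl rfl, by rw [h]; ring⟩
    · exact ⟨-1, Or.inr rfl, by rw [h]; ring⟩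
  have hg0 : gX X ≠ 0 := by
    intro h
    apply hyv0
    rw [hyε, h, mul_zero]
  have hg0c : (gX X : ℂ) ≠ 0 := by exact_mod_cast hg0
  have hε2 : (ε : ℂ) * ε = 1 := by
    rcases hε with h | h <;> simp [h]
  have hp3 : 3 ≤ p := by
    have h2 := X.prime.two_le
    rcases Nat.lt_or_ge 2 p with h | h
    · exact h
    · exfalso
      have : p = 2 := le_antisymm h h2
      have ho := X.p_odd
      rw [this] at ho
      exact absurd ho (by decide)
  have hpc : (p : ℂ) ≠ 0 := by
    have : p ≠ 0 := by omega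
    exact_mod_cast this
  -- key identity
  have key : ∀ i, (gX X : ℂ) * Sf Z i v + (X.y v : ℂ) * (Z.d i : ℂ) =
      p * ((gX X : ℂ) * zz i v + (X.y v : ℂ) * X.z i) := by
    intro i
    set E : I → ℂ := fun l => (gX X : ℂ) * (if l ∈ Orb X v then 1 else 0) +
      ((Orb X v).card : ℂ) * X.y v * (if l = X.o then 1 else 0) with hE
    have hEv : ∀ F : I → ℂ, ∑ l, F l * E l = F v * gX X + F X.o * X.y v := by
      intro F
      have : ∀ l, F l * E l = (if l = v then F l * gX X else 0) +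
          (if l = X.o then F l * X.y v else 0) := by
        intro l
        simp only [hE, hO, Finset.mem_singleton, Finset.card_singleton, Nat.cast_one, one_mul]
        split_ifs <;> ring
      rw [Finset.sum_congr rfl (fun l _ => this l), Finset.sum_add_distrib,
        Finset.sum_ite_eq' Finset.univ v, Finset.sum_ite_eq' Finset.univ X.o]
      simp
    have h1 : ∑ k, Sf Z i k * E k = p * ∑ j, zz i j * E j := by
      calc ∑ k, Sf Z i k * E k = ∑ k, ∑ j, zz i j * (X.s j k * E k) := by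
            refine Finset.sum_congr rfl fun k _ => ?_
            rw [hzz i k, Finset.sum_mul]
            refine Finset.sum_congr rfl fun j _ => ?_
            ring
        _ = ∑ j, ∑ k, zz i j * (X.s j k * E k) := Finset.sum_comm
        _ = ∑ j, zz i j * (p * E j) := by
            refine Finset.sum_congr rfl fun j _ => ?_
            rw [← Finset.mul_sum]
            congr 1
            exact hT j
        _ = p * ∑ j, zz i j * E j := by
            rw [Finset.mul_sum]
            refine Finset.sum_congr rfl fun j _ => ?_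
            ring
    rw [hEv, hEv] at h1
    have h2 : Sf Z i X.o = Z.d i := by rw [hL.o]; exact A.Sf_o i
    rw [h2, hzo i] at h1
    linear_combination h1
  have key2 : ∀ i, Sf Z i v = -(ε : ℂ) * Z.d i + p * (zz i v + ε * X.z i) := by
    intro i
    have h := key i
    have hyc : (X.y v : ℂ) = ε * gX X := by exact_mod_cast hyε
    rw [hyc] at h
    apply mul_left_cancel₀ hg0c
    linear_combination h
  have h1 := key2 w
  have h2 := key2 X.o
  have h3 : Sf Z X.o v = Z.d v := by
    rw [A.Sf_symm, hL.o]; exact A.Sf_o v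
  have h4 : (Z.d X.o : ℂ) = 1 := by
    rw [hL.o, Z.d_o]; simp
  rw [h3, h4, hoz v] at h2
  set β : ℂ := zz w v + ε * X.z w - Z.d w * (X.z v + ε * X.z X.o) with hβ
  have hβi : IsIntegral ℤ β := by
    have hn : ∀ n : ℕ, IsIntegral ℤ (n : ℂ) := fun n => by
      have := cen_int (n : ℤ)
      simpa using this
    exact ((hzi w v).add ((cen_int _).mul (cen_int _))).sub
      ((hn _).mul ((cen_int _).add ((cen_int _).mul (cen_int _))))
  have hS : Sf Z v w - Z.d v * Z.d w = p * β := by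
    rw [A.Sf_symm v w, h1, h2, hβ]
    ring
  -- integrality of α
  have hdv : (Z.d v : ℂ) ≠ 0 := by exact_mod_cast (Z.d_pos v).ne'
  have hdw : (Z.d w : ℂ) ≠ 0 := by exact_mod_cast (Z.d_pos w).ne'
  have hcv : Sf Z v w = (Z.d v : ℂ) * Cchi Z v w := A.Sf_chi v w
  have hcw : Sf Z v w = (Z.d w : ℂ) * Cchi Z w v := by
    rw [A.Sf_symm]; exact A.Sf_chi w v
  set α : ℂ := Cchi Z v w / Z.d w with hα
  have hαS : α * (Z.d v * Z.d w) = Sf Z v w := by
    rw [hα, hcv]; field_simp
  have hαw : α * Z.d w = Cchi Z v w := by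
    rw [hα]; field_simp
  have hαv : α * Z.d v = Cchi Z w v := by
    apply mul_right_cancel₀ hdw
    rw [mul_assoc, hαS, hcw]; ring
  have hcop' : Nat.Coprime (Z.d v) (Z.d w) := by
    rw [← hL.d]; exact hcop
  have hαi : IsIntegral ℤ α := by
    have hb : (Z.d v : ℤ) * Nat.gcdA (Z.d v) (Z.d w) + (Z.d w : ℤ) * Nat.gcdB (Z.d v) (Z.d w)
        = 1 := by
      have := Nat.gcd_eq_gcd_ab (Z.d v) (Z.d w)
      rw [hcop'] at this
      exact_mod_cast this.symm
    have hbc : (Z.d v : ℂ) * (Nat.gcdA (Z.d v) (Z.d w) : ℂ) +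
        (Z.d w : ℂ) * (Nat.gcdB (Z.d v) (Z.d w) : ℂ) = 1 := by exact_mod_cast hb
    have : α = (Nat.gcdA (Z.d v) (Z.d w) : ℂ) * Cchi Z w v +
        (Nat.gcdB (Z.d v) (Z.d w) : ℂ) * Cchi Z v w := by
      rw [← hαw, ← hαv]
      linear_combination (-α) * hbc
    rw [this]
    exact ((cen_int _).mul (A.chi_int _ _)).add ((cen_int _).mul (A.chi_int _ _))
  have hαβ : (α - 1) * (Z.d v * Z.d w) = p * β := by
    rw [← hS, ← hαS]; ring
  have hcopp : Nat.Coprime p (Z.d v * Z.d w) := by
    have e1 : ¬ p ∣ Z.d v := by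
      have := hB.d_nd v hyv0
      rwa [hL.d] at this
    have e2 : ¬ p ∣ Z.d w := by
      have := hB.d_nd w hyw
      rwa [hL.d] at this
    exact Nat.Coprime.mul_right ((X.prime.coprime_iff_not_dvd).2 e1)
      ((X.prime.coprime_iff_not_dvd).2 e2)
  set γ : ℂ := (α - 1) / p with hγ
  have hγi : IsIntegral ℤ γ := by
    have hb : (p : ℤ) * Nat.gcdA p (Z.d v * Z.d w) +
        ((Z.d v * Z.d w : ℕ) : ℤ) * Nat.gcdB p (Z.d v * Z.d w) = 1 := by
      have := Nat.gcd_eq_gcd_ab p (Z.d v * Z.d w)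
      rw [hcopp] at this
      exact_mod_cast this.symm
    have hbc : (p : ℂ) * (Nat.gcdA p (Z.d v * Z.d w) : ℂ) +
        ((Z.d v : ℂ) * Z.d w) * (Nat.gcdB p (Z.d v * Z.d w) : ℂ) = 1 := by exact_mod_cast hb
    have : γ = (Nat.gcdA p (Z.d v * Z.d w) : ℂ) * (α - 1) +
        (Nat.gcdB p (Z.d v * Z.d w) : ℂ) * β := by
      rw [hγ, div_eq_iff hpc]
      linear_combination (-(α - 1)) * hbc + (Nat.gcdB p (Z.d v * Z.d w) : ℂ) * hαβ
    rw [this]
    have h1i : IsIntegral ℤ (1 : ℂ) := isIntegral_one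
    exact ((cen_int _).mul (hαi.sub h1i)).add ((cen_int _).mul hβi)
  have hγ0 : γ = 0 := by
    apply hKRO γ hγi
    intro σ
    have hσp : σ (p : ℂ) = p := map_natCast σ p
    have hσα : ‖σ α‖ ≤ 1 := by
      have h5 : σ α = σ (Cchi Z v w) / Z.d w := by
        rw [hα, map_div₀, map_natCast]
      rw [h5, norm_div, Complex.norm_natCast]
      have hpos : (0 : ℝ) < Z.d w := by exact_mod_cast Z.d_pos w
      rw [div_le_one hpos]
      exact A.bound σ v w
    have h6 : σ γ = (σ α - 1) / p := by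
      rw [hγ, map_div₀, map_sub, map_one, hσp]
    rw [h6, norm_div, Complex.norm_natCast]
    have hpp : (0 : ℝ) < p := by
      have : 0 < p := by omega
      exact_mod_cast this
    rw [div_lt_one hpp]
    calc ‖σ α - 1‖ ≤ ‖σ α‖ + ‖(1 : ℂ)‖ := norm_sub_le _ _
      _ ≤ 1 + 1 := by rw [norm_one]; linarith
      _ < (p : ℝ) := by
        have : (3 : ℝ) ≤ p := by exact_mod_cast hp3
        linarith
  have hα1 : α = 1 := by
    have := hγ0
    rw [hγ, div_eq_zero_iff] at this
    rcases this with h | h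
    · exact sub_eq_zero.1 h
    · exact absurd h hpc
  rw [← hαS, hα1, one_mul]

end Pool.Agent.Helper53.OC
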