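import Mathlib
import Pool.Agent.Helper53.OC.DefsB

/-!
Ordered Ramsey numbers of the cube (MP_09b4c2): the state of level `0` (module B5).
-/

namespace Pool.Agent.Helper53.OC

open Finset
open Pool.Agent.Helper96.OR (Idx adj rank)

theorem B5_eq (u w : Idx 2 0) : u = w := Subsingleton.elim (α := Unit) u w

theorem B5_edge (e e' : Ed 0) : e = e' :=
  Subtype.ext (Prod.ext (B5_eq _ _) (B5_eq _ _))

theorem B5_sum_row (F : Ed 0 → ℝ) (u : Idx 2 0) :
    ∑ e : Ed 0 with e.1.1 = u, F e = F (dg u) := by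
  have h : (univ : Finset (Ed 0)).filter (fun e => e.1.1 = u) = {dg u} := by
    apply Finset.eq_singleton_iff_unique_mem.2
    exact ⟨Finset.mem_filter.2 ⟨mem_univ _, show (dg u).1.1 = u from rfl⟩, fun e _ => B5_edge _ _⟩
  rw [h, Finset.sum_singleton]

theorem B5_sum_col (F : Ed 0 → ℝ) (u : Idx 2 0) :
    ∑ e : Ed 0 with e.1.2 = u, F e = F (dg u) := by
  have h : (univ : Finset (Ed 0)).filter (fun e => e.1.2 = u) = {dg u} := by
    apply Finset.eq_singleton_iff_unique_mem.2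
    exact ⟨Finset.mem_filter.2 ⟨mem_univ _, show (dg u).1.2 = u from rfl⟩, fun e _ => B5_edge _ _⟩
  rw [h, Finset.sum_singleton]

theorem B5_sum_idx (F : Idx 2 0 → ℝ) (u0 : Idx 2 0) : ∑ u : Idx 2 0, F u = F u0 := by
  have h : (univ : Finset (Idx 2 0)) = {u0} :=
    Finset.eq_singleton_iff_unique_mem.2 ⟨mem_univ _, fun e _ => B5_eq _ _⟩
  rw [h, Finset.sum_singleton]

theorem root {N : ℕ} (hN : 0 < N) (f : Fin N → Fin N → ℝ) (hf : ∀ x y, 0 < f x y) (φ : ℝ)
    (n p : ℕ) : ∃ S : St N 0, Valid f S ∧ S.pot φ n p =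
      2 * (φ + (11 + 10 * (n : ℝ)) * Real.sqrt ((∑ x, ∑ y, f x y) / (N : ℝ) ^ 2)) ^ p := by
  have hN' : (0 : ℝ) < N := by exact_mod_cast hN
  obtain ⟨ρ, hρ⟩ : ∃ ρ : ℝ, ρ = (∑ x, ∑ y, f x y) / (N : ℝ) ^ 2 := ⟨_, rfl⟩
  have hρ0 : 0 ≤ ρ := by
    rw [hρ]
    exact div_nonneg (sum_nonneg fun x _ => sum_nonneg fun y _ => (hf x y).le) (by positivity)
  rw [← hρ]
  refine ⟨⟨fun _ _ => 1 / N, fun _ _ => 1 / N, fun _ => 0, fun _ => 0, fun _ => Real.sqrt ρ,
    fun _ => Real.sqrt ρ⟩, ?_, ?_⟩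
  · refine ⟨fun _ _ => by positivity, fun _ _ => by positivity, ?_, ?_, ?_, ?_, ?_, ?_,
      fun _ => Real.sqrt_nonneg _, fun _ => Real.sqrt_nonneg _, ?_⟩
    · intro _
      simp only [sum_const, card_univ, Fintype.card_fin, nsmul_eq_mul]
      field_simp
    · intro _
      simp only [sum_const, card_univ, Fintype.card_fin, nsmul_eq_mul]
      field_simp
    · intro u u' x x' h
      exact absurd h (lt_irrefl _)
    · intro u u' x x' h
      exact absurd h (lt_irrefl _)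
    · intro u x
      simp only [pow_zero]
      rw [div_mul_cancel₀ _ hN'.ne']
    · intro u x
      simp only [pow_zero]
      rw [div_mul_cancel₀ _ hN'.ne']
    · intro e
      simp only
      rw [Real.mul_self_sqrt hρ0, hρ]
      unfold dn
      rw [sum_div]
      apply le_of_eq
      apply sum_congr rfl
      intro x _
      rw [sum_div]
      apply sum_congr rfl
      intro y _
      field_simp
  · obtain ⟨u0⟩ : Nonempty (Idx 2 0) := (inferInstance : Nonempty Unit)
    unfold St.pot St.X St.Y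
    rw [B5_sum_idx _ u0, B5_sum_idx _ u0, B5_sum_row, B5_sum_col]
    simp only [mu, dg, if_true, pow_zero, mul_one, Nat.cast_zero, sub_zero]
    ring

end Pool.Agent.Helper53.OC
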